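import Mathlib

/-!
General tools: bookkeeping, transfinite chains, maximal antichains.
-/

namespace Pool.Agent.Lib.MP_6993b6_lc

open Set

/-- Bookkeeping: a sequence of states in which every generated task is treated infinitely
often. -/
theorem book {S T : Type*} [Nonempty T] (R : S → T → S → Prop) (gen : S → Set T)
    (Inv : S → Prop) (s0 : S) (h0 : Inv s0) (hc : ∀ s, Inv s → (gen s).Countable)
    (step : ∀ s t, Inv s → ∃ s', Inv s' ∧ R s t s') :
    ∃ (σ : ℕ → S) (τ : ℕ → T), σ 0 = s0 ∧ (∀ n, Inv (σ n)) ∧ (∀ n, R (σ n) (τ n) (σ (n + 1))) ∧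
      ∀ n, ∀ t ∈ gen (σ n), ∀ k0, ∃ k ≥ k0, τ k = t := by
  classical
  have hen : ∀ s : {s // Inv s}, ∃ f : ℕ → T, gen s.1 ⊆ range f := fun s =>
    Set.countable_iff_exists_subset_range.1 (hc s.1 s.2)
  choose en hen using hen
  have st : ∀ (s : {s // Inv s}) (t : T), ∃ s' : {s // Inv s}, R s.1 t s'.1 := fun s t => by
    obtain ⟨s', h1, h2⟩ := step s.1 t s.2
    exact ⟨⟨s', h1⟩, h2⟩
  choose nx hnx using st
  let tk : ℕ → (ℕ → {s // Inv s}) → T := fun k h =>
    en (h (Nat.unpair k).1) (Nat.unpair (Nat.unpair k).2).1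
  let H : ℕ → ℕ → {s // Inv s} := fun n => Nat.rec (fun _ => ⟨s0, h0⟩)
    (fun k h => Function.update h (k + 1) (nx (h k) (tk k h))) n
  have H1 : ∀ k, H (k + 1) = Function.update (H k) (k + 1) (nx (H k k) (tk k (H k))) :=
    fun _ => rfl
  have H2 : ∀ k j, j ≤ k → H k j = H j j := by
    intro k
    induction k with
    | zero =>
      intro j hj
      rw [Nat.le_zero.1 hj]
    | succ k ih =>
      intro j hj
      rcases Nat.lt_or_eq_of_le hj with h | rfl
      · rw [H1, Function.update_of_ne (by omega), ih j (by omega)]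
      · rfl
  refine ⟨fun n => (H n n).1, fun k => tk k (H k), rfl, fun n => (H n n).2, fun n => ?_, ?_⟩
  · show R _ _ (H (n + 1) (n + 1)).1
    rw [H1, Function.update_self]
    exact hnx _ _
  · intro n t ht k0
    obtain ⟨i, hi⟩ := hen (H n n) ht
    refine ⟨Nat.pair n (Nat.pair i k0),
      (Nat.right_le_pair i k0).trans (Nat.right_le_pair _ _), ?_⟩
    simp only [tk, Nat.unpair_pair]
    rw [H2 _ n (Nat.left_le_pair _ _), hi]

/-- Transfinite chains. -/
theorem exists_seq {I T : Type*} [LinearOrder I] [WellFoundedLT I] (le : T → T → Prop)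
    (tr : ∀ a b c, le a b → le b c → le a c) (S : I → T → T → Prop)
    (ub : ∀ (i : I) (f : Iio i → T), (∀ j j', j < j' → le (f j) (f j')) → ∃ a, ∀ j, le (f j) a)
    (step : ∀ i a, ∃ b, le a b ∧ S i a b) :
    ∃ f : I → T, (∀ j i, j < i → le (f j) (f i)) ∧
      ∀ i, ∃ a, (∀ j < i, le (f j) a) ∧ le a (f i) ∧ S i a (f i) := by
  classical
  rcases isEmpty_or_nonempty I with hI | ⟨⟨i0⟩⟩
  · exact ⟨fun i => isEmptyElim i, fun i => isEmptyElim i, fun i => isEmptyElim i⟩
  have hT : Nonempty T := by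
    obtain ⟨m, -, hm⟩ := (wellFounded_lt (α := I)).has_min univ ⟨i0, trivial⟩
    obtain ⟨a, -⟩ := ub m (fun j => (hm j.1 trivial j.2).elim) fun j =>
      (hm j.1 trivial j.2).elim
    exact ⟨a⟩
  choose nx h1 h2 using step
  let U : ∀ i : I, (Iio i → T) → T := fun i g =>
    if h : ∃ a, ∀ j, le (g j) a then h.choose else Classical.arbitrary T
  let f : I → T := (wellFounded_lt (α := I)).fix fun i g => nx i (U i fun j => g j.1 j.2)
  have hf : ∀ i, f i = nx i (U i fun j => f j.1) := fun i => WellFounded.fix_eq _ _ _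
  have key : ∀ i, ∀ j < i, le (f j) (U i fun j => f j.1) := by
    intro i
    induction i using (wellFounded_lt (α := I)).induction with
    | _ i ih =>
      have h : ∃ a, ∀ j : Iio i, le (f j.1) a := by
        refine ub i _ fun j j' hj => ?_
        rw [hf j'.1]
        exact tr _ _ _ (ih j'.1 j'.2 j.1 hj) (h1 _ _)
      intro j hj
      simp only [U, dif_pos h]
      exact h.choose_spec ⟨j, hj⟩
  refine ⟨f, fun j i hj => ?_, fun i => ⟨_, key i, ?_, ?_⟩⟩
  · rw [hf i]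
    exact tr _ _ _ (key i j hj) (h1 _ _)
  · rw [hf i]
    exact h1 _ _
  · rw [hf i]
    exact h2 _ _

/-- Maximal antichains inside a set of conditions. -/
theorem exists_antichain {P : Type*} [Preorder P] (D : Set P) :
    ∃ A ⊆ D, (∀ a ∈ A, ∀ b ∈ A, ∀ r, r ≤ a → r ≤ b → a = b) ∧
      ∀ d ∈ D, ∃ a ∈ A, ∃ r, r ≤ a ∧ r ≤ d := by
  obtain ⟨A, hA⟩ := zorn_subset
    {A : Set P | A ⊆ D ∧ ∀ a ∈ A, ∀ b ∈ A, ∀ r, r ≤ a → r ≤ b → a = b} (by
      intro c hc hch
      refine ⟨⋃₀ c, ⟨sUnion_subset fun A hA => (hc hA).1, ?_⟩, fun s hs => subset_sUnion_of_mem hs⟩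
      rintro a ⟨A, hA, ha⟩ b ⟨B, hB, hb⟩
      rcases hch.total hA hB with h | h
      · exact (hc hB).2 a (h ha) b hb
      · exact (hc hA).2 a ha b (h hb))
  refine ⟨A, hA.prop.1, hA.prop.2, fun d hd => ?_⟩
  by_contra hn
  push Not at hn
  have h1 : insert d A ∈ {A : Set P | A ⊆ D ∧ ∀ a ∈ A, ∀ b ∈ A, ∀ r, r ≤ a → r ≤ b → a = b} := by
    refine ⟨insert_subset hd hA.prop.1, ?_⟩
    rintro a (rfl | ha) b (rfl | hb) r h1 h2
    · rfl
    · exact (hn b hb r h2 h1).elim
    · exact (hn a ha r h1 h2).elim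
    · exact hA.prop.2 a ha b hb r h1 h2
  have h2 := hA.le_of_ge h1 (subset_insert d A)
  exact hn d (h2 (mem_insert d A)) d le_rfl le_rfl

/-- Least upper bounds of bounded families in a well-order. -/
theorem exists_lub {K ι : Type*} [LinearOrder K] [WellFoundedLT K] (f : ι → K) {b : K}
    (hb : ∀ i, f i ≤ b) : ∃ a ≤ b, (∀ i, f i ≤ a) ∧ ∀ x < a, ∃ i, x < f i := by
  obtain ⟨a, ha, hm⟩ := (wellFounded_lt (α := K)).has_min {a | ∀ i, f i ≤ a} ⟨b, hb⟩
  refine ⟨a, not_lt.1 (hm b hb), ha, fun x hx => ?_⟩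
  by_contra hc
  push Not at hc
  exact hm x hc hx

end Pool.Agent.Lib.MP_6993b6_lc
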