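import Mathlib

/-!
The interface between the combinatorics of the forcing notion and the models.
-/

namespace Pool.Agent.Lib.MP_6993b6_lc

open Set

/-- Cohen forcing. -/
@[ext] structure Co where
  l : List Bool

instance : Preorder Co where
  le a b := b.l <+: a.l
  le_refl a := List.prefix_refl a.l
  le_trans _ _ _ h h' := List.IsPrefix.trans h' h

instance : OrderTop Co where
  top := ⟨[]⟩
  le_top a := List.nil_prefix (l := a.l)

instance : Countable Co := Function.Injective.countable (f := Co.l) fun _ _ h => Co.ext h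

theorem Co.le_def {a b : Co} : a ≤ b ↔ b.l <+: a.l := Iff.rfl

/-- A name for a function from a subset of `I` to `Y`. -/
structure Fn {P I Y : Type} [Preorder P] (V : P → I → Y → Prop) : Prop where
  mono : ∀ p q i y, V p i y → q ≤ p → V q i y
  uniq : ∀ p i y y', V p i y → V p i y' → y = y'

/-- Every name for a function from a subset of `I` to `Y` is densely forced to be bounded. -/
def Bdd (P I Y : Type) [Preorder P] [LT Y] : Prop :=
  ∀ V : P → I → Y → Prop, Fn V → ∀ p, ∃ q ≤ p, ∃ b, ∀ r ≤ q, ∀ i y, V r i y → y < b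

/-- A name for a map from a subset of `I` onto `S`. -/
def Cov (P I : Type) [Preorder P] {Y : Type} (S : Set Y) : Prop :=
  ∃ V : P → I → Y → Prop, Fn V ∧ ∀ p, ∀ y ∈ S, ∃ q ≤ p, ∃ i, V q i y

section tree

variable {P K Nd : Type} [Preorder P] [LT K] (ht : Nd → K) (Lt : P → Nd → Nd → Prop)

/-- `p` forces that `t` has predecessors on all lower levels. -/
def Node (p : P) (t : Nd) : Prop := ∀ q ≤ p, ∀ β < ht t, ∃ r ≤ q, ∃ s, ht s = β ∧ Lt r s t

/-- A name for a tree order, below `p0`. -/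
structure TreeSys (p0 : P) : Prop where
  mono : ∀ p q s t, Lt p s t → q ≤ p → Lt q s t
  lt : ∀ p s t, Lt p s t → ht s < ht t
  uniq : ∀ p ≤ p0, ∀ s s' t, Lt p s t → Lt p s' t → ht s = ht s' → s = s'
  trans : ∀ p ≤ p0, ∀ s t u, Lt p s t → Lt p t u → ∃ q ≤ p, Lt q s u
  node : ∀ p ≤ p0, ∀ s t, Lt p s t → Node ht Lt p s
  lev : ∀ p ≤ p0, ∀ α, ∃ q ≤ p, ∃ t, ht t = α ∧ Node ht Lt q t

/-- A name for a cofinal branch, below `p1`. -/
def HasBr (p1 : P) : Prop :=
  ∃ B : P → Nd → Prop, (∀ p q s, B p s → q ≤ p → B q s) ∧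
    (∀ p ≤ p1, ∀ β, ∃ q ≤ p, ∃ s, ht s = β ∧ B q s) ∧
    ∀ p ≤ p1, ∀ s t, B p s → B p t → s = t ∨ ∃ q ≤ p, Lt q s t ∨ Lt q t s

end tree

/-- The properties of the forcing notion `P` that are used for the models.  `W` becomes `ω₁`
and `K` becomes `ω₂`. -/
structure Sys (P K W : Type) [Preorder P] [OrderTop P] [LinearOrder K] [LinearOrder W] : Prop where
  cnt : ∀ ζ : W, (Iio ζ).Countable
  nomax : ∀ α : K, ∃ β, α < β
  h1 : Bdd (P × Co) ℕ W
  h2 : Bdd (P × Co) W K
  col : ∀ α : K, Cov P W (Iio α)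
  core : ∀ (Lt : P → K × W → K × W → Prop) (p0 : P), TreeSys Prod.fst Lt p0 →
    ∃ p1 ≤ p0, HasBr Prod.fst Lt p1
  aron : ∃ (Nd : Type) (ht : Nd → K) (Lt : P × Co → Nd → Nd → Prop),
    TreeSys ht Lt ⊤ ∧ (∀ t, Node ht Lt ⊤ t) ∧ (∀ α, Cov (P × Co) W {t | ht t = α}) ∧
      ∀ r, ¬ HasBr ht Lt r

end Pool.Agent.Lib.MP_6993b6_lc
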