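import Mathlib
import Pool.Agent.Lib.MP_6993b6_lc.Gen
import Pool.Agent.Lib.MP_6993b6_lc.Sys

/-!
The forcing notion: a Mitchell type forcing `MC`, followed by a forcing that adds a coherent
sequence of Cohen names modulo finite differences.
-/

namespace Pool.Agent.Lib.MP_6993b6_lc

open Set Classical

/-! ### Agreement of names for bits -/

section agree

variable {R K : Type*} [Preorder R]

def Agree (r : R) (a b : Set R) : Prop := ∀ s ≤ r, (s ∈ a ↔ s ∈ b)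

def Ag (r : R) (a b : Set R) : Prop := ∀ s ≤ r, ∃ t ≤ s, Agree t a b

def LF (r : R) (f g : K → Set R) (S : Set K) : Prop :=
  ∀ s ≤ r, ∃ t ≤ s, ∃ F : Finset K, ∀ ξ ∈ S, ξ ∉ F → Ag t (f ξ) (g ξ)

theorem Agree.mono {r s : R} {a b : Set R} (h : Agree r a b) (hs : s ≤ r) : Agree s a b :=
  fun t ht => h t (ht.trans hs)

theorem Ag.mono {r s : R} {a b : Set R} (h : Ag r a b) (hs : s ≤ r) : Ag s a b :=
  fun t ht => h t (ht.trans hs)

theorem Agree.ag {r : R} {a b : Set R} (h : Agree r a b) : Ag r a b :=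
  fun s hs => ⟨s, le_rfl, h.mono hs⟩

theorem Ag.refl (r : R) (a : Set R) : Ag r a a := fun s _ => ⟨s, le_rfl, fun _ _ => Iff.rfl⟩

theorem Ag.of_eq (r : R) {a b : Set R} (h : a = b) : Ag r a b := h ▸ Ag.refl r a

theorem Ag.symm {r : R} {a b : Set R} (h : Ag r a b) : Ag r b a := fun s hs =>
  let ⟨t, ht, h'⟩ := h s hs
  ⟨t, ht, fun u hu => (h' u hu).symm⟩

theorem Ag.trans {r : R} {a b c : Set R} (h : Ag r a b) (h' : Ag r b c) : Ag r a c := by
  intro s hs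
  obtain ⟨t, ht, h1⟩ := h s hs
  obtain ⟨u, hu, h2⟩ := h' t (ht.trans hs)
  exact ⟨u, hu.trans ht, fun v hv => (h1 v (hv.trans hu)).trans (h2 v hv)⟩

theorem Ag.dense {r : R} {a b : Set R} (h : ∀ s ≤ r, ∃ t ≤ s, Ag t a b) : Ag r a b := by
  intro s hs
  obtain ⟨t, ht, h1⟩ := h s hs
  obtain ⟨u, hu, h2⟩ := h1 t le_rfl
  exact ⟨u, hu.trans ht, h2⟩

/-- A set that locally equals one of two sets which agree. -/
theorem Ag.mix {r : R} {a b c : Set R} (h : Ag r a b)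
    (hc : ∀ s, (s ∈ c ↔ s ∈ a) ∨ (s ∈ c ↔ s ∈ b)) : Ag r a c := by
  intro s hs
  obtain ⟨t, ht, h1⟩ := h s hs
  refine ⟨t, ht, fun u hu => ?_⟩
  rcases hc u with h2 | h2
  · exact h2.symm
  · exact (h1 u hu).trans h2.symm

theorem LF.mono {r s : R} {f g : K → Set R} {S : Set K} (h : LF r f g S) (hs : s ≤ r) :
    LF s f g S := fun t ht => h t (ht.trans hs)

theorem LF.of_ag {r : R} {f g : K → Set R} {S : Set K} (h : ∀ ξ ∈ S, Ag r (f ξ) (g ξ)) :
    LF r f g S := fun s hs => ⟨s, le_rfl, ∅, fun ξ hξ _ => (h ξ hξ).mono hs⟩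

theorem LF.of_fin {r : R} {f g : K → Set R} {S : Set K} (F : Finset K)
    (h : ∀ ξ ∈ S, ξ ∉ F → f ξ = g ξ) : LF r f g S :=
  fun s _ => ⟨s, le_rfl, F, fun ξ hξ h' => Ag.of_eq _ (h ξ hξ h')⟩

theorem LF.of_eq {r : R} {f g : K → Set R} {S : Set K} (h : ∀ ξ ∈ S, f ξ = g ξ) :
    LF r f g S := LF.of_fin ∅ fun ξ hξ _ => h ξ hξ

theorem LF.imp {r : R} {f g f' g' : K → Set R} {S S' : Set K} (h : LF r f g S)
    (h' : ∀ t ≤ r, ∀ ξ ∈ S', (ξ ∈ S → Ag t (f ξ) (g ξ)) → Ag t (f' ξ) (g' ξ)) :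
    LF r f' g' S' := by
  intro s hs
  obtain ⟨t, ht, F, h1⟩ := h s hs
  exact ⟨t, ht, F, fun ξ hξ hF => h' t (ht.trans hs) ξ hξ fun h2 => h1 ξ h2 hF⟩

theorem LF.symm {r : R} {f g : K → Set R} {S : Set K} (h : LF r f g S) : LF r g f S :=
  h.imp fun _ _ _ h1 h2 => (h2 h1).symm

theorem LF.subset {r : R} {f g : K → Set R} {S S' : Set K} (h : LF r f g S) (hS : S' ⊆ S) :
    LF r f g S' := h.imp fun _ _ _ h1 h2 => h2 (hS h1)

theorem LF.both {r : R} {f g f' g' f'' g'' : K → Set R} {S S' S'' : Set K} (h : LF r f g S)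
    (h' : LF r f' g' S') (h'' : ∀ t ≤ r, ∀ ξ ∈ S'', (ξ ∈ S → Ag t (f ξ) (g ξ)) →
      (ξ ∈ S' → Ag t (f' ξ) (g' ξ)) → Ag t (f'' ξ) (g'' ξ)) : LF r f'' g'' S'' := by
  intro s hs
  obtain ⟨t, ht, F, h1⟩ := h s hs
  obtain ⟨u, hu, F', h2⟩ := h' t (ht.trans hs)
  refine ⟨u, hu.trans ht, F ∪ F', fun ξ hξ hF => ?_⟩
  rw [Finset.mem_union, not_or] at hF
  exact h'' u ((hu.trans ht).trans hs) ξ hξ (fun h3 => (h1 ξ h3 hF.1).mono hu)
    fun h3 => h2 ξ h3 hF.2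

theorem LF.trans {r : R} {f g k : K → Set R} {S : Set K} (h : LF r f g S) (h' : LF r g k S) :
    LF r f k S := h.both h' fun _ _ _ h1 h2 h3 => (h2 h1).trans (h3 h1)

theorem LF.union {r : R} {f g : K → Set R} {S S' : Set K} (h : LF r f g S) (h' : LF r f g S') :
    LF r f g (S ∪ S') := h.both h' fun _ _ _ h1 h2 h3 => h1.elim h2 h3

theorem LF.dense {r : R} {f g : K → Set R} {S : Set K} (h : ∀ s ≤ r, ∃ t ≤ s, LF t f g S) :
    LF r f g S := by
  intro s hs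
  obtain ⟨t, ht, h1⟩ := h s hs
  obtain ⟨u, hu, h2⟩ := h1 t le_rfl
  exact ⟨u, hu.trans ht, h2⟩

end agree

/-! ### The Mitchell part -/

abbrev Pt (K : Type) := K × ℕ → Bool

abbrev FS (K : Type) := Finset ((K × ℕ) × Bool)

variable {K W : Type}

def Sat (p : FS K) (x : Pt K) : Prop := ∀ a ∈ p, x a.1 = a.2

theorem Sat.mono {p p' : FS K} {x : Pt K} (h : Sat p' x) (hp : p ⊆ p') : Sat p x :=
  fun a ha => h a (hp ha)

def Dep {α : Type} (S : Set (K × ℕ)) (φ : Pt K → α) : Prop :=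
  ∀ x y, (∀ a ∈ S, x a = y a) → φ x = φ y

variable [LinearOrder K]

theorem sat_union {p p' : FS K} {x : Pt K} : Sat (p ∪ p') x ↔ Sat p x ∧ Sat p' x := by
  simp only [Sat, Finset.mem_union, or_imp, forall_and]

structure Valid (β : K) (φ : Pt K → K) : Prop where
  rng : (range φ).Countable
  lt : ∀ x, φ x < β
  dep : ∃ S : Set (K × ℕ), S.Countable ∧ (∀ a ∈ S, a.1 < β) ∧ Dep S φ

theorem Valid.const {β d : K} (h : d < β) : Valid β fun _ => d :=
  ⟨(countable_singleton d).mono (by rintro _ ⟨x, rfl⟩; rfl), fun _ => h,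
    ∅, countable_empty, by simp, fun _ _ _ => rfl⟩

theorem Valid.eq {β : K} {φ : Pt K → K} (h : Valid β φ) {x y : Pt K}
    (hxy : ∀ a : K × ℕ, a.1 < β → x a = y a) : φ x = φ y :=
  let ⟨_, _, h1, h2⟩ := h.dep
  h2 x y fun a ha => hxy a (h1 a ha)

@[ext] structure MC (K W : Type) [LinearOrder K] where
  p : FS K
  q : K × W → Option (Pt K → K)
  cons : ∃ x, Sat p x
  cnt : {j | q j ≠ none}.Countable
  ok : ∀ j φ, q j = some φ → Valid j.1 φ

instance : Preorder (MC K W) where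
  le m' m := m.p ⊆ m'.p ∧
    ∀ j φ, m.q j = some φ → ∃ φ', m'.q j = some φ' ∧ ∀ x, Sat m'.p x → φ' x = φ x
  le_refl m := ⟨Finset.Subset.refl _, fun _ φ h => ⟨φ, h, fun _ _ => rfl⟩⟩
  le_trans a b c h h' := by
    refine ⟨h'.1.trans h.1, fun j φ hj => ?_⟩
    obtain ⟨φ', h1, h2⟩ := h'.2 j φ hj
    obtain ⟨φ'', h3, h4⟩ := h.2 j φ' h1
    exact ⟨φ'', h3, fun x hx => (h4 x hx).trans (h2 x (hx.mono h.1))⟩

theorem MC.le_def {m' m : MC K W} : m' ≤ m ↔ m.p ⊆ m'.p ∧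
    ∀ j φ, m.q j = some φ → ∃ φ', m'.q j = some φ' ∧ ∀ x, Sat m'.p x → φ' x = φ x := Iff.rfl

instance : OrderTop (MC K W) where
  top := ⟨∅, fun _ => none, ⟨fun _ => false, by simp [Sat]⟩, by simp, by simp⟩
  le_top m := ⟨Finset.empty_subset _, fun _ _ h => by cases h⟩

def QExt (m m' : MC K W) : Prop := ∀ j φ, m.q j = some φ → m'.q j = some φ

theorem QExt.refl (m : MC K W) : QExt m m := fun _ _ h => h

theorem QExt.trans {a b c : MC K W} (h : QExt a b) (h' : QExt b c) : QExt a c :=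
  fun j φ hj => h' j φ (h j φ hj)

theorem QExt.le {m m' : MC K W} (h : QExt m m') (hp : m.p ⊆ m'.p) : m' ≤ m :=
  ⟨hp, fun j φ hj => ⟨φ, h j φ hj, fun _ _ => rfl⟩⟩

theorem MC.ne_none_of_le {m m' : MC K W} (h : m' ≤ m) {j : K × W} (hj : m.q j ≠ none) :
    m'.q j ≠ none := by
  obtain ⟨φ, hφ⟩ := Option.ne_none_iff_exists'.1 hj
  obtain ⟨φ', h1, -⟩ := h.2 j φ hφ
  simp [h1]

namespace MC

/-- Restriction below `β`. -/
noncomputable def res (β : K) (m : MC K W) : MC K W where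
  p := m.p.filter fun a => a.1.1 < β
  q j := if j.1 < β then m.q j else none
  cons := let ⟨x, hx⟩ := m.cons; ⟨x, hx.mono (Finset.filter_subset _ _)⟩
  cnt := m.cnt.mono fun j hj => by
    simp only [mem_ofPred_eq] at hj ⊢
    split_ifs at hj
    · exact hj
    · exact (hj rfl).elim
  ok j φ h := by
    split_ifs at h
    exact m.ok j φ h

theorem res_q_some {β : K} {m : MC K W} {j : K × W} {φ : Pt K → K} :
    (m.res β).q j = some φ ↔ j.1 < β ∧ m.q j = some φ := by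
  simp only [res]
  split_ifs with h
  · simp [h]
  · simp [h]

theorem mem_res_p {β : K} {m : MC K W} {a : (K × ℕ) × Bool} :
    a ∈ (m.res β).p ↔ a ∈ m.p ∧ a.1.1 < β := Finset.mem_filter

def Bd (β : K) (m : MC K W) : Prop := (∀ a ∈ m.p, a.1.1 < β) ∧ ∀ j, m.q j ≠ none → j.1 < β

theorem Bd.mono {β β' : K} {m : MC K W} (h : m.Bd β) (hβ : β ≤ β') : m.Bd β' :=
  ⟨fun a ha => (h.1 a ha).trans_le hβ, fun j hj => (h.2 j hj).trans_le hβ⟩

theorem bd_res (β : K) (m : MC K W) : (m.res β).Bd β := by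
  refine ⟨fun a ha => (mem_res_p.1 ha).2, fun j hj => ?_⟩
  obtain ⟨φ, hφ⟩ := Option.ne_none_iff_exists'.1 hj
  exact (res_q_some.1 hφ).1

theorem res_res {β β' : K} (h : β ≤ β') (m : MC K W) : (m.res β').res β = m.res β := by
  ext1
  · ext a
    simp only [mem_res_p]
    exact ⟨fun h' => ⟨h'.1.1, h'.2⟩, fun h' => ⟨⟨h'.1, h'.2.trans_le h⟩, h'.2⟩⟩
  · funext j
    simp only [res]
    split_ifs with h1 h2
    · rfl
    · exact (h2 (h1.trans_le h)).elim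
    · rfl

theorem Bd.res_eq {β : K} {m : MC K W} (h : m.Bd β) : m.res β = m := by
  ext1
  · ext a
    simp only [mem_res_p]
    exact ⟨fun h' => h'.1, fun h' => ⟨h', h.1 a h'⟩⟩
  · funext j
    simp only [res]
    split_ifs with h1
    · rfl
    · by_contra h2
      exact h1 (h.2 j fun h3 => h2 h3.symm)

theorem le_res (β : K) (m : MC K W) : m ≤ m.res β :=
  QExt.le (fun _ _ h => (res_q_some.1 h).2) (Finset.filter_subset _ _)

/-- A point of the restriction agrees below `β` with a point of the condition. -/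
theorem exists_sat {β : K} {m : MC K W} {x : Pt K} (hx : Sat (m.res β).p x) :
    ∃ y, Sat m.p y ∧ ∀ a : K × ℕ, a.1 < β → y a = x a := by
  obtain ⟨z, hz⟩ := m.cons
  refine ⟨fun a => if a.1 < β then x a else z a, fun a ha => ?_, fun a ha => if_pos ha⟩
  dsimp only
  split_ifs with h
  · exact hx a (mem_res_p.2 ⟨ha, h⟩)
  · exact hz a ha

theorem res_mono (β : K) {m m' : MC K W} (h : m' ≤ m) : m'.res β ≤ m.res β := by
  refine ⟨fun a ha => mem_res_p.2 ⟨h.1 (mem_res_p.1 ha).1, (mem_res_p.1 ha).2⟩, fun j φ hj => ?_⟩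
  obtain ⟨h1, h2⟩ := res_q_some.1 hj
  obtain ⟨φ', h3, h4⟩ := h.2 j φ h2
  refine ⟨φ', res_q_some.2 ⟨h1, h3⟩, fun x hx => ?_⟩
  obtain ⟨y, hy, hxy⟩ := exists_sat hx
  rw [← (m'.ok j φ' h3).eq fun a ha => hxy a (ha.trans h1),
    ← (m.ok j φ h2).eq fun a ha => hxy a (ha.trans h1), h4 y hy]

theorem Bd.res_le {β : K} {m m' : MC K W} (hb : m.Bd β) (h : m' ≤ m) : m'.res β ≤ m := by
  have := res_mono β h
  rwa [hb.res_eq] at this

/-- Changing the finite part. -/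
def setP (m : MC K W) (p : FS K) (h : ∃ x, Sat p x) : MC K W := ⟨p, m.q, h, m.cnt, m.ok⟩

theorem le_setP {m m' : MC K W} (h : m' ≤ m) {p : FS K} (hp : ∃ x, Sat p x) (h' : p ⊆ m'.p) :
    m' ≤ m.setP p hp := ⟨h', h.2⟩

theorem setP_le {m : MC K W} {p : FS K} (hp : ∃ x, Sat p x) (h' : m.p ⊆ p) :
    m.setP p hp ≤ m := QExt.le (QExt.refl _) h'

/-- Purification. -/
def pur (m m' : MC K W) : MC K W where
  p := m'.p
  q j := (m.q j).or (m'.q j)
  cons := m'.cons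
  cnt := (m.cnt.union m'.cnt).mono fun j hj => by
    simp only [mem_ofPred_eq, mem_union] at hj ⊢
    by_contra hc
    push Not at hc
    simp [hc.1, hc.2] at hj
  ok j φ h := by
    cases h1 : m.q j with
    | none => exact m'.ok j φ (by simpa [h1] using h)
    | some ψ =>
      have : ψ = φ := by simpa [h1] using h
      exact m.ok j φ (this ▸ h1)

theorem qext_pur (m m' : MC K W) : QExt m (m.pur m') := fun j φ h => by simp [pur, h]

theorem pur_le {m m' : MC K W} (h : m' ≤ m) : m.pur m' ≤ m' := by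
  refine ⟨Finset.Subset.refl _, fun j φ hj => ?_⟩
  cases h1 : m.q j with
  | none => exact ⟨φ, by simp [pur, h1, hj], fun _ _ => rfl⟩
  | some ψ =>
    obtain ⟨φ', h2, h3⟩ := h.2 j ψ h1
    rw [hj] at h2
    cases h2
    exact ⟨ψ, by simp [pur, h1], fun x hx => (h3 x hx).symm⟩

theorem le_pur {m m' : MC K W} (h : m' ≤ m) : m' ≤ m.pur m' := by
  refine ⟨Finset.Subset.refl _, fun j φ hj => ?_⟩
  cases h1 : m.q j with
  | none => exact ⟨φ, by simpa [pur, h1] using hj, fun _ _ => rfl⟩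
  | some ψ =>
    have : ψ = φ := by simpa [pur, h1] using hj
    exact this ▸ h.2 j ψ h1

theorem pur_ne_none {m m' : MC K W} (h : m' ≤ m) {j : K × W} :
    (m.pur m').q j ≠ none ↔ m'.q j ≠ none :=
  ⟨fun h' => ne_none_of_le (le_pur h) h', fun h' => ne_none_of_le (pur_le h) h'⟩

theorem Bd.pur {β : K} {m m' : MC K W} (h : m' ≤ m) (hb : m'.Bd β) : (m.pur m').Bd β :=
  ⟨hb.1, fun j hj => hb.2 j ((pur_ne_none h).1 hj)⟩

theorem cons_union {θ : K} {m m' : MC K W} (hb : m'.Bd θ) (h : (m.res θ).p ⊆ m'.p) :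
    ∃ x, Sat (m'.p ∪ m.p) x := by
  obtain ⟨x, hx⟩ := m'.cons
  obtain ⟨z, hz⟩ := m.cons
  refine ⟨fun a => if a.1 < θ then x a else z a, sat_union.2 ⟨fun a ha => ?_, fun a ha => ?_⟩⟩
  · dsimp only
    rw [if_pos (hb.1 a ha)]
    exact hx a ha
  · dsimp only
    split_ifs with h1
    · exact hx a (h (mem_res_p.2 ⟨ha, h1⟩))
    · exact hz a ha

/-- Amalgamation of a condition below `θ` with the upper part of a condition. -/
noncomputable def amal (θ : K) (m' m : MC K W) (h : ∃ x, Sat (m'.p ∪ m.p) x) : MC K W where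
  p := m'.p ∪ m.p
  q j := if j.1 < θ then m'.q j else m.q j
  cons := h
  cnt := (m'.cnt.union m.cnt).mono fun j hj => by
    simp only [mem_ofPred_eq, mem_union] at hj ⊢
    split_ifs at hj
    exacts [Or.inl hj, Or.inr hj]
  ok j φ h := by
    split_ifs at h
    exacts [m'.ok j φ h, m.ok j φ h]

theorem qext_amal {θ : K} {m m' : MC K W} (hb : m'.Bd θ) (h : ∃ x, Sat (m'.p ∪ m.p) x) :
    QExt m' (amal θ m' m h) := fun j φ hj => by
  simp only [amal]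
  rw [if_pos (hb.2 j (by simp [hj])), hj]

theorem amal_le_left {θ : K} {m m' : MC K W} (hb : m'.Bd θ) (h : ∃ x, Sat (m'.p ∪ m.p) x) :
    amal θ m' m h ≤ m' := (qext_amal hb h).le Finset.subset_union_left

theorem amal_le_right {θ : K} {m m' : MC K W} (hm : m' ≤ m.res θ)
    (h : ∃ x, Sat (m'.p ∪ m.p) x) : amal θ m' m h ≤ m := by
  refine ⟨Finset.subset_union_right, fun j φ hj => ?_⟩
  by_cases h1 : j.1 < θ
  · obtain ⟨φ', h2, h3⟩ := hm.2 j φ (res_q_some.2 ⟨h1, hj⟩)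
    exact ⟨φ', by simp [amal, h1, h2], fun x hx => h3 x (sat_union.1 hx).1⟩
  · exact ⟨φ, by simp [amal, h1, hj], fun _ _ => rfl⟩

theorem res_amal {θ : K} {m m' : MC K W} (hb : m'.Bd θ) (hm : (m.res θ).p ⊆ m'.p)
    (h : ∃ x, Sat (m'.p ∪ m.p) x) : (amal θ m' m h).res θ = m' := by
  ext1
  · ext a
    simp only [mem_res_p, amal, Finset.mem_union]
    refine ⟨fun h' => h'.1.elim id fun h1 => hm (mem_res_p.2 ⟨h1, h'.2⟩),
      fun h' => ⟨Or.inl h', hb.1 a h'⟩⟩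
  · funext j
    simp only [res, amal]
    split_ifs with h1
    · rfl
    · by_contra h2
      exact h1 (hb.2 j fun h3 => h2 h3.symm)

theorem bd_amal {θ β : K} {m m' : MC K W} (hb : m'.Bd β) (hb' : m.Bd β)
    (h : ∃ x, Sat (m'.p ∪ m.p) x) : (amal θ m' m h).Bd β := by
  refine ⟨fun a ha => (Finset.mem_union.1 ha).elim (hb.1 a) (hb'.1 a), fun j hj => ?_⟩
  simp only [amal] at hj
  split_ifs at hj
  exacts [hb.2 j hj, hb'.2 j hj]

end MC

/-! ### Terms -/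

abbrev MB (K W : Type) [LinearOrder K] := MC K W × Co

def VDep (β : K) (a : Set (MB K W)) : Prop := ∀ m c, (m, c) ∈ a ↔ (m.res β, c) ∈ a

theorem VDep.mono {β β' : K} {a : Set (MB K W)} (h : VDep β a) (hβ : β ≤ β') : VDep β' a :=
  fun m c => by rw [h m c, h (m.res β') c, MC.res_res hβ]

theorem vdep_empty (β : K) : VDep β (∅ : Set (MB K W)) := fun _ _ => Iff.rfl

theorem vdep_univ (β : K) : VDep β (univ : Set (MB K W)) := fun _ _ => Iff.rfl

@[ext] structure Tm (K W : Type) [LinearOrder K] where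
  len : K
  val : K → Set (MB K W)
  junk : ∀ ξ, len ≤ ξ → val ξ = ∅
  bd : ∃ β, ∀ ξ, VDep β (val ξ)

def TExt (e e' : Tm K W) : Prop := e.len ≤ e'.len ∧ ∀ ξ < e.len, e'.val ξ = e.val ξ

theorem TExt.refl (e : Tm K W) : TExt e e := ⟨le_rfl, fun _ _ => rfl⟩

theorem TExt.trans {a b c : Tm K W} (h : TExt a b) (h' : TExt b c) : TExt a c :=
  ⟨h.1.trans h'.1, fun ξ hξ => (h'.2 ξ (hξ.trans_le h.1)).trans (h.2 ξ hξ)⟩

namespace Tm

def Bd (β : K) (e : Tm K W) : Prop := e.len ≤ β ∧ ∀ ξ, VDep β (e.val ξ)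

theorem Bd.mono {β β' : K} {e : Tm K W} (h : e.Bd β) (hβ : β ≤ β') : e.Bd β' :=
  ⟨h.1.trans hβ, fun ξ => (h.2 ξ).mono hβ⟩

theorem exists_bd (e : Tm K W) : ∃ β, e.Bd β :=
  let ⟨β, h⟩ := e.bd
  ⟨max β e.len, le_max_right _ _, fun ξ => (h ξ).mono (le_max_left _ _)⟩

/-- A term from a length and values. -/
noncomputable def mk' (l : K) (f : K → Set (MB K W)) (h : ∃ β, ∀ ξ, VDep β (f ξ)) : Tm K W where
  len := l
  val ξ := if ξ < l then f ξ else ∅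
  junk ξ hξ := if_neg (not_lt.2 hξ)
  bd := let ⟨β, h⟩ := h
    ⟨β, fun ξ => by
      split_ifs
      exacts [h ξ, vdep_empty β]⟩

theorem mk'_val {l : K} {f : K → Set (MB K W)} {h : ∃ β, ∀ ξ, VDep β (f ξ)} {ξ : K}
    (hξ : ξ < l) : (mk' l f h).val ξ = f ξ := if_pos hξ

theorem bd_mk' {l β : K} {f : K → Set (MB K W)} {h : ∃ β, ∀ ξ, VDep β (f ξ)} (hl : l ≤ β)
    (hf : ∀ ξ, VDep β (f ξ)) : (mk' l f h).Bd β := by
  refine ⟨hl, fun ξ => ?_⟩
  simp only [mk']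
  split_ifs
  exacts [hf ξ, vdep_empty β]

/-- The empty values. -/
def nil (l : K) : Tm K W := ⟨l, fun _ => ∅, fun _ _ => rfl, l, fun _ => vdep_empty l⟩

theorem bd_nil (l : K) : (nil l : Tm K W).Bd l := ⟨le_rfl, fun _ => vdep_empty l⟩

/-- Concatenation. -/
noncomputable def cat (e e' : Tm K W) : Tm K W where
  len := max e.len e'.len
  val ξ := if ξ < e.len then e.val ξ else e'.val ξ
  junk ξ hξ := by
    rw [if_neg (not_lt.2 ((le_max_left _ _).trans hξ))]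
    exact e'.junk ξ ((le_max_right _ _).trans hξ)
  bd := by
    obtain ⟨β, h⟩ := e.bd
    obtain ⟨β', h'⟩ := e'.bd
    refine ⟨max β β', fun ξ => ?_⟩
    split_ifs
    exacts [(h ξ).mono (le_max_left _ _), (h' ξ).mono (le_max_right _ _)]

theorem cat_len {e e' : Tm K W} (h : e.len ≤ e'.len) : (e.cat e').len = e'.len := max_eq_right h

theorem cat_lt {e e' : Tm K W} {ξ : K} (h : ξ < e.len) : (e.cat e').val ξ = e.val ξ := if_pos h

theorem cat_ge {e e' : Tm K W} {ξ : K} (h : ¬ ξ < e.len) : (e.cat e').val ξ = e'.val ξ :=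
  if_neg h

theorem text_cat (e e' : Tm K W) : TExt e (e.cat e') := ⟨le_max_left _ _, fun _ h => cat_lt h⟩

theorem Bd.cat {β : K} {e e' : Tm K W} (h : e.Bd β) (h' : e'.Bd β) : (e.cat e').Bd β := by
  refine ⟨max_le h.1 h'.1, fun ξ => ?_⟩
  simp only [Tm.cat]
  split_ifs
  exacts [h.2 ξ, h'.2 ξ]

/-- Unions of chains. -/
theorem exists_union {ι : Type} (f : ι → Tm K W)
    (hf : ∀ i j, TExt (f i) (f j) ∨ TExt (f j) (f i)) {l β : K} (hl : ∀ i, (f i).len ≤ l)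
    (hβ : ∀ i, (f i).Bd β) (hlβ : l ≤ β) :
    ∃ e : Tm K W, e.len = l ∧ e.Bd β ∧ ∀ i, TExt (f i) e := by
  have hd : ∀ ξ, VDep β (⋃ i, (f i).val ξ) := fun ξ m c => by
    simp only [mem_iUnion]
    exact exists_congr fun i => (hβ i).2 ξ m c
  refine ⟨⟨l, fun ξ => ⋃ i, (f i).val ξ, fun ξ hξ => ?_, β, hd⟩, rfl, ⟨hlβ, hd⟩,
    fun i => ⟨hl i, fun ξ hξ => ?_⟩⟩
  · simp only [iUnion_eq_empty]
    exact fun i => (f i).junk ξ ((hl i).trans hξ)
  · refine Subset.antisymm (iUnion_subset fun j => ?_) (subset_iUnion (fun j => (f j).val ξ) i)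
    rcases hf i j with h | h
    · rw [h.2 ξ hξ]
    · by_cases h1 : ξ < (f j).len
      · rw [h.2 ξ h1]
      · rw [(f j).junk ξ (not_lt.1 h1)]
        exact empty_subset _

end Tm

/-! ### The whole forcing -/

@[ext] structure Cond (K W : Type) [LinearOrder K] where
  m : MC K W
  e : Tm K W

instance : Preorder (Cond K W) where
  le w' w := w'.m ≤ w.m ∧ w.e.len ≤ w'.e.len ∧ LF (w'.m, ⊤) w.e.val w'.e.val (Iio w.e.len)
  le_refl w := ⟨le_rfl, le_rfl, LF.of_eq fun _ _ => rfl⟩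
  le_trans a b c h h' := ⟨h.1.trans h'.1, h'.2.1.trans h.2.1,
    (h'.2.2.mono (Prod.mk_le_mk.2 ⟨h.1, le_rfl⟩)).trans
      (h.2.2.subset (Iio_subset_Iio h'.2.1))⟩

theorem Cond.le_def {w' w : Cond K W} : w' ≤ w ↔
    w'.m ≤ w.m ∧ w.e.len ≤ w'.e.len ∧ LF (w'.m, ⊤) w.e.val w'.e.val (Iio w.e.len) := Iff.rfl

noncomputable instance [OrderBot K] : OrderTop (Cond K W) where
  top := ⟨⊤, Tm.nil ⊥⟩
  le_top _ := ⟨le_top, bot_le, LF.of_eq fun _ h => (not_lt_bot h).elim⟩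

namespace Cond

theorem le_of_text {w w' : Cond K W} (h : w'.m ≤ w.m) (h' : TExt w.e w'.e) : w' ≤ w :=
  ⟨h, h'.1, LF.of_eq fun ξ hξ => (h'.2 ξ hξ).symm⟩

def Bd (β : K) (w : Cond K W) : Prop := w.m.Bd β ∧ w.e.Bd β

theorem Bd.mono {β β' : K} {w : Cond K W} (h : w.Bd β) (hβ : β ≤ β') : w.Bd β' :=
  ⟨h.1.mono hβ, h.2.mono hβ⟩

/-- Literal extension of the pure parts. -/
def Ext (w w' : Cond K W) : Prop := QExt w.m w'.m ∧ TExt w.e w'.e

theorem Ext.refl (w : Cond K W) : Ext w w := ⟨QExt.refl _, TExt.refl _⟩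

theorem Ext.trans {a b c : Cond K W} (h : Ext a b) (h' : Ext b c) : Ext a c :=
  ⟨h.1.trans h'.1, h.2.trans h'.2⟩

theorem Ext.le {w w' : Cond K W} (h : Ext w w') (hp : w.m.p ⊆ w'.m.p) : w' ≤ w :=
  le_of_text (h.1.le hp) h.2

def setP (w : Cond K W) (p : FS K) (h : ∃ x, Sat p x) : Cond K W := ⟨w.m.setP p h, w.e⟩

theorem le_setP {w w' : Cond K W} (h : w' ≤ w) {p : FS K} (hp : ∃ x, Sat p x)
    (h' : p ⊆ w'.m.p) : w' ≤ w.setP p hp := ⟨MC.le_setP h.1 hp h', h.2⟩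

theorem setP_le {w : Cond K W} {p : FS K} (hp : ∃ x, Sat p x) (h' : w.m.p ⊆ p) :
    w.setP p hp ≤ w := le_of_text (MC.setP_le hp h') (TExt.refl _)

theorem cat_le {w w' : Cond K W} (h : w' ≤ w) {m : MC K W} (hm : m ≤ w'.m) :
    (⟨m, w.e.cat w'.e⟩ : Cond K W) ≤ w' := by
  refine ⟨hm, le_max_right _ _, (h.2.2.mono (Prod.mk_le_mk.2 ⟨hm, le_rfl⟩)).imp ?_⟩
  intro t _ ξ _ h1
  by_cases h2 : ξ < w.e.len
  · rw [Tm.cat_lt h2]
    exact (h1 h2).symm
  · rw [Tm.cat_ge h2]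
    exact Ag.refl _ _

theorem le_cat {w w' : Cond K W} (h : w' ≤ w) {m : MC K W} (hm : w'.m ≤ m) :
    w' ≤ (⟨m, w.e.cat w'.e⟩ : Cond K W) := by
  refine ⟨hm, (Tm.cat_len h.2.1).le, h.2.2.imp ?_⟩
  intro t _ ξ _ h1
  by_cases h2 : ξ < w.e.len
  · rw [Tm.cat_lt h2]
    exact h1 h2
  · rw [Tm.cat_ge h2]
    exact Ag.refl _ _

/-- Purification. -/
theorem exists_pur {w w' : Cond K W} (h : w' ≤ w) :
    ∃ w'', Ext w w'' ∧ w'' ≤ w' ∧ w''.m.p = w'.m.p ∧ w''.e.len = w'.e.len :=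
  ⟨⟨w.m.pur w'.m, w.e.cat w'.e⟩, ⟨MC.qext_pur _ _, Tm.text_cat _ _⟩, cat_le h (MC.pur_le h.1),
    rfl, Tm.cat_len h.2.1⟩

end Cond

end Pool.Agent.Lib.MP_6993b6_lc
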