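import Mathlib
import Pool.Agent.Lib.MP_6993b6_lc.Poset

/-!
Chains, fusion, and the preservation of `ω₁` and of `κ`.
-/

namespace Pool.Agent.Lib.MP_6993b6_lc

open Set Classical

variable {K W : Type} [LinearOrder K]

/-- Families indexed by `ι` are bounded in `L`. -/
def Sm (L : Set K) (ι : Type) : Prop :=
  ∀ f : ι → K, (∀ i, f i ∈ L) → ∃ b ∈ L, ∀ i, f i < b

theorem Sm.prod {L : Set K} {ι ι' : Type} (h : Sm L ι) (h' : Sm L ι') : Sm L (ι × ι') := by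
  intro f hf
  choose g g1 g2 using fun i => h' (fun j => f (i, j)) fun j => hf (i, j)
  obtain ⟨b, b1, b2⟩ := h g g1
  exact ⟨b, b1, fun x => (g2 x.1 x.2).trans (b2 x.1)⟩

theorem Sm.inj {L : Set K} (hL : L.Nonempty) {ι ι' : Type} (h : Sm L ι) (g : ι' → ι)
    (hg : Function.Injective g) : Sm L ι' := by
  intro f hf
  obtain ⟨d, hd⟩ := hL
  obtain ⟨b, b1, b2⟩ := h (Function.extend g f fun _ => d) (by
    intro i
    by_cases hi : ∃ j, g j = i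
    · obtain ⟨j, rfl⟩ := hi
      rw [hg.extend_apply]
      exact hf j
    · rw [Function.extend_apply' _ _ _ hi]
      exact hd)
  refine ⟨b, b1, fun j => ?_⟩
  have := b2 (g j)
  rwa [hg.extend_apply] at this

theorem Sm.cnt {L : Set K} (hL : L.Nonempty) (h : Sm L ℕ) (ι : Type) [Countable ι] : Sm L ι :=
  let ⟨g, hg⟩ := exists_injective_nat ι
  h.inj hL g hg

theorem Sm.set {L : Set K} (hL : L.Nonempty) (h : Sm L ℕ) {s : Set K} (hs : s.Countable)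
    (hsL : s ⊆ L) : ∃ b ∈ L, ∀ a ∈ s, a < b := by
  have := hs.to_subtype
  obtain ⟨b, b1, b2⟩ := h.cnt hL s Subtype.val fun i => hsL i.2
  exact ⟨b, b1, fun a ha => b2 ⟨a, ha⟩⟩

/-- The properties of an initial segment that make it look like an inaccessible cardinal. -/
structure Good (W : Type) (L : Set K) : Prop where
  lower : ∀ a b, b ∈ L → a ≤ b → a ∈ L
  ne : L.Nonempty
  smN : Sm L ℕ
  smW : Sm L W
  smM : ∀ β ∈ L, Sm L {m : MC K W // m.Bd β}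

theorem Good.max {L : Set K} {a b : K} (ha : a ∈ L) (hb : b ∈ L) : max a b ∈ L := by
  rcases max_choice a b with h | h <;> rwa [h]

theorem Good.succ {L : Set K} (hL : Good W L) {a : K} (ha : a ∈ L) : ∃ b ∈ L, a < b :=
  let ⟨b, b1, b2⟩ := hL.smN (fun _ => a) fun _ => ha
  ⟨b, b1, b2 0⟩

/-- Countable subsets of `W` are bounded. -/
def Cof (W : Type) [LT W] : Prop := ∀ s : Set W, s.Countable → ∃ b, ∀ a ∈ s, a < b

def MC.supp (m : MC K W) : Set K :=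
  ((fun a : (K × ℕ) × Bool => a.1.1) '' (m.p : Set _)) ∪ (Prod.fst '' {j | m.q j ≠ none})

theorem MC.supp_cnt (m : MC K W) : m.supp.Countable :=
  (m.p.countable_toSet.image _).union (m.cnt.image _)

theorem MC.bd_iff {m : MC K W} {β : K} : m.Bd β ↔ ∀ a ∈ m.supp, a < β := by
  constructor
  · rintro h _ (⟨a, ha, rfl⟩ | ⟨j, hj, rfl⟩)
    exacts [h.1 a ha, h.2 j hj]
  · exact fun h => ⟨fun a ha => h _ (Or.inl ⟨a, ha, rfl⟩), fun j hj => h _ (Or.inr ⟨j, hj, rfl⟩)⟩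

def Cond.In (L : Set K) (w : Cond K W) : Prop := ∃ β ∈ L, w.Bd β

theorem Cond.in_univ (hN : Sm (univ : Set K) ℕ) (w : Cond K W) : w.In univ := by
  obtain ⟨β, h⟩ := w.e.exists_bd
  obtain ⟨b, -, hb⟩ := hN.set ⟨β, mem_univ _⟩ w.m.supp_cnt (subset_univ _)
  exact ⟨max β b, trivial, (MC.bd_iff.2 hb).mono (le_max_right _ _), h.mono (le_max_left _ _)⟩

theorem qext_chain {f : ℕ → MC K W} (h : ∀ n, QExt (f n) (f (n + 1))) {n k : ℕ} (hk : n ≤ k) :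
    QExt (f n) (f k) := by
  induction hk with
  | refl => exact QExt.refl _
  | step _ ih => exact ih.trans (h _)

theorem text_chain {f : ℕ → Tm K W} (h : ∀ n, TExt (f n) (f (n + 1))) {n k : ℕ} (hk : n ≤ k) :
    TExt (f n) (f k) := by
  induction hk with
  | refl => exact TExt.refl _
  | step _ ih => exact ih.trans (h _)

theorem MC.exists_union (f : ℕ → MC K W) (h : ∀ n, QExt (f n) (f (n + 1))) :
    ∃ m : MC K W, m.p = (f 0).p ∧ (∀ n, QExt (f n) m) ∧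
      ∀ j φ, m.q j = some φ → ∃ n, (f n).q j = some φ := by
  have key : ∀ j φ, (if h : ∃ φ n, (f n).q j = some φ then some h.choose else none) = some φ →
      ∃ n, (f n).q j = some φ := by
    intro j φ hj
    split_ifs at hj with h1
    cases hj
    exact h1.choose_spec
  refine ⟨⟨(f 0).p, fun j => if h : ∃ φ n, (f n).q j = some φ then some h.choose else none,
    (f 0).cons, (countable_iUnion fun n => (f n).cnt).mono fun j hj => ?_, fun j φ hj => ?_⟩,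
    rfl, fun n j φ hj => ?_, key⟩
  · obtain ⟨φ, hφ⟩ := Option.ne_none_iff_exists'.1 hj
    obtain ⟨n, hn⟩ := key j φ hφ
    exact mem_iUnion.2 ⟨n, by simp [hn]⟩
  · obtain ⟨n, hn⟩ := key j φ hj
    exact (f n).ok j φ hn
  · have h1 : ∃ φ n, (f n).q j = some φ := ⟨φ, n, hj⟩
    obtain ⟨k, hk⟩ := h1.choose_spec
    have h2 := qext_chain h (le_max_left n k) j φ hj
    rw [qext_chain h (le_max_right n k) j _ hk] at h2
    simp only [dif_pos h1]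
    exact h2

theorem Cond.exists_union (hN : Sm (univ : Set K) ℕ) (f : ℕ → Cond K W)
    (h : ∀ n, (f n).Ext (f (n + 1))) : ∃ w : Cond K W, w.m.p = (f 0).m.p ∧ ∀ n, (f n).Ext w := by
  obtain ⟨m, m1, m2, -⟩ := MC.exists_union (fun n => (f n).m) fun n => (h n).1
  choose β hβ using fun n => (f n).e.exists_bd
  obtain ⟨b, -, hb⟩ := hN β fun _ => trivial
  obtain ⟨e, -, -, he⟩ := Tm.exists_union (fun n => (f n).e) (fun i j => by
    rcases le_total i j with h1 | h1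
    exacts [Or.inl (text_chain (fun n => (h n).2) h1), Or.inr (text_chain (fun n => (h n).2) h1)])
    (fun n => (hβ n).1.trans (hb n).le) (fun n => (hβ n).mono (hb n).le) le_rfl
  exact ⟨⟨m, e⟩, m1, fun n => ⟨m2 n, he n⟩⟩

def Sup (Ξ : Set (K × ℕ)) (P : FS K) : Prop := ∀ a ∈ P, a.1 ∈ Ξ

omit [LinearOrder K] in
theorem Sup.mono {Ξ Ξ' : Set (K × ℕ)} {P : FS K} (h : Sup Ξ P) (h' : Ξ ⊆ Ξ') : Sup Ξ' P :=
  fun a ha => h' (h a ha)

omit [LinearOrder K] in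
theorem sup_cnt {Ξ : Set (K × ℕ)} (h : Ξ.Countable) : {P : FS K | Sup Ξ P}.Countable := by
  have h1 : {a : (K × ℕ) × Bool | a.1 ∈ Ξ}.Countable :=
    (h.prod (countable_univ (α := Bool))).mono fun a ha => mem_prod.2 ⟨ha, mem_univ _⟩
  refine ((countable_ofPred_finite_subset h1).preimage_of_injOn (f := fun P : FS K => (P : Set _))
    fun _ _ _ _ e => Finset.coe_injective e).mono fun P hP => ?_
  exact And.intro P.finite_toSet hP

omit [LinearOrder K] in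
theorem sup_self (P : FS K) : ∃ Ξ : Set (K × ℕ), Ξ.Countable ∧ Sup Ξ P :=
  ⟨Prod.fst '' (P : Set _), P.countable_toSet.image _, fun a ha => ⟨a, ha, rfl⟩⟩

omit [LinearOrder K] in
theorem sup_iUnion {Ξ : ℕ → Set (K × ℕ)} (h : Monotone Ξ) {P : FS K} (hP : Sup (⋃ n, Ξ n) P) :
    ∃ n, Sup (Ξ n) P := by
  choose g hg using fun a : P => mem_iUnion.1 (hP a.1 a.2)
  exact ⟨Finset.univ.sup g, fun a ha =>
    h (Finset.le_sup (f := g) (Finset.mem_univ ⟨a, ha⟩)) (hg ⟨a, ha⟩)⟩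

/-- A finite condition supported in `Ξ` that extends the trace of `p` is compatible with `p`. -/
theorem cons_trace {Ξ : Set (K × ℕ)} {p p' : FS K} (hp : ∃ x, Sat p x) (hp' : ∃ x, Sat p' x)
    (h : Sup Ξ p') (h' : p.filter (fun a => a.1 ∈ Ξ) ⊆ p') : ∃ x, Sat (p ∪ p') x := by
  obtain ⟨x, hx⟩ := hp
  obtain ⟨z, hz⟩ := hp'
  refine ⟨fun a => if a ∈ Ξ then z a else x a, sat_union.2 ⟨fun a ha => ?_, fun a ha => ?_⟩⟩
  · dsimp only
    split_ifs with h1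
    · exact hz a (h' (Finset.mem_filter.2 ⟨ha, h1⟩))
    · exact hx a ha
  · dsimp only
    rw [if_pos (h a ha)]
    exact hz a ha

omit [LinearOrder K] in
theorem sup_filter (Ξ : Set (K × ℕ)) (p : FS K) : Sup Ξ (p.filter fun a => a.1 ∈ Ξ) :=
  fun _ ha => (Finset.mem_filter.1 ha).2

/-- Fusion. -/
theorem fusion {T : Type} [Countable T] [Nonempty T] (hN : Sm (univ : Set K) ℕ) (u : Cond K W)
    (Φ : T → FS K → Cond K W → Set (K × ℕ) → Prop)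
    (step : ∀ t P v, u.Ext v → v.m.p = u.m.p →
      ∃ v' Ξ, v.Ext v' ∧ v'.m.p = u.m.p ∧ Ξ.Countable ∧ Φ t P v' Ξ)
    (mono : ∀ t P v v' Ξ Ξ', Φ t P v Ξ → v' ≤ v → v.Ext v' → Ξ ⊆ Ξ' → Φ t P v' Ξ') :
    ∃ v Ξ, u.Ext v ∧ v.m.p = u.m.p ∧ Ξ.Countable ∧ Sup Ξ u.m.p ∧
      ∀ t P, Sup Ξ P → Φ t P v Ξ := by
  obtain ⟨Ξ0, h1, h2⟩ := sup_self u.m.p
  obtain ⟨σ, τ, s0, s1, s2, s3⟩ := book (S := Cond K W × Set (K × ℕ)) (T := T × FS K)
    (fun s t s' => s.1.Ext s'.1 ∧ s.2 ⊆ s'.2 ∧ Φ t.1 t.2 s'.1 s'.2)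
    (fun s => univ ×ˢ {P | Sup s.2 P})
    (fun s => u.Ext s.1 ∧ s.1.m.p = u.m.p ∧ s.2.Countable) (u, Ξ0) ⟨Cond.Ext.refl _, rfl, h1⟩
    (fun s hs => countable_univ.prod (sup_cnt hs.2.2)) (by
      rintro s t ⟨a1, a2, a3⟩
      obtain ⟨v', Ξ, b1, b2, b3, b4⟩ := step t.1 t.2 s.1 a1 a2
      exact ⟨(v', s.2 ∪ Ξ), ⟨a1.trans b1, b2, a3.union b3⟩, b1, subset_union_left,
        mono _ _ _ _ _ _ b4 le_rfl (Cond.Ext.refl _) subset_union_right⟩)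
  obtain ⟨v, v1, v2⟩ := Cond.exists_union hN (fun n => (σ n).1) fun n => (s2 n).1
  have hm : Monotone fun n => (σ n).2 := monotone_nat_of_le_succ fun n => (s2 n).2.1
  have v3 : v.m.p = u.m.p := v1.trans (s1 0).2.1
  refine ⟨v, ⋃ n, (σ n).2, (s1 0).1.trans (v2 0), v3, countable_iUnion fun n => (s1 n).2.2,
    h2.mono (by simpa [s0] using subset_iUnion (fun n => (σ n).2) 0), fun t P hP => ?_⟩
  obtain ⟨n, hn⟩ := sup_iUnion hm hP
  obtain ⟨k, -, hk⟩ := s3 n (t, P) ⟨trivial, hn⟩ 0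
  have := (s2 k).2.2
  rw [hk] at this
  exact mono _ _ _ _ _ _ this ((v2 (k + 1)).le (by rw [v3, (s1 (k + 1)).2.1])) (v2 (k + 1))
    (subset_iUnion (fun n => (σ n).2) (k + 1))

/-- An extension is below a literal extension with the old finite part. -/
theorem Cond.exists_lit {v w : Cond K W} (h : w ≤ v) :
    ∃ v', v.Ext v' ∧ v'.m.p = v.m.p ∧ v'.e.len = w.e.len ∧
      ∀ v'' ≤ v', w.m.p ⊆ v''.m.p → v'' ≤ w := by
  obtain ⟨w', h1, h2, h3, h4⟩ := Cond.exists_pur h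
  refine ⟨w'.setP v.m.p v.m.cons, h1, rfl, h4, fun v'' h5 h6 => le_trans ?_ h2⟩
  exact ⟨⟨h3 ▸ h6, h5.1.2⟩, h5.2⟩

/-- Preservation of `ω₁`. -/
theorem bdd_omega [LinearOrder W] (hN : Sm (univ : Set K) ℕ) (hW : Cof W) :
    Bdd (Cond K W × Co) ℕ W := by
  rintro V hV ⟨u, c0⟩
  obtain ⟨v, Ξ, v1, v2, v3, -, v4⟩ := fusion (T := Co × ℕ) hN u
    (fun t P v Ξ => (∀ v' ≤ v, P ⊆ v'.m.p → ∀ y, ¬ V (v', t.1) t.2 y) ∨
      ∃ y p', Sup Ξ p' ∧ P ⊆ p' ∧ (∃ x, Sat p' x) ∧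
        ∀ v' ≤ v, p' ⊆ v'.m.p → V (v', t.1) t.2 y) (by
      intro t P v _ h2
      by_cases h : ∀ v' ≤ v, P ⊆ v'.m.p → ∀ y, ¬ V (v', t.1) t.2 y
      · exact ⟨v, ∅, Cond.Ext.refl _, h2, countable_empty, Or.inl h⟩
      push Not at h
      obtain ⟨w, w1, w2, y, w3⟩ := h
      obtain ⟨v', a1, a2, -, a3⟩ := Cond.exists_lit w1
      obtain ⟨Ξ, b1, b2⟩ := sup_self w.m.p
      exact ⟨v', Ξ, a1, a2.trans h2, b1, Or.inr ⟨y, w.m.p, b2, w2, w.m.cons, fun v'' h h' =>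
        hV.mono _ _ _ _ w3 ⟨a3 v'' h h', le_rfl⟩⟩⟩) (by
      rintro t P v v' Ξ Ξ' (h | ⟨y, p', a1, a2, a3, a4⟩) h1 - h2
      · exact Or.inl fun w hw => h w (hw.trans h1)
      · exact Or.inr ⟨y, p', a1.mono h2, a2, a3, fun w hw => a4 w (hw.trans h1)⟩)
  obtain ⟨y0, -⟩ := hW ∅ countable_empty
  have h1 : ∀ x : (Co × ℕ) × {P : FS K | Sup Ξ P}, ∃ y,
      (∀ v' ≤ v, x.2.1 ⊆ v'.m.p → ∀ y, ¬ V (v', x.1.1) x.1.2 y) ∨
      ∃ p', Sup Ξ p' ∧ x.2.1 ⊆ p' ∧ (∃ x, Sat p' x) ∧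
        ∀ v' ≤ v, p' ⊆ v'.m.p → V (v', x.1.1) x.1.2 y := by
    intro x
    rcases v4 x.1 x.2.1 x.2.2 with h | ⟨y, h⟩
    exacts [⟨y0, Or.inl h⟩, ⟨y, Or.inr h⟩]
  choose g hg using h1
  have := (sup_cnt v3).to_subtype
  obtain ⟨b, hb⟩ := hW _ (countable_range g)
  refine ⟨(v, c0), ⟨v1.le (by rw [v2]), le_rfl⟩, b, ?_⟩
  rintro ⟨w, c⟩ ⟨r1, -⟩ n y hy
  rcases hg ((c, n), ⟨_, sup_filter Ξ w.m.p⟩) with h | ⟨p', a1, a2, a3, a4⟩
  · exact (h w r1 (Finset.filter_subset _ _) y hy).elim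
  · have hc := cons_trace w.m.cons a3 a1 a2
    have h2 : w.setP _ hc ≤ w := Cond.setP_le hc Finset.subset_union_left
    rw [hV.uniq _ _ _ _ (hV.mono _ (w.setP _ hc, c) _ _ hy ⟨h2, le_rfl⟩)
      (a4 _ (h2.trans r1) Finset.subset_union_right)]
    exact hb _ ⟨_, rfl⟩

section h2

variable {L : Set K}

/-- Bounded terms. -/
def BT (W : Type) (L : Set K) := {x : K × Tm K W // x.1 ∈ L ∧ x.2.Bd x.1}

def BT.le (a b : BT W L) : Prop := a.1.1 ≤ b.1.1 ∧ TExt a.1.2 b.1.2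

theorem BT.le_refl (a : BT W L) : a.le a := ⟨le_rfl, TExt.refl _⟩

theorem BT.le_trans {a b c : BT W L} (h : a.le b) (h' : b.le c) : a.le c :=
  ⟨h.1.trans h'.1, h.2.trans h'.2⟩

theorem BT.ub {ι : Type} [LinearOrder ι] (hι : Sm L ι) (a0 : BT W L)
    (f : ι → {a : BT W L // a0.le a}) (hf : ∀ j j', j < j' → (f j).1.le (f j').1) :
    ∃ a : {a : BT W L // a0.le a}, ∀ j, (f j).1.le a.1 := by
  obtain ⟨b, b1, b2⟩ := hι (fun j => (f j).1.1.1) fun j => (f j).1.2.1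
  let g : Option ι → BT W L := fun o => o.elim a0 fun j => (f j).1
  have hg : ∀ o, (g o).1.1 ≤ max b a0.1.1 := by
    rintro (_ | j)
    exacts [le_max_right _ _, (b2 j).le.trans (le_max_left _ _)]
  obtain ⟨e, -, e1, e2⟩ := Tm.exists_union (fun o => (g o).1.2) (by
    rintro (_ | i) (_ | j)
    · exact Or.inl (TExt.refl _)
    · exact Or.inl (f j).2.2
    · exact Or.inr (f i).2.2
    · rcases lt_trichotomy i j with h | rfl | h
      exacts [Or.inl (hf _ _ h).2, Or.inl (TExt.refl _), Or.inr (hf _ _ h).2])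
    (fun o => (g o).2.2.1.trans (hg o)) (fun o => (g o).2.2.mono (hg o)) le_rfl
  exact ⟨⟨⟨(_, e), Good.max b1 a0.2.1, e1⟩, hg none, e2 none⟩, fun j => ⟨hg (some j), e2 (some j)⟩⟩

/-- A chain of bounded terms that treats a small family of tasks. -/
theorem BT.seq (hL : L.Nonempty) {ι : Type} [LinearOrder ι] [WellFoundedLT ι] (hι : Sm L ι)
    (a0 : BT W L) (S : ι → BT W L → BT W L → Prop) (step : ∀ i a, ∃ b, a.le b ∧ S i a b) :
    ∃ f : ι → BT W L, (∀ i, a0.le (f i)) ∧ (∀ j i, j < i → (f j).le (f i)) ∧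
      (∀ i, ∃ a, a0.le a ∧ (∀ j < i, (f j).le a) ∧ a.le (f i) ∧ S i a (f i)) ∧
      ∃ a, a0.le a ∧ ∀ j, (f j).le a := by
  obtain ⟨f, f1, f2⟩ := exists_seq (I := ι) (T := {a : BT W L // a0.le a})
    (fun a b => a.1.le b.1) (fun _ _ _ => BT.le_trans) (fun i a b => S i a.1 b.1)
    (fun i f hf => BT.ub (hι.inj hL Subtype.val Subtype.val_injective) a0 f hf)
    fun i a => let ⟨b, h1, h2⟩ := step i a.1; ⟨⟨b, BT.le_trans a.2 h1⟩, h1, h2⟩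
  obtain ⟨a, ha⟩ := BT.ub hι a0 f f1
  exact ⟨fun i => (f i).1, fun i => (f i).2, f1, fun i => let ⟨a, h⟩ := f2 i; ⟨a.1, a.2, h⟩,
    a.1, a.2, ha⟩

variable [WellFoundedLT K] [LinearOrder W] [WellFoundedLT W]

/-- Preservation of `κ`, for the forcing restricted to `L`. -/
theorem bdd_L (hL : Good W L) (hW : Cof W) {I : Type} (hI : Sm L I) (V : Cond K W → I → K → Prop)
    (mono : ∀ p q i y, V p i y → q ≤ p → V q i y)
    (uniq : ∀ p, p.In L → ∀ i y y', V p i y → V p i y' → y = y')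
    (hV : ∀ p i y, V p i y → y ∈ L) (w : Cond K W) (hw : w.In L) :
    ∃ w' ≤ w, w'.In L ∧ ∃ b ∈ L, ∀ r ≤ w', r.In L → ∀ i y, V r i y → y < b := by
  let S : MC K W → I → BT W L → BT W L → Prop := fun m i a b =>
    (∃ v ≤ (⟨m, a.1.2⟩ : Cond K W), v.In L ∧ ∃ y, V v i y) →
      ∃ m2 ≤ m, m2.Bd b.1.1 ∧ ∃ y < b.1.1, V ⟨m2, b.1.2⟩ i y
  have inner : ∀ a : BT W L, ∃ b, a.le b ∧ ∀ m, m.Bd a.1.1 → ∀ i, S m i b b := by
    intro a0
    let _ : LinearOrder ({m : MC K W // m.Bd a0.1.1} × I) := linearOrderOfSTO WellOrderingRel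
    have : WellFoundedLT ({m : MC K W // m.Bd a0.1.1} × I) :=
      ⟨IsWellFounded.wf (r := WellOrderingRel)⟩
    obtain ⟨f, -, -, f3, b, b1, b2⟩ := BT.seq hL.ne ((hL.smM _ a0.2.1).prod hI) a0
      (fun t => S t.1.1 t.2) (by
        intro t a
        by_cases h : ∃ v ≤ (⟨t.1.1, a.1.2⟩ : Cond K W), v.In L ∧ ∃ y, V v t.2 y
        · obtain ⟨v, v1, ⟨β, β1, β2⟩, y, hy⟩ := h
          obtain ⟨c, c1, c2⟩ := hL.succ (Good.max (Good.max β1 a.2.1) (hV _ _ _ hy))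
          simp only [max_lt_iff] at c2
          refine ⟨⟨(c, a.1.2.cat v.e), c1, (a.2.2.mono c2.1.2.le).cat (β2.2.mono c2.1.1.le)⟩,
            ⟨c2.1.2.le, Tm.text_cat _ _⟩, fun _ => ⟨v.m, v1.1, β2.1.mono c2.1.1.le, y, c2.2, ?_⟩⟩
          exact mono _ _ _ _ hy (Cond.cat_le v1 le_rfl)
        · exact ⟨a, a.le_refl, fun h' => (h h').elim⟩)
    refine ⟨b, b1, fun m hm i => ?_⟩
    rintro ⟨v, v1, v2⟩
    obtain ⟨a, -, -, a2, a3⟩ := f3 (⟨m, hm⟩, i)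
    have h1 := b2 (⟨m, hm⟩, i)
    obtain ⟨m2, c1, c2, y, c3, c4⟩ := a3
      ⟨v, v1.trans (Cond.le_of_text le_rfl (BT.le_trans a2 h1).2), v2⟩
    exact ⟨m2, c1, c2.mono h1.1, y, c3.trans_le h1.1,
      mono _ _ _ _ c4 (Cond.le_of_text le_rfl h1.2)⟩
  obtain ⟨β, β1, β2⟩ := hw
  obtain ⟨f, f1, f2, f3, b, -, b2⟩ := BT.seq hL.ne hL.smW (⟨(β, w.e), β1, β2.2⟩ : BT W L)
    (fun _ a b => ∀ m, m.Bd a.1.1 → ∀ i, S m i b b) fun _ a => inner a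
  obtain ⟨θ, θ1, θ2, θ3⟩ := exists_lub (fun ν => (f ν).1.1) fun ν => (b2 ν).1
  have hθ : θ ∈ L := hL.lower _ _ b.2.1 θ1
  obtain ⟨e, -, e1, e2⟩ := Tm.exists_union (fun ν => (f ν).1.2) (fun i j => by
    rcases lt_trichotomy i j with h | rfl | h
    exacts [Or.inl (f2 _ _ h).2, Or.inl (TExt.refl _), Or.inr (f2 _ _ h).2])
    (fun ν => (f ν).2.2.1.trans (θ2 ν)) (fun ν => (f ν).2.2.mono (θ2 ν)) le_rfl
  obtain ⟨ν0, -⟩ := hW ∅ countable_empty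
  refine ⟨⟨w.m, e⟩, Cond.le_of_text le_rfl ((f1 ν0).2.trans (e2 ν0)),
    ⟨θ, hθ, β2.1.mono ((f1 ν0).1.trans (θ2 ν0)), e1⟩, θ, hθ, ?_⟩
  rintro r r1 ⟨γ, γ1, γ2⟩ i y hy
  choose g hg using fun a : (r.m.res θ).supp => θ3 a.1 (MC.bd_iff.1 (MC.bd_res θ r.m) a.1 a.2)
  have := (r.m.res θ).supp_cnt.to_subtype
  obtain ⟨ν, hν⟩ := hW _ (countable_range g)
  obtain ⟨a, -, a1, -, a3⟩ := f3 ν
  have r2 : ∀ m, r.m ≤ m → ∀ m', m' ≤ r.m → m' ≤ m →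
      (⟨m', r.e⟩ : Cond K W) ≤ ⟨m, (f ν).1.2⟩ := fun m _ m' h1 h2 =>
    le_trans (b := ⟨m, e⟩) ⟨h2, r1.2.1, r1.2.2.mono (Prod.mk_le_mk.2 ⟨h1, le_rfl⟩)⟩
      (Cond.le_of_text le_rfl (e2 ν))
  obtain ⟨m2, c1, c2, y', c3, c4⟩ := a3 (r.m.res θ)
    (MC.bd_iff.2 fun x hx => (hg ⟨x, hx⟩).trans_le (a1 _ (hν _ ⟨_, rfl⟩)).1) i
    ⟨r, r2 _ (MC.le_res θ _) _ le_rfl (MC.le_res θ _), ⟨γ, γ1, γ2⟩, y, hy⟩
  have c5 := c2.mono (θ2 ν)
  have hc := MC.cons_union c5 c1.1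
  have d1 := MC.amal_le_right c1 hc
  have d2 : (⟨MC.amal θ m2 r.m hc, r.e⟩ : Cond K W) ≤ ⟨m2, (f ν).1.2⟩ :=
    le_trans (b := ⟨m2, e⟩) ⟨MC.amal_le_left c5 hc, r1.2.1,
      r1.2.2.mono (Prod.mk_le_mk.2 ⟨d1, le_rfl⟩)⟩ (Cond.le_of_text le_rfl (e2 ν))
  rw [uniq ⟨MC.amal θ m2 r.m hc, r.e⟩ ⟨max θ γ, Good.max hθ γ1,
    MC.bd_amal (c5.mono (le_max_left _ _)) (γ2.1.mono (le_max_right _ _)) hc,
    γ2.2.mono (le_max_right _ _)⟩ i y y' (mono _ _ _ _ hy (Cond.le_of_text d1 (TExt.refl _)))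
    (mono _ _ _ _ c4 d2)]
  exact c3.trans_le (θ2 ν)

/-- Preservation of `κ`. -/
theorem bdd_kappa (hL : Good W (univ : Set K)) (hW : Cof W) : Bdd (Cond K W × Co) W K := by
  rintro V hV ⟨w, c⟩
  obtain ⟨w', h1, -, b, -, h2⟩ := bdd_L hL hW (hL.smW.prod (hL.smN.cnt hL.ne Co))
    (fun p i y => V (p, i.2) i.1 y) (fun p q i y h h' => hV.mono _ _ _ _ h ⟨h', le_rfl⟩)
    (fun p _ i y y' => hV.uniq _ _ _ _) (fun _ _ _ _ => trivial) w (w.in_univ hL.smN)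
  exact ⟨(w', c), ⟨h1, le_rfl⟩, b, fun r hr i y hy =>
    h2 r.1 hr.1 (r.1.in_univ hL.smN) (i, r.2) y hy⟩

end h2

/-- Adding one value to the collapsing part. -/
noncomputable def MC.add (m : MC K W) (j : K × W) {d : K} (h : d < j.1) : MC K W where
  p := m.p
  q i := if i = j then some fun _ => d else m.q i
  cons := m.cons
  cnt := (m.cnt.insert j).mono fun i hi => by
    simp only [mem_ofPred_eq, mem_insert_iff] at hi ⊢
    split_ifs at hi with h1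
    exacts [Or.inl h1, Or.inr hi]
  ok i φ hi := by
    split_ifs at hi with h1
    · cases hi
      exact Valid.const (h1 ▸ h)
    · exact m.ok i φ hi

/-- The collapse. -/
theorem cov_col [LinearOrder W] (hW : Cof W) (α : K) : Cov (Cond K W) W (Iio α) := by
  refine ⟨fun w i d => ∃ φ, w.m.q (α, i) = some φ ∧ ∀ x, Sat w.m.p x → φ x = d, ⟨?_, ?_⟩, ?_⟩
  · rintro p q i y ⟨φ, h1, h2⟩ h
    obtain ⟨φ', h3, h4⟩ := h.1.2 _ _ h1
    exact ⟨φ', h3, fun x hx => (h4 x hx).trans (h2 x (hx.mono h.1.1))⟩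
  · rintro p i y y' ⟨φ, h1, h2⟩ ⟨φ', h3, h4⟩
    obtain ⟨x, hx⟩ := p.m.cons
    rw [h1] at h3
    cases h3
    exact (h2 x hx).symm.trans (h4 x hx)
  · intro w d hd
    obtain ⟨i, hi⟩ := hW _ (w.m.cnt.image Prod.snd)
    refine ⟨⟨w.m.add (α, i) hd, w.e⟩, Cond.le_of_text (QExt.le (fun j φ hj => ?_)
      (Finset.Subset.refl _)) (TExt.refl _), i, fun _ => d, by simp [MC.add], fun _ _ => rfl⟩
    simp only [MC.add]
    rw [if_neg, hj]
    rintro rfl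
    exact lt_irrefl _ (hi _ ⟨(α, i), by simp [hj], rfl⟩)

end Pool.Agent.Lib.MP_6993b6_lc
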