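import Mathlib
import Pool.Agent.Lib.MP_6993b6_lc.Chain

/-!
The tree of finite modifications of the generic coherent sequence has no cofinal branch after
a Cohen real is added.
-/

namespace Pool.Agent.Lib.MP_6993b6_lc

open Set Classical

section bit

variable {R K : Type*} [Preorder R] [DecidableEq K]

def Bit (r : R) (a : Set R) : Bool → Prop
  | true => ∀ s ≤ r, s ∈ a
  | false => ∀ s ≤ r, ∃ t ≤ s, t ∉ a

theorem Bit.mono {r s : R} {a : Set R} {i : Bool} (h : Bit r a i) (hs : s ≤ r) : Bit s a i := by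
  cases i <;> exact fun t ht => h t (ht.trans hs)

theorem Bit.uniq {r : R} {a : Set R} {i j : Bool} (h : Bit r a i) (h' : Bit r a j) : i = j := by
  cases i <;> cases j
  · rfl
  · obtain ⟨t, h1, h2⟩ := h r le_rfl
    exact (h2 (h' t h1)).elim
  · obtain ⟨t, h1, h2⟩ := h' r le_rfl
    exact (h2 (h t h1)).elim
  · rfl

theorem exists_bit (r : R) (a : Set R) : ∃ s ≤ r, ∃ i, Bit s a i := by
  by_cases h : ∃ s ≤ r, Bit s a true
  · obtain ⟨s, h1, h2⟩ := h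
    exact ⟨s, h1, true, h2⟩
  · refine ⟨r, le_rfl, false, fun s hs => ?_⟩
    by_contra hc
    push Not at hc
    exact h ⟨s, hs, hc⟩

theorem bit_const (r : R) (i : Bool) : Bit r (if i then ∅ else univ) (!i) := by
  cases i
  · exact fun _ _ => mem_univ _
  · exact fun s _ => ⟨s, le_rfl, notMem_empty _⟩

def Same (r : R) (a b : Set R) (d : Bool) : Prop :=
  ∀ s ≤ r, ∀ i j, Bit s a i → Bit s b j → j = xor i d

theorem Same.mono {r s : R} {a b : Set R} {d : Bool} (h : Same r a b d) (hs : s ≤ r) :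
    Same s a b d := fun t ht => h t (ht.trans hs)

theorem Same.trans {r : R} {a b c : Set R} {d d' : Bool} (h : Same r a b d) (h' : Same r b c d') :
    Same r a c (xor d d') := by
  intro s hs i k hi hk
  obtain ⟨t, ht, j, hj⟩ := exists_bit s b
  rw [h' t (ht.trans hs) j k hj (hk.mono ht), h t (ht.trans hs) i j (hi.mono ht) hj,
    Bool.xor_assoc]

theorem Same.uniq {r : R} {a b : Set R} {d d' : Bool} (h : Same r a b d) (h' : Same r a b d') :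
    d = d' := by
  obtain ⟨s, hs, i, hi⟩ := exists_bit r a
  obtain ⟨t, ht, j, hj⟩ := exists_bit s b
  have h1 := h t (ht.trans hs) i j (hi.mono ht) hj
  rw [h' t (ht.trans hs) i j (hi.mono ht) hj] at h1
  revert h1
  cases i <;> cases d <;> cases d' <;> simp

theorem Ag.same {r : R} {a b : Set R} (h : Ag r a b) : Same r a b false := by
  intro s hs i j hi hj
  obtain ⟨t, ht, h1⟩ := h s hs
  rw [Bool.xor_false]
  refine (hj.mono ht).uniq ?_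
  cases i
  · intro u hu
    obtain ⟨v, h2, h3⟩ := hi u (hu.trans ht)
    exact ⟨v, h2, fun h4 => h3 ((h1 v (h2.trans hu)).2 h4)⟩
  · exact fun u hu => (h1 u hu).1 (hi u (hu.trans ht))

theorem exists_same (r : R) (f g : K → Set R) (F : Finset K) :
    ∃ s ≤ r, ∀ ξ ∈ F, ∃ d, Same s (f ξ) (g ξ) d := by
  induction F using Finset.induction_on with
  | empty => exact ⟨r, le_rfl, by simp⟩
  | insert ξ F _ ih =>
    obtain ⟨s, hs, h⟩ := ih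
    obtain ⟨t, ht, i, hi⟩ := exists_bit s (f ξ)
    obtain ⟨u, hu, j, hj⟩ := exists_bit t (g ξ)
    refine ⟨u, hu.trans (ht.trans hs), fun η hη => ?_⟩
    rcases Finset.mem_insert.1 hη with rfl | hη
    · refine ⟨xor i j, fun v hv i' j' h1 h2 => ?_⟩
      rw [h1.uniq (hi.mono (hv.trans hu)), h2.uniq (hj.mono hv)]
      simp
    · exact (h η hη).imp fun _ h' => h'.mono (hu.trans ht)

theorem LF.same {r : R} {f g : K → Set R} {S : Set K} (h : LF r f g S) {s : R} (hs : s ≤ r) :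
    ∃ t ≤ s, ∃ G : Finset K, ∀ ξ ∈ S, Same t (f ξ) (g ξ) (decide (ξ ∈ G)) := by
  obtain ⟨t, ht, F, h1⟩ := h s hs
  obtain ⟨u, hu, h2⟩ := exists_same t f g F
  refine ⟨u, hu.trans ht, F.filter fun ξ => Same u (f ξ) (g ξ) true, fun ξ hξ => ?_⟩
  by_cases h3 : ξ ∈ F
  · obtain ⟨d, hd⟩ := h2 ξ h3
    cases d
    · by_cases h4 : Same u (f ξ) (g ξ) true
      · simp [h3, h4]
      · simpa [h4] using hd
    · simp [h3, hd]
  · simpa [h3] using ((h1 ξ hξ h3).mono hu).same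

end bit

variable {K W : Type} [LinearOrder K]

theorem Cond.exists_len (w : Cond K W) (α : K) : ∃ w' ≤ w, w.Ext w' ∧ α ≤ w'.e.len :=
  ⟨⟨w.m, w.e.cat (Tm.nil α)⟩, Cond.le_of_text le_rfl (Tm.text_cat _ _),
    ⟨QExt.refl _, Tm.text_cat _ _⟩, le_max_right _ _⟩

/-- Changing a term at one place to a constant. -/
noncomputable def Tm.upd (e : Tm K W) (ξ : K) (i : Bool) : Tm K W :=
  Tm.mk' e.len (fun η => if η = ξ then (if i then ∅ else univ) else e.val η) (by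
    obtain ⟨β, h⟩ := e.bd
    refine ⟨β, fun η => ?_⟩
    split_ifs
    exacts [vdep_empty β, vdep_univ β, h η])

def Nd (K : Type) [LT K] : Type := {x : K × Finset K // ∀ ξ ∈ x.2, ξ < x.1}

theorem cov_nd (dec : W → List W) (hd : Function.Surjective dec) (α : K)
    (h : Cov (Cond K W) W (Iio α)) : Cov (Cond K W × Co) W {t : Nd K | t.1.1 = α} := by
  obtain ⟨V, hV, h⟩ := h
  have h1 : ∀ p q is l, List.Forall₂ (V p) is l → q ≤ p → List.Forall₂ (V q) is l :=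
    fun p q is l h hq => h.imp fun _ _ h' => hV.mono _ _ _ _ h' hq
  refine ⟨fun r i t => t.1.1 = α ∧ ∃ l, List.Forall₂ (V r.1) (dec i) l ∧ t.1.2 = l.toFinset,
    ⟨?_, ?_⟩, ?_⟩
  · rintro p q i y ⟨a1, l, a2, a3⟩ hq
    exact ⟨a1, l, h1 _ _ _ _ a2 hq.1, a3⟩
  · rintro p i y y' ⟨a1, l, a2, a3⟩ ⟨b1, l', b2, b3⟩
    have : l = l' := by
      generalize dec i = is at a2 b2
      clear a3 b3
      induction a2 generalizing l' with
      | nil => cases b2; rfl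
      | cons c1 _ ih =>
        cases b2 with
        | cons d1 d2 => rw [hV.uniq _ _ _ _ c1 d1, ih _ d2]
    exact Subtype.ext (Prod.ext (a1.trans b1.symm) (by rw [a3, b3, this]))
  · rintro p t rfl
    have : ∀ l : List K, (∀ ξ ∈ l, ξ < t.1.1) → ∃ q ≤ p.1, ∃ is, List.Forall₂ (V q) is l := by
      intro l hl
      induction l with
      | nil => exact ⟨p.1, le_rfl, [], .nil⟩
      | cons ξ l ih =>
        obtain ⟨q, q1, is, q2⟩ := ih fun η hη => hl η (List.mem_cons_of_mem _ hη)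
        obtain ⟨r, r1, i, r2⟩ := h q ξ (hl ξ (List.mem_cons_self ..))
        exact ⟨r, r1.trans q1, i :: is, .cons r2 (h1 _ _ _ _ q2 r1)⟩
    obtain ⟨q, q1, is, q2⟩ := this t.1.2.toList fun ξ hξ => t.2 ξ (Finset.mem_toList.1 hξ)
    obtain ⟨i, rfl⟩ := hd is
    exact ⟨(q, p.2), ⟨q1, le_rfl⟩, i, rfl, _, q2, (Finset.toList_toFinset _).symm⟩

section tree

variable (A : K → Set (Cond K W))

def ALt (r : Cond K W × Co) (s t : Nd K) : Prop :=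
  s.1.1 < t.1.1 ∧ ∃ a ∈ A s.1.1, ∃ a' ∈ A t.1.1, r.1 ≤ a ∧ r.1 ≤ a' ∧ ∀ ξ < s.1.1,
    Same (r.1.m, r.2) (a.e.val ξ) (a'.e.val ξ) (xor (decide (ξ ∈ s.1.2)) (decide (ξ ∈ t.1.2)))

structure Anti : Prop where
  len : ∀ α, ∀ a ∈ A α, α ≤ a.e.len
  eq : ∀ α, ∀ a ∈ A α, ∀ b ∈ A α, ∀ r, r ≤ a → r ≤ b → a = b
  dense : ∀ α w, ∃ a ∈ A α, ∃ r, r ≤ a ∧ r ≤ w

theorem exists_anti : ∃ A : K → Set (Cond K W), Anti A := by
  choose A h1 h2 h3 using fun α : K => exists_antichain {w : Cond K W | α ≤ w.e.len}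
  refine ⟨A, fun α a ha => h1 α ha, h2, fun α w => ?_⟩
  obtain ⟨w', a1, -, a2⟩ := w.exists_len α
  obtain ⟨a, b1, r, b2, b3⟩ := h3 α w' a2
  exact ⟨a, b1, r, b2, b3.trans a1⟩

theorem mb_le {r s : Cond K W × Co} (h : s ≤ r) : ((s.1.m, s.2) : MB K W) ≤ (r.1.m, r.2) :=
  ⟨h.1.1, h.2⟩

theorem le_mb {w : Cond K W} {c : Co} {t : MB K W} (h : t ≤ (w.m, c)) :
    ((⟨t.1, w.e⟩, t.2) : Cond K W × Co) ≤ (w, c) :=
  ⟨Cond.le_of_text h.1 (TExt.refl _), h.2⟩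

theorem lf_of_le {a b w : Cond K W} (ha : w ≤ a) (hb : w ≤ b) {α : K} (h1 : α ≤ a.e.len)
    (h2 : α ≤ b.e.len) : LF (w.m, ⊤) a.e.val b.e.val (Iio α) :=
  (ha.2.2.subset (Iio_subset_Iio h1)).trans (hb.2.2.subset (Iio_subset_Iio h2)).symm

variable {A}

theorem alt_node (hA : Anti A) (p : Cond K W × Co) (t : Nd K) :
    Node (fun t : Nd K => t.1.1) (ALt A) p t := by
  rintro ⟨w, c⟩ - β hβ
  obtain ⟨a, a1, w1, a2, a3⟩ := hA.dense β w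
  obtain ⟨a', b1, w2, b2, b3⟩ := hA.dense t.1.1 w1
  obtain ⟨r, r1, G, r2⟩ := (lf_of_le (b3.trans a2) b2 (hA.len _ _ a1)
    (hβ.le.trans (hA.len _ _ b1))).same (s := (w2.m, c)) ⟨le_rfl, le_top⟩
  have r3 := le_mb r1
  refine ⟨_, r3.trans (show (w2, c) ≤ (w, c) from ⟨b3.trans a3, le_rfl⟩),
    ⟨(β, (symmDiff G t.1.2).filter (· < β)), fun ξ hξ => (Finset.mem_filter.1 hξ).2⟩, rfl, hβ,
    a, a1, a', b1, r3.1.trans (b3.trans a2), r3.1.trans b2, fun ξ hξ => ?_⟩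
  have e : xor (decide (ξ ∈ (symmDiff G t.1.2).filter (· < β))) (decide (ξ ∈ t.1.2)) =
      decide (ξ ∈ G) := by
    have hξ' : ξ < β := hξ
    by_cases h1 : ξ ∈ G <;> by_cases h2 : ξ ∈ t.1.2 <;> simp [Finset.mem_symmDiff, h1, h2, hξ']
  have := r2 ξ hξ
  dsimp only
  rw [e]
  exact this

theorem alt_mono (p q : Cond K W × Co) (s t : Nd K) (h : ALt A p s t) (hq : q ≤ p) :
    ALt A q s t :=
  let ⟨h1, a, a1, a', a2, a3, a4, a5⟩ := h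
  ⟨h1, a, a1, a', a2, hq.1.trans a3, hq.1.trans a4, fun ξ hξ => (a5 ξ hξ).mono (mb_le hq)⟩

theorem alt_tree [OrderBot K] (hA : Anti A) : TreeSys (fun t : Nd K => t.1.1) (ALt A) ⊤ where
  mono := alt_mono
  lt _ _ _ h := h.1
  uniq := by
    rintro p - ⟨⟨α, F⟩, hF⟩ ⟨⟨α', F'⟩, hF'⟩ t ⟨-, a, a1, a', a2, a3, a4, a5⟩
      ⟨-, b, b1, b', b2, b3, b4, b5⟩ (rfl : α = α')
    obtain rfl := hA.eq _ _ a1 _ b1 _ a3 b3
    obtain rfl := hA.eq _ _ a2 _ b2 _ a4 b4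
    refine Subtype.ext (Prod.ext rfl (Finset.ext fun ξ => ?_))
    by_cases h : ξ < α
    · simpa using (a5 ξ h).uniq (b5 ξ h)
    · exact ⟨fun h' => (h (hF ξ h')).elim, fun h' => (h (hF' ξ h')).elim⟩
  trans := by
    rintro p - s t u ⟨a0, a, a1, a', a2, a3, a4, a5⟩ ⟨b0, b, b1, b', b2, b3, b4, b5⟩
    obtain rfl := hA.eq _ _ a2 _ b1 _ a4 b3
    refine ⟨p, le_rfl, a0.trans b0, a, a1, b', b2, a3, b4, fun ξ hξ => ?_⟩
    simpa using (a5 ξ hξ).trans (b5 ξ (hξ.trans a0))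
  node p _ s _ _ := alt_node hA p s
  lev p _ α := ⟨p, le_rfl, ⟨(α, ∅), by simp⟩, rfl, alt_node hA _ _⟩

theorem alt_nobr (hN : Sm (univ : Set K) ℕ) (hA : Anti A) (r0 : Cond K W × Co) :
    ¬ HasBr (fun t : Nd K => t.1.1) (ALt A) r0 := by
  rintro ⟨B, B1, B2, B3⟩
  have nomax : ∀ a : K, ∃ b, a < b := fun a =>
    let ⟨b, _, h⟩ := hN (fun _ => a) fun _ => trivial
    ⟨b, h 0⟩
  let BV : Cond K W × Co → K → Bool → Prop := fun r ξ i => ∃ s, B r s ∧ ξ < s.1.1 ∧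
    ∃ a ∈ A s.1.1, r.1 ≤ a ∧ Bit (r.1.m, r.2) (a.e.val ξ) (xor i (decide (ξ ∈ s.1.2)))
  have mono : ∀ r r' ξ i, BV r ξ i → r' ≤ r → BV r' ξ i := by
    rintro r r' ξ i ⟨s, h1, h2, a, h3, h4, h5⟩ h
    exact ⟨s, B1 _ _ _ h1 h, h2, a, h3, h.1.trans h4, h5.mono (mb_le h)⟩
  have uniq : ∀ r ≤ r0, ∀ ξ i i', BV r ξ i → BV r ξ i' → i = i' := by
    have key : ∀ r q : Cond K W × Co, q ≤ r → ∀ ξ i i' (s s' : Nd K), ALt A q s s' → ξ < s.1.1 →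
        ∀ a ∈ A s.1.1, r.1 ≤ a → Bit (r.1.m, r.2) (a.e.val ξ) (xor i (decide (ξ ∈ s.1.2))) →
        ∀ a' ∈ A s'.1.1, r.1 ≤ a' → Bit (r.1.m, r.2) (a'.e.val ξ) (xor i' (decide (ξ ∈ s'.1.2))) →
        i = i' := by
      rintro r q hq ξ i i' s s' ⟨-, b, b1, b', b2, b3, b4, b5⟩ h2 a h3 h4 h5 a' h3' h4' h5'
      obtain rfl := hA.eq _ _ h3 _ b1 _ (hq.1.trans h4) b3
      obtain rfl := hA.eq _ _ h3' _ b2 _ (hq.1.trans h4') b4
      have := b5 ξ h2 _ le_rfl _ _ (h5.mono (mb_le hq)) (h5'.mono (mb_le hq))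
      revert this
      cases i <;> cases i' <;> cases decide (ξ ∈ s.1.2) <;> cases decide (ξ ∈ s'.1.2) <;> simp
    rintro r hr ξ i i' ⟨s, h1, h2, a, h3, h4, h5⟩ ⟨s', h1', h2', a', h3', h4', h5'⟩
    rcases B3 r hr s s' h1 h1' with rfl | ⟨q, hq, h | h⟩
    · obtain rfl := hA.eq _ _ h3 _ h3' _ h4 h4'
      simpa using h5.uniq h5'
    · exact key r q hq ξ i i' s s' h h2 a h3 h4 h5 a' h3' h4' h5'
    · exact (key r q hq ξ i' i s' s h h2' a' h3' h4' h5' a h3 h4 h5).symm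
  have lev : ∀ r ≤ r0, ∀ β, ∃ q ≤ r, ∃ s : Nd K, s.1.1 = β ∧ B q s ∧ ∃ a ∈ A β, q.1 ≤ a := by
    intro r hr β
    obtain ⟨q, q1, s, q2, q3⟩ := B2 r hr β
    obtain ⟨a, a1, w, a2, a3⟩ := hA.dense β q.1
    have : (w, q.2) ≤ q := ⟨a3, le_rfl⟩
    exact ⟨_, this.trans q1, s, q2, B1 _ _ _ q3 this, a, a1, a2⟩
  have dense : ∀ r ≤ r0, ∀ ξ, ∃ r' ≤ r, ∃ i, BV r' ξ i := by
    intro r hr ξ
    obtain ⟨β, hβ⟩ := nomax ξ
    obtain ⟨q, q1, s, rfl, q3, a, a1, a2⟩ := lev r hr β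
    obtain ⟨t, t1, i, t2⟩ := exists_bit (q.1.m, q.2) (a.e.val ξ)
    have t3 := le_mb t1
    exact ⟨_, t3.trans q1, xor i (decide (ξ ∈ s.1.2)), s, B1 _ _ _ q3 t3, hβ, a, a1,
      t3.1.trans a2, by simpa using t2⟩
  have close : ∀ r ≤ r0, ∃ r' ≤ r, ∃ G : Finset K, ∀ ξ < r.1.e.len, ξ ∉ G → ∀ r'' ≤ r', ∀ i j,
      BV r'' ξ i → Bit (r''.1.m, r''.2) (r.1.e.val ξ) j → i = j := by
    intro r hr
    obtain ⟨q, q1, s, q2, q3, a, a1, a2⟩ := lev r hr r.1.e.len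
    obtain ⟨t, t1, G, t2⟩ := lf_of_le a2 q1.1 (hA.len _ _ a1) le_rfl (q.1.m, q.2) ⟨le_rfl, le_top⟩
    have t3 := le_mb t1
    refine ⟨_, t3.trans q1, G ∪ s.1.2, fun ξ hξ hG r'' h i j hi hj => ?_⟩
    rw [Finset.mem_union, not_or] at hG
    obtain ⟨u, u1, k, u2⟩ := exists_bit (r''.1.m, r''.2) (a.e.val ξ)
    have u3 := le_mb u1
    have u4 := u3.trans (h.trans t3)
    rw [uniq _ (u4.trans (q1.trans hr)) ξ i k (mono _ _ _ _ hi u3)
      ⟨s, B1 _ _ _ q3 u4, q2 ▸ hξ, a, q2 ▸ a1, u4.1.trans a2, by simpa [hG.2] using u2⟩]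
    simpa using ((t2 ξ hξ hG.1).same u (u1.trans (mb_le h)) k j u2 (hj.mono u1)).symm
  obtain ⟨u, c0⟩ := r0
  let Ψ : Co → FS K → Cond K W → Set (K × ℕ) → K → Prop := fun c P v Ξ ξ => ξ < v.e.len ∧
    ∃ p' c' i, Sup Ξ p' ∧ P ⊆ p' ∧ (∃ x, Sat p' x) ∧ c' ≤ c ∧
      v.e.val ξ = (if i then ∅ else univ) ∧ ∀ v' ≤ v, p' ⊆ v'.m.p → BV (v', c') ξ i
  have Ψm : ∀ c P v v' Ξ Ξ' ξ, Ψ c P v Ξ ξ → v' ≤ v → v.Ext v' → Ξ ⊆ Ξ' → Ψ c P v' Ξ' ξ := by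
    rintro c P v v' Ξ Ξ' ξ ⟨a0, p', c', i, a1, a2, a3, a4, a5, a6⟩ h1 h2 h3
    exact ⟨a0.trans_le h2.2.1, p', c', i, a1.mono h3, a2, a3, a4, (h2.2.2 ξ a0).trans a5,
      fun w hw => a6 w (hw.trans h1)⟩
  obtain ⟨v, Ξ, v1, v2, -, -, v4⟩ := fusion (T := Co × ℕ) hN u
    (fun t P v Ξ => (∃ x, Sat (u.m.p ∪ P) x) → t.1 ≤ c0 →
      ∃ S : Finset K, t.2 ≤ S.card ∧ ∀ ξ ∈ S, Ψ t.1 P v Ξ ξ) (by
      rintro ⟨c, k⟩ P v0 h1 h2
      by_cases hc : (∃ x, Sat (u.m.p ∪ P) x) ∧ c ≤ c0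
      swap
      · exact ⟨v0, ∅, Cond.Ext.refl _, h2, countable_empty, fun a b => (hc ⟨a, b⟩).elim⟩
      induction k with
      | zero => exact ⟨v0, ∅, Cond.Ext.refl _, h2, countable_empty, fun _ _ => ⟨∅, by simp⟩⟩
      | succ k ih =>
        obtain ⟨v, Ξ, a1, a2, a3, a4⟩ := ih
        obtain ⟨S, a5, a6⟩ := a4 hc.1 hc.2
        have a7 : v ≤ u := (h1.trans a1).le a2.ge
        have a8 : v.setP _ hc.1 ≤ v := Cond.setP_le _ (a2 ▸ Finset.subset_union_left)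
        obtain ⟨⟨w0, c'⟩, b1, i, b2⟩ := dense (v.setP _ hc.1, c) ⟨a8.trans a7, hc.2⟩ v.e.len
        obtain ⟨β, hβ⟩ := nomax v.e.len
        obtain ⟨w, b3, -, b4⟩ := w0.exists_len β
        have b5 := b3.trans b1.1
        obtain ⟨v', c1, c2, c3, c4⟩ := Cond.exists_lit (b5.trans a8)
        obtain ⟨Ξ', d1, d2⟩ := sup_self w.m.p
        have d3 : v.e.len < v'.e.len := c3 ▸ hβ.trans_le b4
        have d4 : (⟨v'.m, v'.e.upd v.e.len i⟩ : Cond K W) ≤ v' :=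
          ⟨le_rfl, le_rfl, LF.of_fin {v.e.len} fun ξ hξ h => by
            rw [Tm.upd, Tm.mk'_val hξ, if_neg (by simpa using h)]⟩
        have d5 : v.Ext ⟨v'.m, v'.e.upd v.e.len i⟩ := ⟨c1.1, c1.2.1, fun ξ hξ => by
          rw [Tm.upd, Tm.mk'_val (hξ.trans d3), if_neg hξ.ne, c1.2.2 ξ hξ]⟩
        refine ⟨_, Ξ ∪ Ξ', a1.trans d5, c2.trans a2, a3.union d1, fun _ _ =>
          ⟨insert v.e.len S, ?_, fun ξ hξ => ?_⟩⟩
        · rw [Finset.card_insert_of_notMem fun h => lt_irrefl _ (a6 _ h).1]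
          exact Nat.succ_le_succ a5
        · rcases Finset.mem_insert.1 hξ with rfl | hξ
          · refine ⟨d3, w.m.p, c', i, d2.mono subset_union_right,
              Finset.subset_union_right.trans b5.1.1, w.m.cons, b1.2, ?_, fun v'' h h' =>
                mono _ _ _ _ b2 ⟨(c4 v'' (h.trans d4) h').trans b3, le_rfl⟩⟩
            rw [Tm.upd, Tm.mk'_val d3, if_pos rfl]
          · exact Ψm _ _ _ _ _ _ _ (a6 ξ hξ) (d5.le c2.ge) d5 subset_union_left) (by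
      intro t P v v' Ξ Ξ' h h1 h2 h3 a b
      obtain ⟨S, h4, h5⟩ := h a b
      exact ⟨S, h4, fun ξ hξ => Ψm _ _ _ _ _ _ _ (h5 ξ hξ) h1 h2 h3⟩)
  obtain ⟨⟨w, c⟩, r1, G, r2⟩ := close (v, c0) ⟨v1.le v2.ge, le_rfl⟩
  obtain ⟨S, s1, s2⟩ := v4 (c, G.card + 1) _ (sup_filter Ξ w.m.p)
    (w.m.cons.imp fun x hx => sat_union.2 ⟨hx.mono (v2 ▸ r1.1.1.1),
      hx.mono (Finset.filter_subset _ _)⟩) r1.2
  obtain ⟨ξ, h1, h2⟩ := Finset.exists_mem_notMem_of_card_lt_card (s := G) (t := S) s1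
  obtain ⟨a0, p', c', i, a1, a2, a3, a4, a5, a6⟩ := s2 ξ h1
  have hc := cons_trace w.m.cons a3 a1 a2
  have h3 : w.setP _ hc ≤ w := Cond.setP_le hc Finset.subset_union_left
  have := r2 ξ a0 h2 (w.setP _ hc, c') ⟨h3, a4⟩ i (!i)
    (a6 _ (h3.trans r1.1) Finset.subset_union_right) (a5 ▸ bit_const _ i)
  simp at this

end tree

theorem exists_aron [LinearOrder W] [OrderBot K] (hN : Sm (univ : Set K) ℕ) (hW : Cof W)
    (dec : W → List W) (hd : Function.Surjective dec) :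
    ∃ (Nd : Type) (ht : Nd → K) (Lt : Cond K W × Co → Nd → Nd → Prop),
      TreeSys ht Lt ⊤ ∧ (∀ t, Node ht Lt ⊤ t) ∧ (∀ α, Cov (Cond K W × Co) W {t | ht t = α}) ∧
        ∀ r, ¬ HasBr ht Lt r := by
  obtain ⟨A, hA⟩ := exists_anti (K := K) (W := W)
  exact ⟨Nd K, fun t => t.1.1, ALt A, alt_tree hA, alt_node hA _,
    fun α => cov_nd dec hd α (cov_col hW α), alt_nobr hN hA⟩

end Pool.Agent.Lib.MP_6993b6_lc
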