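import Mathlib
import Pool.Agent.Lib.MP_053343_lc.Defs

/-!
Definitions for MP_6993b6_lc: successor cardinals, `ω₂`-trees, the tree property and Cohen
extensions of a transitive model.
-/

namespace Pool.Agent.Lib.MP_6993b6_lc

open ZFSet Pool.Agent.Lib.MP_053343_lc

/-- `|b| ≤ |a|` in `N`: some `f ∈ N` maps a subset of `a` onto `b`. -/
def Onto (N a b : ZFSet.{0}) : Prop :=
  ∃ f ∈ N, (∀ x ∈ a, ∀ y ∈ b, ∀ y' ∈ b, pair x y ∈ f → pair x y' ∈ f → y = y') ∧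
    ∀ y ∈ b, ∃ x ∈ a, pair x y ∈ f

/-- `b` is the successor cardinal of `a` in `N`: the least ordinal that is not of size at
most `|a|` in `N`. -/
def Succ (N a b : ZFSet.{0}) : Prop :=
  b ∈ N ∧ b.IsOrdinal ∧ ¬ Onto N a b ∧ ∀ c ∈ b, Onto N a c

/-- `(T, r)` is a tree with height function `h`, of height `w2`, whose levels have size at most
`|w1|` in `N`.  The function `h` maps the predecessors of a node `t` isomorphically onto the
ordinal `h t`. -/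
structure IsTree (N w1 w2 T r h : ZFSet.{0}) : Prop where
  ht : ∀ t ∈ T, ∃ a ∈ w2, pair t a ∈ h ∧ ∀ b ∈ w2, pair t b ∈ h → b = a
  trans : ∀ s ∈ T, ∀ t ∈ T, ∀ u ∈ T, pair s t ∈ r → pair t u ∈ r → pair s u ∈ r
  lin : ∀ s ∈ T, ∀ t ∈ T, ∀ u ∈ T, pair s u ∈ r → pair t u ∈ r →
    s = t ∨ pair s t ∈ r ∨ pair t s ∈ r
  mono : ∀ s ∈ T, ∀ t ∈ T, pair s t ∈ r → ∀ a ∈ w2, ∀ b ∈ w2, pair s a ∈ h → pair t b ∈ h → a ∈ b
  onto : ∀ t ∈ T, ∀ b ∈ w2, pair t b ∈ h → ∀ a ∈ b, ∃ s ∈ T, pair s t ∈ r ∧ pair s a ∈ h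
  lev : ∀ a ∈ w2, ∃ t ∈ T, pair t a ∈ h
  small : ∀ a ∈ w2, Onto N w1 (T.sep fun t => pair t a ∈ h)

/-- `N` contains a cofinal branch: a linearly ordered subset of `T` meeting every level. -/
def Branch (N w2 T r h : ZFSet.{0}) : Prop :=
  ∃ b ∈ N, b ⊆ T ∧ (∀ s ∈ b, ∀ t ∈ b, s = t ∨ pair s t ∈ r ∨ pair t s ∈ r) ∧
    ∀ a ∈ w2, ∃ t ∈ b, pair t a ∈ h

/-- The tree property at `ω₂` holds in `N`. -/
def TP (N : ZFSet.{0}) : Prop :=
  ∃ w1 w2, Succ N omega w1 ∧ Succ N w1 w2 ∧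
    ∀ T ∈ N, ∀ r ∈ N, ∀ h ∈ N, IsTree N w1 w2 T r h → Branch N w2 T r h

/-- There is an `ω₂`-Aronszajn tree in `N`. -/
def HasAron (N : ZFSet.{0}) : Prop :=
  ∃ w1 w2, Succ N omega w1 ∧ Succ N w1 w2 ∧
    ∃ T ∈ N, ∃ r ∈ N, ∃ h ∈ N, IsTree N w1 w2 T r h ∧ ¬ Branch N w2 T r h

/-- A finite binary sequence as a set: the graph of a function from a numeral to `{0, 1}`. -/
noncomputable def sc (l : List Bool) : ZFSet.{0} :=
  ZFSet.range fun i : Fin l.length => pair (nat i) (nat (l.get i).toNat)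

/-- The initial segment of length `n` of a real. -/
def seg (x : ℕ → Bool) (n : ℕ) : List Bool := List.ofFn fun i : Fin n => x i

/-- `x` is a Cohen real over `M`: it meets every dense set of finite binary sequences that
lies in `M`. -/
def Cohen (M : ZFSet.{0}) (x : ℕ → Bool) : Prop :=
  ∀ D ∈ M, (∀ l, ∃ l', sc (l ++ l') ∈ D) → ∃ n, sc (seg x n) ∈ D

/-- `N = M[x]`: the set of the values of the members of `M`, read as names for Cohen forcing,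
under the filter of the initial segments of `x`. -/
def IsExt (M : ZFSet.{0}) (x : ℕ → Bool) (N : ZFSet.{0}) : Prop :=
  ∃ v : ZFSet.{0} → ZFSet.{0},
    (∀ τ z, z ∈ v τ ↔ ∃ σ n, pair σ (sc (seg x n)) ∈ τ ∧ z = v σ) ∧
      ∀ z, z ∈ N ↔ ∃ τ ∈ M, z = v τ

end Pool.Agent.Lib.MP_6993b6_lc
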