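import Mathlib
import Pool.Agent.Lib.MP_6993b6_lc.Chain

/-!
The master condition at a reflecting ordinal `δ` and the projection to the forcing below `δ`.
-/

namespace Pool.Agent.Lib.MP_6993b6_lc

open Set Classical

variable {K W : Type} [LinearOrder K] [LinearOrder W]

/-! ### Sequences of terms -/

section seq

variable {f g : W → Option (Tm K W)} {ξ α : K} {a b : Tm K W}

def Sel (f : W → Option (Tm K W)) (ξ : K) (a : Tm K W) : Prop :=
  ∃ j, f j = some a ∧ ξ < a.len ∧ ∀ j' < j, ∃ a', f j' = some a' ∧ a'.len ≤ ξ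

structure NormF (f : W → Option (Tm K W)) (α : K) : Prop where
  init : ∀ j j', j' < j → f j ≠ none → f j' ≠ none
  len : ∀ j a, f j = some a → a.len ≤ α
  cov : ∀ ξ < α, ∃ j a, f j = some a ∧ ξ < a.len

def FExt (f g : W → Option (Tm K W)) : Prop := ∀ j a, f j = some a → g j = some a

theorem Sel.uniq (h : Sel f ξ a) (h' : Sel f ξ b) : a = b := by
  obtain ⟨j, a1, a2, a3⟩ := h
  obtain ⟨k, b1, b2, b3⟩ := h'
  rcases lt_trichotomy j k with h | rfl | h
  · obtain ⟨c, c1, c2⟩ := b3 j h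
    rw [a1] at c1
    cases c1
    exact (not_le.2 a2 c2).elim
  · rw [a1] at b1
    exact Option.some.inj b1
  · obtain ⟨c, c1, c2⟩ := a3 k h
    rw [b1] at c1
    cases c1
    exact (not_le.2 b2 c2).elim

theorem Sel.ext (h : Sel f ξ a) (hg : FExt f g) : Sel g ξ a :=
  let ⟨j, a1, a2, a3⟩ := h
  ⟨j, hg _ _ a1, a2, fun j' hj => (a3 j' hj).imp fun _ h => ⟨hg _ _ h.1, h.2⟩⟩

theorem NormF.sel [WellFoundedLT W] (h : NormF f α) (hξ : ξ < α) : ∃ a, Sel f ξ a := by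
  obtain ⟨j, ⟨a, a1, a2⟩, hm⟩ := (wellFounded_lt (α := W)).has_min
    {j | ∃ a, f j = some a ∧ ξ < a.len} (h.cov ξ hξ)
  refine ⟨a, j, a1, a2, fun j' hj => ?_⟩
  obtain ⟨a', ha'⟩ := Option.ne_none_iff_exists'.1 (h.init j j' hj (by simp [a1]))
  exact ⟨a', ha', not_lt.1 fun h' => hm j' ⟨a', ha', h'⟩ hj⟩

theorem NormF.sel_iff [WellFoundedLT W] (h : NormF f α) (hg : FExt f g) (hξ : ξ < α) :
    Sel g ξ a ↔ Sel f ξ a := by
  refine ⟨fun h' => ?_, fun h' => h'.ext hg⟩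
  obtain ⟨b, hb⟩ := h.sel hξ
  rwa [h'.uniq (hb.ext hg)]

theorem NormF.le {α' : K} (h : NormF f α) (h' : NormF g α') (hg : FExt f g) : α ≤ α' := by
  by_contra hc
  obtain ⟨j, a, a1, a2⟩ := h.cov α' (not_le.1 hc)
  exact not_le.2 a2 (h'.len j a (hg _ _ a1))

noncomputable def fillF (f : W → Option (Tm K W)) (η : W) (b : Tm K W) (j : W) :
    Option (Tm K W) := if j ≤ η then (f j).or (some b) else f j

theorem fext_fill (f : W → Option (Tm K W)) (η : W) (b : Tm K W) : FExt f (fillF f η b) := by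
  intro j a h
  simp [fillF, h]

theorem fill_some {η j : W} (h : fillF f η b j = some a) : f j = some a ∨ a = b := by
  unfold fillF at h
  split_ifs at h
  · cases h1 : f j with
    | none => exact Or.inr (by simpa [h1] using h.symm)
    | some c => exact Or.inl (by simpa [h1] using h)
  · exact Or.inl h

theorem norm_fill {η : W} (h1 : ∀ j, f j ≠ none → j < η) (h2 : ∀ j a, f j = some a → a.len ≤ b.len) :
    NormF (fillF f η b) b.len := by
  refine ⟨fun j j' hj h => ?_, fun j a h => ?_, fun ξ hξ => ⟨η, b, ?_, hξ⟩⟩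
  · have : j ≤ η := by
      by_contra hc
      simp only [fillF, if_neg hc] at h
      exact hc (h1 j h).le
    simp [fillF, hj.le.trans this]
  · rcases fill_some h with h | rfl
    exacts [h2 j a h, le_rfl]
  · have : f η = none := by
      by_contra hc
      exact lt_irrefl _ (h1 η hc)
    simp [fillF, this]

theorem sel_fill [WellFoundedLT W] {η : W} (h1 : ∀ j, f j ≠ none → j < η)
    (h2 : ∀ j a, f j = some a → a.len ≤ α) (h3 : α ≤ ξ) (h4 : ξ < b.len) :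
    Sel (fillF f η b) ξ a ↔ a = b := by
  have key : ∀ a, Sel (fillF f η b) ξ a → a = b := by
    rintro a ⟨j, a1, a2, -⟩
    exact (fill_some a1).resolve_left fun h => not_le.2 a2 ((h2 j a h).trans h3)
  refine ⟨key a, ?_⟩
  rintro rfl
  obtain ⟨c, hc⟩ := (norm_fill h1 fun j c h => (h2 j c h).trans (h3.trans h4.le)).sel h4
  exact key c hc ▸ hc

end seq

/-- The hypotheses on `δ`. -/
structure At (code : K → Tm K W) (δ : K) : Prop where
  good : Good W (Iio δ)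
  smN : Sm (univ : Set K) ℕ
  cof : Cof W
  cnt : ∀ ζ : W, (Iic ζ).Countable
  c1 : ∀ d < δ, ∃ β < δ, (code d).Bd β
  c2 : ∀ (e : Tm K W), ∀ β < δ, e.Bd β → ∃ d < δ, code d = e

variable (code : K → Tm K W) (δ : K)

def sq (m : MC K W) (x : Pt K) (j : W) : Option (Tm K W) := (m.q (δ, j)).map fun φ => code (φ x)

def lowv (m : MC K W) (ξ : K) : Set (MB K W) :=
  {r | ∀ x, Sat r.1.p x → ∃ a, Sel (sq code δ m x) ξ a ∧ r ∈ a.val ξ}

/-- The part of the finite condition above `δ`. -/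
noncomputable def upP (m : MC K W) : FS K := m.p.filter fun a => ¬ a.1.1 < δ

variable {code δ}

omit [LinearOrder W] in
theorem sq_some {m : MC K W} {x : Pt K} {j : W} {a : Tm K W} :
    sq code δ m x j = some a ↔ ∃ φ, m.q (δ, j) = some φ ∧ code (φ x) = a := by
  simp [sq]

omit [LinearOrder W] in
theorem sq_none {m : MC K W} {x : Pt K} {j : W} : sq code δ m x j ≠ none ↔ m.q (δ, j) ≠ none := by
  simp [sq]

omit [LinearOrder W] in
theorem fext_of_le {m m' : MC K W} (h : m' ≤ m) {x : Pt K} (hx : Sat (m'.res δ).p x) :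
    FExt (sq code δ m x) (sq code δ m' x) := by
  intro j a ha
  obtain ⟨φ, h1, rfl⟩ := sq_some.1 ha
  obtain ⟨φ', h2, h3⟩ := h.2 _ _ h1
  obtain ⟨y, hy, hxy⟩ := MC.exists_sat hx
  refine sq_some.2 ⟨φ', h2, ?_⟩
  rw [← (m'.ok _ _ h2).eq hxy, ← (m.ok _ _ h1).eq hxy, h3 y hy]

omit [LinearOrder W] in
theorem fext_of_qext {m m' : MC K W} (h : QExt m m') (x : Pt K) :
    FExt (sq code δ m x) (sq code δ m' x) := by
  intro j a ha
  obtain ⟨φ, h1, rfl⟩ := sq_some.1 ha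
  exact sq_some.2 ⟨φ, h _ _ h1, rfl⟩

omit [LinearOrder W] in
theorem up_union (m : MC K W) : (m.res δ).p ∪ upP δ m = m.p :=
  Finset.filter_union_filter_not_eq _ _

omit [LinearOrder W] in
theorem mem_upP {m : MC K W} {a : (K × ℕ) × Bool} : a ∈ upP δ m ↔ a ∈ m.p ∧ ¬ a.1.1 < δ :=
  Finset.mem_filter

variable (H : At code δ)
include H

theorem At.bound (m : MC K W) : ∃ β < δ, (∀ x y : Pt K, (∀ a : K × ℕ, a.1 < β → x a = y a) →
    sq code δ m x = sq code δ m y) ∧ ∀ x j a, sq code δ m x j = some a → a.Bd β := by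
  have h1 : ∀ j : {j : K × W | m.q j ≠ none}, ∃ β < δ, ∀ φ, j.1.1 = δ → m.q j = some φ →
      (∀ x y : Pt K, (∀ a : K × ℕ, a.1 < β → x a = y a) → φ x = φ y) ∧
        ∀ x, (code (φ x)).Bd β := by
    intro j
    by_cases hj : j.1.1 = δ
    swap
    · obtain ⟨d, hd⟩ := H.good.ne
      exact ⟨d, hd, fun _ h => (hj h).elim⟩
    obtain ⟨φ, hφ⟩ := Option.ne_none_iff_exists'.1 j.2
    have hv := m.ok _ _ hφ
    rw [hj] at hv
    obtain ⟨S, s1, s2, s3⟩ := hv.dep
    obtain ⟨b, b1, b2⟩ := H.good.smN.set H.good.ne (s1.image Prod.fst)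
      (by rintro _ ⟨a, ha, rfl⟩; exact s2 a ha)
    choose g g1 g2 using fun d : range φ => H.c1 d.1 (by obtain ⟨_, x, rfl⟩ := d; exact hv.lt x)
    have := hv.rng.to_subtype
    obtain ⟨c, c1, c2⟩ := H.good.smN.cnt H.good.ne _ g g1
    refine ⟨max b c, max_lt b1 c1, fun ψ _ hψ => ?_⟩
    rw [hφ] at hψ
    cases hψ
    exact ⟨fun x y h => s3 x y fun a ha => h a (lt_max_of_lt_left (b2 _ ⟨a, ha, rfl⟩)),
      fun x => (g2 ⟨_, x, rfl⟩).mono ((c2 _).le.trans (le_max_right _ _))⟩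
  choose g g1 g2 using h1
  have := m.cnt.to_subtype
  obtain ⟨β, b1, b2⟩ := H.good.smN.cnt H.good.ne _ g g1
  refine ⟨β, b1, fun x y h => funext fun j => ?_, fun x j a ha => ?_⟩
  · cases h1 : m.q (δ, j) with
    | none => simp [sq, h1]
    | some φ =>
      simp only [sq, h1, Option.map_some]
      rw [(g2 ⟨(δ, j), by simp [h1]⟩ φ rfl h1).1 x y fun a ha => h a (ha.trans (b2 _))]
  · obtain ⟨φ, h1, rfl⟩ := sq_some.1 ha
    exact ((g2 ⟨(δ, j), by simp [h1]⟩ φ rfl h1).2 x).mono (b2 _).le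

theorem At.vdep (m : MC K W) : ∃ β < δ, ∀ ξ, VDep β (lowv code δ m ξ) := by
  obtain ⟨β, b1, b2, b3⟩ := H.bound m
  refine ⟨β, b1, fun ξ m' c => ⟨fun h x hx => ?_, fun h x hx => ?_⟩⟩
  · obtain ⟨y, hy, hxy⟩ := MC.exists_sat hx
    obtain ⟨a, a1, a2⟩ := h y hy
    rw [b2 y x hxy] at a1
    exact ⟨a, a1, ((b3 _ _ _ a1.choose_spec.1).2 ξ m' c).1 a2⟩
  · obtain ⟨a, a1, a2⟩ := h x (hx.mono (Finset.filter_subset _ _))
    exact ⟨a, a1, ((b3 _ _ _ a1.choose_spec.1).2 ξ m' c).2 a2⟩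

/-- The master term. -/
noncomputable def At.E : Tm K W :=
  Tm.mk' δ (fun ξ => {r | r ∈ lowv code δ r.1 ξ}) (by
    obtain ⟨β, -, hβ⟩ := H.smN (fun _ => δ) fun _ => trivial
    refine ⟨β, fun ξ m c => ?_⟩
    obtain ⟨β', b1, b2⟩ := H.vdep m
    have e : lowv code δ (m.res β) ξ = lowv code δ m ξ := by
      have : sq code δ (m.res β) = sq code δ m := by
        funext x j
        simp [sq, MC.res, hβ 0]
      simp only [lowv, this]
    simp only [mem_ofPred_eq, e]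
    exact (b2 ξ).mono (b1.trans (hβ 0)).le m c)

/-- The projection. -/
noncomputable def At.pi (u : Cond K W) (α : K) : Cond K W :=
  ⟨u.m.res δ, Tm.mk' α (lowv code δ u.m) ((H.vdep u.m).imp fun _ h => h.2)⟩

/-- Normal conditions below the master condition. -/
structure At.Nm (u : Cond K W) (α : K) : Prop where
  lt : α < δ
  norm : ∀ x, NormF (sq code δ u.m x) α
  le : u ≤ ⟨u.m, H.E⟩

theorem At.res_in (m : MC K W) : ∃ β < δ, (m.res δ).Bd β := by
  obtain ⟨b, b1, b2⟩ := H.good.smN.set H.good.ne (m.res δ).supp_cnt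
    (MC.bd_iff.1 (MC.bd_res δ m))
  exact ⟨b, b1, MC.bd_iff.2 b2⟩

theorem At.pi_in (u : Cond K W) {α : K} (h : α < δ) : (H.pi u α).In (Iio δ) := by
  obtain ⟨b, b1, b2⟩ := H.res_in u.m
  obtain ⟨c, c1, c2⟩ := H.vdep u.m
  refine ⟨max (max b c) α, max_lt (max_lt b1 c1) h,
    b2.mono (le_max_of_le_left (le_max_left _ _)), ?_⟩
  exact Tm.bd_mk' (h := (H.vdep u.m).imp fun _ h => h.2) (le_max_right _ _) fun ξ =>
    (c2 ξ).mono (le_max_of_le_left (le_max_right _ _))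

theorem At.pi_val (u : Cond K W) {α ξ : K} (h : ξ < α) :
    (H.pi u α).e.val ξ = lowv code δ u.m ξ := if_pos h

variable {H}

theorem At.le_master {u v : Cond K W} (h : u ≤ ⟨u.m, H.E⟩) (hv : v ≤ u) : v ≤ ⟨v.m, H.E⟩ :=
  ⟨le_rfl, (hv.trans h).2⟩

variable [WellFoundedLT W]

omit H in
theorem low_agree {m m' : MC K W} {α ξ : K} (h : m' ≤ m) (hm : ∀ x, NormF (sq code δ m x) α)
    (hξ : ξ < α) : Agree (m'.res δ, ⊤) (lowv code δ m ξ) (lowv code δ m' ξ) := by
  intro r hr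
  refine forall_congr' fun x => forall_congr' fun hx => exists_congr fun a => ?_
  rw [(hm x).sel_iff (fext_of_le h (hx.mono hr.1.1)) hξ]

omit H in
theorem low_eq {m m' : MC K W} {α ξ : K} (h : QExt m m') (hm : ∀ x, NormF (sq code δ m x) α)
    (hξ : ξ < α) : lowv code δ m' ξ = lowv code δ m ξ := by
  ext r
  refine forall_congr' fun x => forall_congr' fun _ => exists_congr fun a => ?_
  rw [(hm x).sel_iff (fext_of_qext h x) hξ]

theorem At.Nm.le_pi {u : Cond K W} {α : K} (h : H.Nm u α) : u ≤ H.pi u α := by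
  refine ⟨MC.le_res _ _, h.lt.le.trans h.le.2.1, (h.le.2.2.subset (Iio_subset_Iio h.lt.le)).imp ?_⟩
  intro t ht ξ hξ h1
  refine Ag.trans (Agree.ag fun r hr => ?_) (h1 hξ)
  rw [H.pi_val (α := α) u hξ, At.E, Tm.mk'_val (lt_trans hξ h.lt)]
  exact low_agree (hr.trans ht).1 h.norm hξ r ⟨MC.le_res _ _, le_top⟩

omit [WellFoundedLT W] in
theorem At.Nm.len_le {u v : Cond K W} {α α' : K} (h : H.Nm u α) (h' : H.Nm v α') (hv : v ≤ u) :
    α ≤ α' :=
  let ⟨x, hx⟩ := (v.m.res δ).cons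
  (h.norm x).le (h'.norm x) (fext_of_le hv.1 hx)

theorem At.Nm.pi_mono {u v : Cond K W} {α α' : K} (h : H.Nm u α) (h' : H.Nm v α') (hv : v ≤ u) :
    H.pi v α' ≤ H.pi u α := by
  refine ⟨MC.res_mono _ hv.1, h.len_le h' hv, LF.of_ag fun ξ hξ => ?_⟩
  rw [H.pi_val (α := α) u hξ, H.pi_val v (lt_of_lt_of_le hξ (h.len_le h' hv))]
  exact (low_agree hv.1 h.norm hξ).ag

omit [WellFoundedLT W] in
/-- Filling the gaps at `δ`. -/
theorem At.fill (m : MC K W) {d : K} (hd : d < δ) : ∃ (m' : MC K W) (η : W), m'.p = m.p ∧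
    QExt m m' ∧ m'.res δ = m.res δ ∧ (∀ x j, sq code δ m x j ≠ none → j < η) ∧
      ∀ x, sq code δ m' x = fillF (sq code δ m x) η (code d) := by
  obtain ⟨η, hη⟩ := H.cof _ (m.cnt.image Prod.snd)
  refine ⟨⟨m.p, fun j => if j.1 = δ ∧ j.2 ≤ η then (m.q j).or (some fun _ => d) else m.q j,
    m.cons, (m.cnt.union ((countable_singleton δ).prod (H.cnt η))).mono fun j hj => ?_,
    fun j φ hj => ?_⟩, η, rfl, fun j φ hj => by simp [hj], ?_,
    fun x j hj => hη _ ⟨(δ, j), sq_none.1 hj, rfl⟩, fun x => funext fun j => ?_⟩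
  · simp only [mem_ofPred_eq] at hj
    split_ifs at hj with h
    exacts [Or.inr h, Or.inl hj]
  · split_ifs at hj with h
    · cases h1 : m.q j with
      | none =>
        rw [h1] at hj
        cases hj
        exact Valid.const (h.1 ▸ hd)
      | some ψ =>
        rw [h1] at hj
        cases hj
        exact m.ok j _ h1
    · exact m.ok j φ hj
  · ext1
    · rfl
    · funext j
      simp only [MC.res]
      split_ifs with h1 h2
      exacts [(h1.ne h2.1).elim, rfl, rfl]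
  · simp only [sq, fillF, true_and]
    split_ifs
    · cases m.q (δ, j) <;> rfl
    · rfl

omit [WellFoundedLT W] in
/-- Every condition below the master condition has a literal normal extension. -/
theorem At.ext {u : Cond K W} (h : u ≤ ⟨u.m, H.E⟩) :
    ∃ v α, H.Nm v α ∧ v ≤ u ∧ u.Ext v ∧ v.m.p = u.m.p := by
  obtain ⟨β, b1, -, b3⟩ := H.bound u.m
  obtain ⟨d, d1, d2⟩ := H.c2 _ β b1 (Tm.bd_nil β)
  obtain ⟨m, η, a1, a2, -, a4, a5⟩ := H.fill u.m d1
  have h1 : u.Ext ⟨m, u.e⟩ := ⟨a2, TExt.refl _⟩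
  refine ⟨⟨m, u.e⟩, β, ⟨b1, fun x => ?_, At.le_master h (h1.le a1.ge)⟩, h1.le a1.ge, h1, a1⟩
  rw [a5, d2]
  exact norm_fill (b := Tm.nil β) (a4 x) fun j a ha => (b3 x j a ha).1

/-- Lifting of a condition below the projection. -/
theorem At.Nm.lift {u l : Cond K W} {α : K} (h : H.Nm u α) (hl : l.In (Iio δ))
    (hle : l ≤ H.pi u α) : ∃ v, H.Nm v l.e.len ∧ v ≤ u ∧ upP δ v.m = upP δ u.m ∧ v.m.res δ = l.m ∧
      H.pi v l.e.len ≤ l ∧ (∀ ξ < α, lowv code δ v.m ξ = lowv code δ u.m ξ) ∧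
      ∀ ξ, α ≤ ξ → ξ < l.e.len → lowv code δ v.m ξ = l.e.val ξ := by
  obtain ⟨β, b1, b2⟩ := hl
  obtain ⟨d, d1, d2⟩ := H.c2 _ β b1 b2.2
  have b3 : l.m.Bd δ := b2.1.mono (le_of_lt b1)
  have hc := MC.cons_union b3 hle.1.1
  obtain ⟨m, η, a1, a2, a3, a4, a5⟩ := H.fill (MC.amal δ l.m u.m hc) d1
  have e : sq code δ (MC.amal δ l.m u.m hc) = sq code δ u.m := by
    funext x j
    simp [sq, MC.amal]
  rw [e] at a4 a5
  rw [d2] at a5
  have h1 : (⟨m, u.e⟩ : Cond K W) ≤ u :=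
    Cond.le_of_text ((a2.le a1.ge).trans (MC.amal_le_right hle.1 hc)) (TExt.refl _)
  have h2 : m.res δ = l.m := a3.trans (MC.res_amal b3 hle.1.1 hc)
  have h3 : ∀ ξ < α, lowv code δ m ξ = lowv code δ u.m ξ := by
    intro ξ hξ
    ext r
    refine forall_congr' fun x => forall_congr' fun _ => exists_congr fun a => ?_
    rw [a5, (h.norm x).sel_iff (fext_fill _ _ _) hξ]
  have h4 : ∀ ξ, α ≤ ξ → ξ < l.e.len → lowv code δ m ξ = l.e.val ξ := by
    intro ξ c1 c2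
    ext r
    simp only [lowv, mem_ofPred_eq, a5, fun x a => sel_fill (a := a) (a4 x) (h.norm x).len c1 c2,
      exists_eq_left]
    exact ⟨fun h' => let ⟨x, hx⟩ := r.1.cons; h' x hx, fun h' _ _ => h'⟩
  refine ⟨⟨m, u.e⟩, ⟨b2.2.1.trans_lt b1, fun x => ?_, At.le_master h.le h1⟩, h1, ?_, h2,
    ⟨h2.le, le_rfl, ?_⟩, h3, h4⟩
  · rw [a5]
    exact norm_fill (a4 x) fun j a ha => ((h.norm x).len j a ha).trans hle.2.1
  · ext a
    simp only [mem_upP, a1, MC.amal, Finset.mem_union]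
    exact ⟨fun h' => ⟨h'.1.resolve_left fun h'' => h'.2 (b3.1 a h''), h'.2⟩,
      fun h' => ⟨Or.inr h'.1, h'.2⟩⟩
  · refine (hle.2.2.mono (Prod.mk_le_mk.2 ⟨h2.le, le_rfl⟩)).imp fun t _ ξ hξ h5 => ?_
    rw [H.pi_val _ hξ]
    by_cases h6 : ξ < α
    · rw [h3 ξ h6, ← H.pi_val u h6]
      exact (h5 h6).symm
    · exact Ag.of_eq _ (h4 ξ (not_lt.1 h6) hξ).symm

/-- Literal extension with the old finite part. -/
def MC.lit (m m' : MC K W) : MC K W := (m.pur m').setP m.p m.cons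

/-- Grafting: the new part of the projected term follows `v` inside the finite part of `v`
and follows a reference term outside. -/
theorem At.Nm.graft {u v : Cond K W} {α α' β : K} (h : H.Nm u α) (h' : H.Nm v α') (hv : v ≤ u)
    {ρ : Tm K W} (hβ : β < δ) (hρ : ρ.Bd β) (hl : ρ.len = α') :
    ∃ w, H.Nm w α' ∧ u.Ext w ∧ w.m.p = u.m.p ∧ w.m.res δ = (u.m.res δ).lit (v.m.res δ) ∧
      (∀ w' ≤ w, v.m.p ⊆ w'.m.p → w' ≤ v) ∧
      (∀ ξ < α', ∀ r : MB K W, (v.m.res δ).p ⊆ r.1.p →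
        (r ∈ lowv code δ w.m ξ ↔ r ∈ lowv code δ v.m ξ)) ∧
      ∀ ξ, α ≤ ξ → ξ < α' → ∀ r : MB K W, (∀ x, Sat r.1.p x → ¬ Sat (v.m.res δ).p x) →
        (r ∈ lowv code δ w.m ξ ↔ r ∈ ρ.val ξ) := by
  subst hl
  obtain ⟨d, d1, d2⟩ := H.c2 _ β hβ hρ
  obtain ⟨d0, e1, e2⟩ := H.c2 _ α h.lt (Tm.bd_nil α)
  let mask : (Pt K → K) → Pt K → K := fun φ x => if Sat (v.m.res δ).p x then φ x else d0
  have hmask : ∀ φ, Valid δ φ → Valid δ (mask φ) := by
    intro φ hφ
    obtain ⟨S, s1, s2, s3⟩ := hφ.dep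
    obtain ⟨Ξ, t1, t2⟩ := sup_self (v.m.res δ).p
    refine ⟨(hφ.rng.insert d0).mono ?_, fun x => ?_, S ∪ (Ξ ∩ {a | a.1 < δ}),
      s1.union (t1.mono inter_subset_left), fun a ha => ha.elim (s2 a) fun h => h.2,
      fun x y hxy => ?_⟩
    · rintro _ ⟨x, rfl⟩
      simp only [mask]
      split_ifs
      exacts [Or.inr ⟨x, rfl⟩, Or.inl rfl]
    · simp only [mask]
      split_ifs
      exacts [hφ.lt x, e1]
    · have : Sat (v.m.res δ).p x ↔ Sat (v.m.res δ).p y :=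
        forall₂_congr fun a ha => by rw [hxy a.1 (Or.inr ⟨t2 a ha, (MC.mem_res_p.1 ha).2⟩)]
      simp only [mask, this, s3 x y fun a ha => hxy a (Or.inl ha)]
  let mm : MC K W := ⟨u.m.p, fun j => (u.m.q j).or (if j.1 = δ then (v.m.q j).map mask else v.m.q j),
    u.m.cons, v.m.cnt.mono fun j hj => by
      simp only [mem_ofPred_eq] at hj ⊢
      intro h1
      by_cases h2 : u.m.q j = none
      · simp [h1, h2] at hj
      · exact MC.ne_none_of_le hv.1 h2 h1, fun j φ hj => by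
      cases h1 : u.m.q j with
      | some ψ =>
        rw [h1] at hj
        cases hj
        exact u.m.ok j _ h1
      | none =>
        rw [h1, Option.none_or] at hj
        split_ifs at hj with h2
        · obtain ⟨ψ, h3, rfl⟩ := Option.map_eq_some_iff.1 hj
          exact h2 ▸ hmask ψ (h2 ▸ v.m.ok j ψ h3)
        · exact v.m.ok j φ hj⟩
  have m1 : QExt u.m mm := fun j φ hj => by simp [mm, hj]
  have m2 : ∀ x, Sat (v.m.res δ).p x → sq code δ mm x = sq code δ v.m x := by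
    intro x hx
    funext j
    cases h1 : u.m.q (δ, j) with
    | some ψ =>
      rw [fext_of_le hv.1 hx j _ (sq_some.2 ⟨ψ, h1, rfl⟩)]
      simp [sq, mm, h1]
    | none => cases h2 : v.m.q (δ, j) <;> simp [sq, mm, h1, h2, mask, hx]
  have m3 : ∀ x, ¬ Sat (v.m.res δ).p x → ∀ j a, sq code δ mm x j = some a → a.len ≤ α := by
    intro x hx j a ha
    cases h1 : u.m.q (δ, j) with
    | some ψ => exact (h.norm x).len j a (by simpa [sq, mm, h1] using ha)
    | none =>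
      cases h2 : v.m.q (δ, j) with
      | none => simp [sq, mm, h1, h2] at ha
      | some ψ =>
        have : Tm.nil α = a := by simpa [sq, mm, h1, h2, mask, hx, e2] using ha
        exact this ▸ le_rfl
  obtain ⟨m, η, a1, a2, a3, a4, a5⟩ := H.fill mm d1
  rw [d2] at a5
  have h1 : u.Ext ⟨m, u.e.cat v.e⟩ := ⟨m1.trans a2, Tm.text_cat _ _⟩
  refine ⟨⟨m, u.e.cat v.e⟩, ⟨h'.lt, fun x => ?_, At.le_master h.le (h1.le a1.ge)⟩, h1, a1,
    a3.trans ?_, fun w' hw hp => ?_, fun ξ hξ r hr => ?_, fun ξ c1 c2 r hr => ?_⟩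
  · rw [a5]
    refine norm_fill (a4 x) fun j a ha => ?_
    by_cases hx : Sat (v.m.res δ).p x
    · exact (h'.norm x).len j a (m2 x hx ▸ ha)
    · exact (m3 x hx j a ha).trans (h.len_le h' hv)
  · ext1
    · rfl
    · funext j
      simp only [MC.res, MC.lit, MC.pur, MC.setP, mm]
      split_ifs with h2 h3
      exacts [(h2.ne h3).elim, rfl, rfl]
  · have h2 : w'.m ≤ v.m := by
      refine ⟨hp, fun j φ hj => ?_⟩
      have : ∃ ψ, mm.q j = some ψ ∧ ∀ x, Sat v.m.p x → ψ x = φ x := by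
        cases h3 : u.m.q j with
        | some ψ =>
          obtain ⟨φ', h4, h5⟩ := hv.1.2 j ψ h3
          rw [hj] at h4
          cases h4
          exact ⟨ψ, m1 j ψ h3, fun x hx => (h5 x hx).symm⟩
        | none =>
          by_cases h4 : j.1 = δ
          · exact ⟨mask φ, by simp [mm, h3, h4, hj], fun x hx =>
              if_pos (hx.mono (Finset.filter_subset _ _))⟩
          · exact ⟨φ, by simp [mm, h3, h4, hj], fun _ _ => rfl⟩
      obtain ⟨ψ, h3, h4⟩ := this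
      obtain ⟨χ, h5, h6⟩ := hw.1.2 j ψ (a2 j ψ h3)
      exact ⟨χ, h5, fun x hx => (h6 x hx).trans (h4 x (hx.mono hp))⟩
    exact le_trans (b := ⟨w'.m, u.e.cat v.e⟩) ⟨le_rfl, hw.2⟩ (Cond.cat_le hv h2)
  · refine forall_congr' fun x => forall_congr' fun hx => exists_congr fun a => ?_
    rw [a5, m2 x (hx.mono hr), (h'.norm x).sel_iff (fext_fill _ _ _) hξ]
  · obtain ⟨x0, hx0⟩ := r.1.cons
    refine ⟨fun h2 => ?_, fun h2 x hx => ⟨ρ, ?_, h2⟩⟩
    · obtain ⟨a, b1, b2⟩ := h2 x0 hx0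
      rw [a5, sel_fill (a4 x0) (m3 x0 (hr x0 hx0)) c1 c2] at b1
      exact b1 ▸ b2
    · rw [a5, sel_fill (a4 x) (m3 x (hr x hx)) c1 c2]

end Pool.Agent.Lib.MP_6993b6_lc
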