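import Mathlib
import Pool.Agent.Lib.MP_6993b6_lc.Up

/-!
The limit of a binary tree of conditions along a column of the Cohen part.
-/

namespace Pool.Agent.Lib.MP_6993b6_lc

open Set Classical

variable {K W : Type} [LinearOrder K]

def EqN (n : ℕ) (z z' : ℕ → Bool) : Prop := ∀ k < n, z k = z' k

theorem EqN.symm {n : ℕ} {z z' : ℕ → Bool} (h : EqN n z z') : EqN n z' z :=
  fun k hk => (h k hk).symm

theorem EqN.trans {n : ℕ} {z z' z'' : ℕ → Bool} (h : EqN n z z') (h' : EqN n z' z'') :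
    EqN n z z'' := fun k hk => (h k hk).trans (h' k hk)

theorem EqN.mono {n k : ℕ} {z z' : ℕ → Bool} (h : EqN n z z') (hk : k ≤ n) : EqN k z z' :=
  fun i hi => h i (hi.trans_le hk)

/-- The column `γ` of a point. -/
def col (γ : K) (x : Pt K) : ℕ → Bool := fun k => x (γ, k)

/-- The finite condition that fixes the first `n` bits of the column `γ`. -/
noncomputable def colP (γ : K) (n : ℕ) (z : ℕ → Bool) : FS K :=
  (Finset.range n).image fun k => ((γ, k), z k)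

theorem sat_colP {γ : K} {n : ℕ} {z : ℕ → Bool} {x : Pt K} :
    Sat (colP γ n z) x ↔ EqN n (col γ x) z := by
  simp [Sat, colP, EqN, col]

theorem mem_colP {γ : K} {n : ℕ} {z : ℕ → Bool} {a : (K × ℕ) × Bool} (h : a ∈ colP γ n z) :
    a.1.1 = γ := by
  obtain ⟨k, -, rfl⟩ := Finset.mem_image.1 h
  rfl

theorem range_cnt {T : Type} (U : ℕ → (ℕ → Bool) → T) (dep : ∀ n z z', EqN n z z' → U n z = U n z') :
    (range fun a : ℕ × (ℕ → Bool) => U a.1 a.2).Countable := by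
  refine (countable_range fun a : ℕ × List Bool => U a.1 fun k => a.2.getD k false).mono ?_
  rintro _ ⟨⟨n, z⟩, rfl⟩
  exact ⟨(n, List.ofFn fun i : Fin n => z i), dep _ _ _ fun k hk => by simp [hk]⟩

variable [LinearOrder W] [WellFoundedLT W] {code : K → Tm K W} {δ : K} {H : At code δ}

theorem At.lim (U : ℕ → (ℕ → Bool) → Cond K W) (α : ℕ → K) (m : ℕ → MC K W) (p0 : FS K)
    (dep : ∀ n z z', EqN n z z' → U n z = U n z') (ext : ∀ n z, (U n z).Ext (U (n + 1) z))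
    (hp : ∀ n z, (U n z).m.p = p0) (hm : ∀ n z, (U n z).m.res δ = m n)
    (nm : ∀ n z, H.Nm (U n z) (α n)) {αω : K} (h1 : αω < δ) (h2 : ∀ n, α n ≤ αω)
    (h3 : ∀ ξ < αω, ∃ n, ξ < α n) {mω : MC K W} (h4 : mω.p = (m 0).p) (h5 : ∀ n, QExt (m n) mω)
    (h6 : mω.Bd δ) {γ : K} (hγ : γ < δ) :
    ∃ w, H.Nm w αω ∧ w.m.p = p0 ∧ w.m.res δ = mω ∧
      (∀ n z, ∀ v ≤ w, (∀ x, Sat v.m.p x → EqN n (col γ x) z) → v ≤ U n z) ∧
      ∀ n z, ∀ ξ < α n, ∀ r : MB K W, (∀ x, Sat r.1.p x → EqN n (col γ x) z) →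
        (r ∈ lowv code δ w.m ξ ↔ r ∈ lowv code δ (U n z).m ξ) := by
  have hR := range_cnt U dep
  set R := range fun a : ℕ × (ℕ → Bool) => U a.1 a.2
  have hU : ∀ n z, U n z ∈ R := fun n z => ⟨(n, z), rfl⟩
  choose mz _ z2 z3 using fun z => MC.exists_union (fun n => (U n z).m) fun n => (ext n z).1
  obtain ⟨d0, e1, e2⟩ := H.c2 _ _ (nm 0 fun _ => false).lt (Tm.bd_nil (α 0))
  let mix : K × W → Pt K → K := fun j x => ((mz (col γ x)).q j).elim d0 fun φ => φ x
  have mix1 : ∀ j x n φ, (U n (col γ x)).m.q j = some φ → mix j x = φ x := by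
    intro j x n φ h
    simp [mix, z2 _ n j φ h]
  have mix2 : ∀ j x, mix j x = d0 ∨ ∃ n φ, (U n (col γ x)).m.q j = some φ ∧ mix j x = φ x := by
    intro j x
    cases h : (mz (col γ x)).q j with
    | none => exact Or.inl (by simp [mix, h])
    | some φ =>
      obtain ⟨n, hn⟩ := z3 _ j φ h
      exact Or.inr ⟨n, φ, hn, by simp [mix, h]⟩
  have hmix : ∀ j : K × W, ¬ j.1 < δ → Valid j.1 (mix j) := by
    intro j hj
    have hS : ∀ u : Cond K W, ∃ S : Set (K × ℕ), S.Countable ∧ (∀ a ∈ S, a.1 < j.1) ∧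
        ∀ φ, u.m.q j = some φ → Dep S φ := by
      intro u
      cases h : u.m.q j with
      | none => exact ⟨∅, countable_empty, by simp, by simp⟩
      | some φ =>
        obtain ⟨S, s1, s2, s3⟩ := (u.m.ok j φ h).dep
        exact ⟨S, s1, s2, fun ψ e => by cases e; exact s3⟩
    choose S s1 s2 s3 using hS
    refine ⟨((hR.biUnion (t := fun u _ => {d | ∃ φ, u.m.q j = some φ ∧ d ∈ range φ})
      fun u _ => ?_).insert d0).mono ?_, fun x => ?_, ({γ} ×ˢ univ) ∪ ⋃ u ∈ R, S u,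
      ((countable_singleton γ).prod countable_univ).union (hR.biUnion fun u _ => s1 u), ?_,
      fun x y hxy => ?_⟩
    · cases h : u.m.q j with
      | none => simp
      | some φ => exact (u.m.ok j φ h).rng.mono (by rintro _ ⟨_, e, h⟩; cases e; exact h)
    · rintro _ ⟨x, rfl⟩
      rcases mix2 j x with h | ⟨n, φ, a1, a2⟩
      · exact Or.inl h
      · exact Or.inr (mem_biUnion (hU n _) ⟨φ, a1, x, a2.symm⟩)
    · rcases mix2 j x with h | ⟨n, φ, a1, a2⟩
      · exact h ▸ e1.trans_le (not_lt.1 hj)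
      · exact a2 ▸ ((U n _).m.ok j φ a1).lt x
    · rintro a (⟨rfl, -⟩ | ha)
      · exact hγ.trans_le (not_lt.1 hj)
      · obtain ⟨u, -, hu⟩ := mem_iUnion₂.1 ha
        exact s2 u a hu
    · have e : col γ x = col γ y := funext fun k => hxy _ (Or.inl ⟨rfl, trivial⟩)
      cases h : (mz (col γ x)).q j with
      | none => simp [mix, ← e, h]
      | some φ =>
        obtain ⟨n, hn⟩ := z3 _ j φ h
        rw [mix1 j x n φ hn, mix1 j y n φ (e ▸ hn)]
        exact s3 _ φ hn x y fun a ha => hxy a (Or.inr (mem_biUnion (hU n _) ha))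
  let mw : MC K W := ⟨p0, fun j => if j.1 < δ then mω.q j else
      if ∃ u ∈ R, u.m.q j ≠ none then some (mix j) else none,
    hp 0 (fun _ => false) ▸ (U 0 _).m.cons,
    (mω.cnt.union (hR.biUnion fun u _ => u.m.cnt)).mono fun j hj => by
      simp only [mem_ofPred_eq] at hj
      split_ifs at hj with a1 a2
      · exact Or.inl hj
      · obtain ⟨u, b1, b2⟩ := a2
        exact Or.inr (mem_biUnion b1 b2)
      · exact (hj rfl).elim, fun j φ hj => by
      split_ifs at hj with a1 a2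
      · exact mω.ok j φ hj
      · cases hj
        exact hmix j a1⟩
  have w1 : ∀ n z j φ, (U n z).m.q j = some φ →
      ∃ ψ, mw.q j = some ψ ∧ ∀ x, EqN n (col γ x) z → ψ x = φ x := by
    intro n z j φ h
    by_cases hj : j.1 < δ
    · exact ⟨φ, by simp only [mw, if_pos hj]; exact h5 n j φ (hm n z ▸ MC.res_q_some.2 ⟨hj, h⟩),
        fun _ _ => rfl⟩
    · refine ⟨mix j, ?_, fun x hx => mix1 j x n φ (dep _ _ _ hx ▸ h)⟩
      simp only [mw, if_neg hj]
      exact if_pos ⟨_, hU n z, by simp [h]⟩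
  have w2 : ∀ n z x, EqN n (col γ x) z → FExt (sq code δ (U n z).m x) (sq code δ mw x) := by
    intro n z x hx j a ha
    obtain ⟨φ, a1, rfl⟩ := sq_some.1 ha
    obtain ⟨ψ, a2, a3⟩ := w1 n z _ φ a1
    exact sq_some.2 ⟨ψ, a2, by rw [a3 x hx]⟩
  have := hR.to_subtype
  choose β hβ using fun u : R => u.1.e.exists_bd
  obtain ⟨b0, -, hb0⟩ := H.smN.cnt ⟨δ, mem_univ _⟩ R β fun _ => trivial
  obtain ⟨b, -, hb⟩ := H.smN (fun _ => max b0 γ) fun _ => trivial
  have b1 : ∀ n z, (U n z).e.Bd b := fun n z =>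
    (hβ ⟨_, hU n z⟩).mono ((hb0 _).le.trans ((le_max_left _ _).trans (hb 0).le))
  let ew : Tm K W := Tm.mk' b (fun ξ => {r | ∀ x, Sat r.1.p x → ∃ n, r ∈ (U n (col γ x)).e.val ξ})
    ⟨b, fun ξ m' c => ⟨fun h x hx => by
      obtain ⟨y, hy, hxy⟩ := MC.exists_sat hx
      obtain ⟨n, hn⟩ := h y hy
      have e : col γ y = col γ x := funext fun k => hxy _ ((le_max_right _ _).trans_lt (hb 0))
      exact ⟨n, ((b1 _ _).2 ξ m' c).1 (e ▸ hn)⟩, fun h x hx => by
      obtain ⟨n, hn⟩ := h x (hx.mono (Finset.filter_subset _ _))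
      exact ⟨n, ((b1 _ _).2 ξ m' c).2 hn⟩⟩⟩
  have w3 : ∀ n z, ∀ v ≤ (⟨mw, ew⟩ : Cond K W), (∀ x, Sat v.m.p x → EqN n (col γ x) z) →
      v ≤ U n z := by
    intro n z v hv hx
    refine ⟨⟨hp n z ▸ hv.1.1, fun j φ hj => ?_⟩, (b1 n z).1.trans hv.2.1,
      (hv.2.2.subset (Iio_subset_Iio (b1 n z).1)).imp fun t ht ξ hξ h => ?_⟩
    · obtain ⟨ψ, a2, a3⟩ := w1 n z j φ hj
      obtain ⟨χ, a4, a5⟩ := hv.1.2 j ψ a2
      exact ⟨χ, a4, fun x h => (a5 x h).trans (a3 x (hx x h))⟩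
    · refine Ag.trans (Agree.ag fun r hr => ?_) (h hξ)
      have hr' : ∀ x, Sat r.1.p x → U n (col γ x) = U n z := fun x h =>
        dep _ _ _ (hx x (h.mono (hr.trans ht).1.1))
      simp only [ew]
      rw [Tm.mk'_val (lt_of_lt_of_le hξ (b1 n z).1)]
      refine ⟨fun h x h' => ⟨n, (hr' x h').symm ▸ h⟩, fun h => ?_⟩
      obtain ⟨x, h'⟩ := r.1.cons
      obtain ⟨k, hk⟩ := h x h'
      rw [← hr' x h'] at hξ ⊢
      have c1 := fun a b (h : a ≤ b) => text_chain (f := fun n => (U n (col γ x)).e)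
        (fun n => (ext n _).2) h
      rcases le_total k n with h7 | h7
      · by_cases h8 : ξ < (U k (col γ x)).e.len
        · rwa [(c1 k n h7).2 ξ h8]
        · rw [Tm.junk _ ξ (not_lt.1 h8)] at hk
          exact hk.elim
      · rwa [← (c1 n k h7).2 ξ hξ]
  refine ⟨⟨mw, ew⟩, ⟨h1, fun x => ⟨fun j j' hj h => ?_, fun j a h => ?_, fun ξ hξ => ?_⟩,
    At.le_master (nm 0 fun _ => false).le (w3 0 _ _ le_rfl fun _ _ _ h => (Nat.not_lt_zero _ h).elim)⟩,
    rfl, ?_, w3, fun n z ξ hξ r hr => ?_⟩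
  · rw [sq_none] at h ⊢
    simp only [mw, lt_irrefl, if_false] at h ⊢
    split_ifs at h with a1
    · obtain ⟨_, ⟨a, rfl⟩, a2⟩ := a1
      rw [if_pos ⟨_, hU a.1 a.2, sq_none.1 (((nm _ _).norm x).init j j' hj (sq_none.2 a2))⟩]
      simp
    · exact (h rfl).elim
  · obtain ⟨φ, a1, rfl⟩ := sq_some.1 h
    simp only [mw, lt_irrefl, if_false] at a1
    split_ifs at a1
    cases a1
    rcases mix2 (δ, j) x with h | ⟨n, φ, a1, a2⟩
    · rw [h, e2]
      exact h2 0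
    · rw [a2]
      exact (((nm n _).norm x).len j _ (sq_some.2 ⟨φ, a1, rfl⟩)).trans (h2 n)
  · obtain ⟨n, hn⟩ := h3 ξ hξ
    obtain ⟨j, a, a1, a2⟩ := ((nm n (col γ x)).norm x).cov ξ hn
    exact ⟨j, a, w2 n _ x (fun _ _ => rfl) j a a1, a2⟩
  · ext1
    · rw [h4, ← hm 0 fun _ => false]
      simp only [MC.res, mw, hp]
    · funext j
      simp only [MC.res, mw]
      split_ifs with a1
      · rfl
      · by_contra a2
        exact a1 (h6.2 j fun a3 => a2 a3.symm)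
  · refine forall_congr' fun x => forall_congr' fun hx => exists_congr fun a => ?_
    rw [((nm n z).norm x).sel_iff (w2 n z x (hr x hx)) hξ]

end Pool.Agent.Lib.MP_6993b6_lc
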