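import Mathlib
import Pool.Agent.Lib.MP_6993b6_lc.Lim

/-!
Splitting of conditions below the master condition.
-/

namespace Pool.Agent.Lib.MP_6993b6_lc

open Set Classical

/-! ### Cones -/

def Inc (c s : Co) : Prop := ¬ c ≤ s ∧ ¬ s ≤ c

def Co.snoc (s : Co) (i : Bool) : Co := ⟨s.l ++ [i]⟩

theorem Co.snoc_le (s : Co) (i : Bool) : s.snoc i ≤ s := List.prefix_append _ _

theorem Co.comp {a b c : Co} (h : c ≤ a) (h' : c ≤ b) : a ≤ b ∨ b ≤ a :=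
  (List.prefix_or_prefix_of_prefix h h').symm

theorem Inc.not_le {c s r : Co} (h : Inc c s) (h1 : r ≤ c) : ¬ r ≤ s :=
  fun h2 => (Co.comp h1 h2).elim h.1 h.2

theorem Inc.mono {c s c' s' : Co} (h : Inc c s) (h1 : c' ≤ c) (h2 : s' ≤ s) : Inc c' s' :=
  ⟨fun h3 => h.not_le h1 (h3.trans h2), fun h3 => h.not_le (h3.trans h1) h2⟩

theorem Co.cases (c s : Co) : ∃ c' ≤ c, c' ≤ s.snoc false ∨ c' ≤ s.snoc true ∨ Inc c' s := by
  by_cases h1 : s ≤ c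
  · exact ⟨s.snoc false, (s.snoc_le _).trans h1, Or.inl le_rfl⟩
  by_cases h2 : c ≤ s
  · obtain ⟨t, ht⟩ := h2
    cases t with
    | nil => exact (h1 ⟨[], by simp [← ht]⟩).elim
    | cons i t =>
      have : c ≤ s.snoc i := ⟨t, by simp [Co.snoc, ← ht]⟩
      cases i
      exacts [⟨c, le_rfl, Or.inl this⟩, ⟨c, le_rfl, Or.inr (Or.inl this)⟩]
  · exact ⟨c, le_rfl, Or.inr (Or.inr ⟨h2, h1⟩)⟩

theorem Co.exists_inc {c s : Co} (h : c.l.length < s.l.length) : ∃ c' ≤ c, Inc c' s := by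
  refine ⟨c.snoc (!s.l[c.l.length]), c.snoc_le _, ?_⟩
  have key : ¬ s ≤ c.snoc (!s.l[c.l.length]) := by
    intro h1
    have := List.IsPrefix.getElem (show c.l ++ [!s.l[c.l.length]] <+: s.l from h1)
      (i := c.l.length) (by simp)
    simp at this
  refine ⟨fun h1 => key ?_, key⟩
  have := List.IsPrefix.eq_of_length_le (show s.l <+: c.l ++ [!s.l[c.l.length]] from h1)
    (by simp; omega)
  exact le_of_eq (Co.ext this)

variable {K W : Type} [LinearOrder K] [LinearOrder W] [WellFoundedLT W] {code : K → Tm K W} {δ : K}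

omit [LinearOrder W] [WellFoundedLT W] in
theorem Cond.le_of_setP {v w : Cond K W} {p : FS K} {h : ∃ x, Sat p x} (h1 : w ≤ v.setP p h)
    (h2 : v.m.p ⊆ w.m.p) : w ≤ v := ⟨⟨h2, h1.1.2⟩, h1.2⟩

omit [WellFoundedLT W] in
theorem At.Nm.setP {H : At code δ} {u : Cond K W} {α : K} (h : H.Nm u α) {p : FS K}
    (hp : ∃ x, Sat p x) (h' : u.m.p ⊆ p) : H.Nm (u.setP p hp) α :=
  ⟨h.lt, h.norm, At.le_master h.le (Cond.setP_le hp h')⟩

/-- The data at `δ`. -/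
structure Loc (H : At code δ) (Lt : Cond K W → K × W → K × W → Prop) (p0 : Cond K W) (t : K × W)
    (u0 : Cond K W) (α0 : K) : Prop where
  tree : TreeSys Prod.fst Lt p0
  ht : t.1 = δ
  nm : H.Nm u0 α0
  le : H.pi u0 α0 ≤ p0
  node : Node Prod.fst Lt u0 t
  dec : ∀ l : Cond K W, l.In (Iio δ) → ∀ (s : K × W) β, s.1 < δ → (∃ q ≤ l, ∃ a, Lt q (β, a) s) →
    ∃ q ≤ l, q.In (Iio δ) ∧ ∃ a, Lt q (β, a) s

def Val (Lt : Cond K W → K × W → K × W → Prop) (t : K × W) (w : Cond K W) (β : K) (a : W) : Prop :=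
  ∀ w' ≤ w, ∀ a', Lt w' (β, a') t → a' = a

variable {H : At code δ} {Lt : Cond K W → K × W → K × W → Prop} {p0 u0 : Cond K W} {t : K × W}
  {α0 : K}

omit [LinearOrder W] [WellFoundedLT W] in
theorem Val.mono {w w' : Cond K W} {β : K} {a : W} (h : Val Lt t w β a) (h' : w' ≤ w) :
    Val Lt t w' β a := fun v hv => h v (hv.trans h')

/-- Twins: same part below `δ`, projected terms differ finitely and only in the cone `s`. -/
structure Twin (H : At code δ) (v v' : Cond K W) (α : K) (s : Co) : Prop where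
  nm : H.Nm v α
  nm' : H.Nm v' α
  res : v.m.res δ = v'.m.res δ
  lf : LF (v.m.res δ, ⊤) (lowv code δ v.m) (lowv code δ v'.m) (Iio α)
  conf : ∀ ξ < α, ∀ c, Inc c s → Ag (v.m.res δ, c) (lowv code δ v.m ξ) (lowv code δ v'.m ξ)

omit [WellFoundedLT W] in
theorem Twin.symm {v v' : Cond K W} {α : K} {s : Co} (h : Twin H v v' α s) : Twin H v' v α s :=
  ⟨h.nm', h.nm, h.res.symm, h.res ▸ h.lf.symm, fun ξ hξ c hc => h.res ▸ (h.conf ξ hξ c hc).symm⟩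

omit [WellFoundedLT W] in
theorem Twin.top {v v' : Cond K W} {α : K} (h1 : H.Nm v α) (h2 : H.Nm v' α)
    (h3 : v.m.res δ = v'.m.res δ)
    (h4 : LF (v.m.res δ, ⊤) (lowv code δ v.m) (lowv code δ v'.m) (Iio α)) : Twin H v v' α ⊤ :=
  ⟨h1, h2, h3, h4, fun _ _ _ hc => (hc.1 le_top).elim⟩

omit [WellFoundedLT W] in
theorem Twin.pi_le {v v' : Cond K W} {α : K} {s : Co} (h : Twin H v v' α s) :
    H.pi v α ≤ H.pi v' α := by
  refine ⟨h.res.le, le_rfl, h.lf.imp fun t _ ξ hξ h1 => ?_⟩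
  rw [H.pi_val (α := α) _ hξ, H.pi_val (α := α) _ hξ]
  exact (h1 hξ).symm

theorem Twin.copy {v v' w : Cond K W} {α α' : K} {s : Co} (h : Twin H v v' α s) (hw : w ≤ v)
    (hn : H.Nm w α') : ∃ w', w' ≤ v' ∧ upP δ w'.m = upP δ v'.m ∧ Twin H w w' α' s ∧
      ∀ ξ, α ≤ ξ → ξ < α' → lowv code δ w'.m ξ = lowv code δ w.m ξ := by
  obtain ⟨w', a1, a2, a3, a4, -, a6, a7⟩ := h.nm'.lift (H.pi_in w hn.lt)
    ((h.nm.pi_mono hn hw).trans h.pi_le)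
  have a8 : ∀ ξ, α ≤ ξ → ξ < α' → lowv code δ w'.m ξ = lowv code δ w.m ξ :=
    fun ξ h1 h2 => (a7 ξ h1 h2).trans (H.pi_val w h2)
  have key : ∀ ξ < α', ∀ r ≤ ((w.m.res δ, ⊤) : MB K W), (ξ < α → Ag r (lowv code δ v.m ξ)
      (lowv code δ v'.m ξ)) → Ag r (lowv code δ w.m ξ) (lowv code δ w'.m ξ) := by
    intro ξ h1 r hr h2
    by_cases h3 : ξ < α
    · rw [a6 ξ h3]
      exact ((low_agree hw.1 h.nm.norm h3).ag.mono hr).symm.trans (h2 h3)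
    · exact Ag.of_eq _ (a8 ξ (not_lt.1 h3) h1).symm
  have h1 := MC.res_mono δ hw.1
  exact ⟨w', a2, a3, ⟨hn, a1, a4.symm,
    (h.lf.mono (Prod.mk_le_mk.2 ⟨h1, le_rfl⟩)).imp fun r hr ξ hξ => key ξ hξ r hr,
    fun ξ hξ c hc => key ξ hξ _ ⟨le_rfl, le_top⟩ fun h2 =>
      (h.conf ξ h2 c hc).mono (Prod.mk_le_mk.2 ⟨h1, le_rfl⟩)⟩, a8⟩

def Split (H : At code δ) (Lt : Cond K W → K × W → K × W → Prop) (t : K × W) (P : FS K)
    (u : Cond K W) (s : Co) : Prop :=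
  ∃ v v' α β a a', v ≤ u ∧ v' ≤ u ∧ upP δ v.m = P ∧ upP δ v'.m = P ∧ Twin H v v' α s ∧ β < δ ∧
    Val Lt t v β a ∧ Val Lt t v' β a' ∧ a ≠ a'

def Pos (H : At code δ) (Lt : Cond K W → K × W → K × W → Prop) (t : K × W) (P : FS K)
    (u : Cond K W) (s : Co) : Prop :=
  ∀ v ≤ u, upP δ v.m = P → ∀ α, H.Nm v α → Split H Lt t P v s

omit [WellFoundedLT W] in
theorem Split.mono {P : FS K} {u u' : Cond K W} {s : Co} (h : Split H Lt t P u' s) (hu : u' ≤ u) :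
    Split H Lt t P u s :=
  let ⟨v, v', α, β, a, a', h1, h2, h3⟩ := h
  ⟨v, v', α, β, a, a', h1.trans hu, h2.trans hu, h3⟩

omit [WellFoundedLT W] in
theorem Pos.mono {P : FS K} {u u' : Cond K W} {s : Co} (h : Pos H Lt t P u s) (hu : u' ≤ u) :
    Pos H Lt t P u' s := fun v hv => h v (hv.trans hu)

/-- Pure decision: values can be decided without changing the upper Cohen part. -/
def PD (H : At code δ) (Lt : Cond K W → K × W → K × W → Prop) (t : K × W) (u : Cond K W) : Prop :=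
  ∀ v ≤ u, upP δ v.m = upP δ u.m → ∀ β < δ,
    ∃ v' α a, v' ≤ v ∧ upP δ v'.m = upP δ u.m ∧ H.Nm v' α ∧ Val Lt t v' β a

namespace Loc

variable (L : Loc H Lt p0 t u0 α0)
include L

theorem le0 {w : Cond K W} (h : w ≤ u0) : w ≤ p0 := h.trans (L.nm.le_pi.trans L.le)

theorem val_of_lt {w : Cond K W} (h : w ≤ u0) {β : K} {a : W} (h' : Lt w (β, a) t) :
    Val Lt t w β a := fun w' hw _ h1 =>
  (Prod.ext_iff.1 (L.tree.uniq w' (L.le0 (hw.trans h)) _ _ _ h1 (L.tree.mono _ _ _ _ h' hw) rfl)).2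

omit [WellFoundedLT W] in
theorem exists_lt {w : Cond K W} (h : w ≤ u0) {β : K} (hβ : β < δ) :
    ∃ w' ≤ w, ∃ a, Lt w' (β, a) t := by
  obtain ⟨r, h1, ⟨_, a⟩, rfl, h2⟩ := L.node w h β (L.ht ▸ hβ)
  exact ⟨r, h1, a, h2⟩

omit [WellFoundedLT W] in
theorem lt_of_val {w : Cond K W} (h : w ≤ u0) {β : K} (hβ : β < δ) {a : W} (h' : Val Lt t w β a) :
    ∃ w' ≤ w, Lt w' (β, a) t :=
  let ⟨w', h1, _, h2⟩ := L.exists_lt h hβ
  ⟨w', h1, h' w' h1 _ h2 ▸ h2⟩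

theorem exists_val {w : Cond K W} (h : w ≤ u0) {β : K} (hβ : β < δ) :
    ∃ v α a, v ≤ w ∧ H.Nm v α ∧ Val Lt t v β a := by
  obtain ⟨w', h1, a, h2⟩ := L.exists_lt h hβ
  obtain ⟨v, α, h3, h4, -⟩ := At.ext (At.le_master L.nm.le (h1.trans h))
  exact ⟨v, α, a, h4.trans h1, h3, (L.val_of_lt (h1.trans h) h2).mono h4⟩

theorem below {w : Cond K W} (h : w ≤ u0) {β β' : K} (h1 : β < β') (h2 : β' < δ) {b : W}
    (h3 : Val Lt t w β' b) : ∃ q ≤ w, Lt q (β', b) t ∧ ∃ a, Lt q (β, a) (β', b) := by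
  obtain ⟨v, a1, a2⟩ := L.lt_of_val h h2 h3
  obtain ⟨q, b1, ⟨_, a⟩, rfl, b2⟩ := L.tree.node v (L.le0 (a1.trans h)) _ _ a2 v le_rfl β h1
  exact ⟨q, b1.trans a1, L.tree.mono _ _ _ _ a2 b1, a, b2⟩

/-- Values on lower levels are determined below `δ`. -/
theorem det {u u' l : Cond K W} {α α' β β' : K} {a a' b : W} (h : u ≤ u0) (h' : u' ≤ u0)
    (hn : H.Nm u α) (hn' : H.Nm u' α') (hl : l.In (Iio δ)) (h1 : l ≤ H.pi u α)
    (h1' : l ≤ H.pi u' α') (h2 : β < β') (h3 : β' < δ) (h4 : Val Lt t u β' b)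
    (h4' : Val Lt t u' β' b) (h5 : ∀ v ≤ u, l.m.p ⊆ v.m.p → Val Lt t v β a)
    (h5' : ∀ v ≤ u', l.m.p ⊆ v.m.p → Val Lt t v β a') : a = a' := by
  obtain ⟨v, a1, a2, -, -, a3, -⟩ := hn.lift hl h1
  obtain ⟨q0, b1, -, b2⟩ := L.below (a2.trans h) h2 h3 (h4.mono a2)
  obtain ⟨q, c1, c2, c, c3⟩ := L.dec l hl (β', b) β h3 ⟨q0, b1.trans (a1.le_pi.trans a3), b2⟩
  have key : ∀ u α a, u ≤ u0 → H.Nm u α → l ≤ H.pi u α → Val Lt t u β' b →
      (∀ v ≤ u, l.m.p ⊆ v.m.p → Val Lt t v β a) → c = a := by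
    intro u α a h hn h1 h4 h5
    obtain ⟨w, d1, d2, -, -, d3, -⟩ := hn.lift c2 (c1.trans h1)
    have d4 := d1.le_pi.trans d3
    obtain ⟨w1, e1, e2⟩ := L.lt_of_val (d2.trans h) h3 (h4.mono d2)
    obtain ⟨w2, f1, f2⟩ := L.tree.trans w1 (L.le0 (e1.trans (d2.trans h))) _ _ _
      (L.tree.mono _ _ _ _ c3 (e1.trans d4)) e2
    exact h5 w d2 (d4.trans c1).1.1 w2 (f1.trans e1) c f2
  exact (key u α a h hn h1 h4 h5).symm.trans (key u' α' a' h' hn' h1' h4' h5')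

theorem exists_pd : ∃ u ≤ u0, PD H Lt t u := by
  by_contra hc
  push Not at hc
  let Ψ : FS K → Cond K W → Set (K × ℕ) → K → Prop := fun P v Ξ β =>
    (∃ x, Sat (u0.m.p ∪ P) x) → ∃ p' p'' a' a'', a' ≠ a'' ∧ Sup Ξ p' ∧ Sup Ξ p'' ∧ P ⊆ p' ∧
      P ⊆ p'' ∧ (∃ x, Sat p' x) ∧ (∃ x, Sat p'' x) ∧ (∀ a, a.1.1 < δ → (a ∈ p' ↔ a ∈ p'')) ∧
      (∀ v' ≤ v, p' ⊆ v'.m.p → Val Lt t v' β a') ∧ ∀ v' ≤ v, p'' ⊆ v'.m.p → Val Lt t v' β a''
  obtain ⟨v, Ξ, v1, v2, v3, -, v4⟩ := fusion (T := Unit) H.smN u0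
    (fun _ P v Ξ => ∃ β < δ, Ψ P v Ξ β) (by
      intro _ P v h1 h2
      by_cases hP : ∃ x, Sat (u0.m.p ∪ P) x
      swap
      · exact ⟨v, ∅, Cond.Ext.refl _, h2, countable_empty, α0, L.nm.lt, fun h => (hP h).elim⟩
      have a1 : v.setP _ hP ≤ v := Cond.setP_le _ (h2 ▸ Finset.subset_union_left)
      have a2 : v ≤ u0 := h1.le h2.ge
      have a3 := hc _ (a1.trans a2)
      unfold PD at a3
      push Not at a3
      obtain ⟨v0, b1, b2, β, b3, b4⟩ := a3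
      obtain ⟨v1, c1, c2, c3, -⟩ := Cond.exists_pur b1
      have c4 := c2.trans (b1.trans (a1.trans a2))
      obtain ⟨w1, -, i, d1, -, d2⟩ := L.exists_val c4 b3
      obtain ⟨v1', e1, e2, -, e3⟩ := Cond.exists_lit d1
      have f0 : (w1.m.res δ).p ∪ v1.m.p ⊆ w1.m.p :=
        Finset.union_subset (Finset.filter_subset _ _) d1.1.1
      have f1 : ∃ x, Sat ((w1.m.res δ).p ∪ v1.m.p) x := w1.m.cons.imp fun _ h => h.mono f0
      have f2 : v1'.setP _ f1 ≤ v1' := Cond.setP_le _ (e2 ▸ Finset.subset_union_right)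
      have f3 := f2.trans (e1.le e2.ge)
      obtain ⟨v2, α, g1, g2, -, g3⟩ := At.ext (At.le_master L.nm.le (f3.trans c4))
      have g4 := b4 v2 α i (g2.trans (f3.trans c2)) (by
        rw [← b2]
        ext a
        simp only [mem_upP, g3, Cond.setP, MC.setP, Finset.mem_union, MC.mem_res_p, c3]
        tauto) g1
      unfold Val at g4
      push Not at g4
      obtain ⟨w2, i1, j, i2, i3⟩ := g4
      have i4 := i1.trans g2
      obtain ⟨v3, j1, j2, -, j3⟩ := Cond.exists_lit i4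
      have k0 : (w1.m.res δ).p ⊆ (w2.m.res δ).p := fun a ha => MC.mem_res_p.2
        ⟨i4.1.1 (Finset.mem_union_left _ ha), (MC.mem_res_p.1 ha).2⟩
      obtain ⟨Ξ1, k1, k2⟩ := sup_self ((w2.m.res δ).p ∪ w1.m.p)
      obtain ⟨Ξ2, k3, k4⟩ := sup_self w2.m.p
      have k5 : P ⊆ v1.m.p := c3 ▸ Finset.subset_union_right.trans b1.1.1
      refine ⟨v3.setP _ u0.m.cons, Ξ1 ∪ Ξ2, c1.trans (e1.trans j1), rfl, k1.union k3, β, b3,
        fun _ => ⟨(w2.m.res δ).p ∪ w1.m.p, w2.m.p, i, j, i3.symm, k2.mono subset_union_left,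
          k4.mono subset_union_right, k5.trans (d1.1.1.trans Finset.subset_union_right),
          k5.trans (i4.trans f3).1.1, MC.cons_union (MC.bd_res δ _) k0, w2.m.cons,
          fun a ha => ⟨fun h => (Finset.mem_union.1 h).elim (fun h => (MC.mem_res_p.1 h).1)
            fun h => (MC.mem_res_p.1 (k0 (MC.mem_res_p.2 ⟨h, ha⟩))).1,
            fun h => Finset.mem_union_left _ (MC.mem_res_p.2 ⟨h, ha⟩)⟩,
          fun v' h h' => ?_, fun v' h h' => ?_⟩⟩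
      · have h3 := Finset.subset_union_right.trans h'
        exact d2.mono (e3 v' ((Cond.le_of_setP h (j2 ▸ f0.trans h3)).trans
          ((j1.le j2.ge).trans f2)) h3)
      · exact (L.val_of_lt (i4.trans (f3.trans c4)) i2).mono
          (j3 v' (Cond.le_of_setP h (j2 ▸ i4.1.1.trans h')) h')) (by
      rintro _ P v v' Ξ Ξ' ⟨β, hβ, h⟩ h1 - h2
      refine ⟨β, hβ, fun hP => ?_⟩
      obtain ⟨p', p'', a', a'', a1, a2, a3, a4, a5, a6, a7, a8, a9, a10⟩ := h hP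
      exact ⟨p', p'', a', a'', a1, a2.mono h2, a3.mono h2, a4, a5, a6, a7, a8,
        fun w hw => a9 w (hw.trans h1), fun w hw => a10 w (hw.trans h1)⟩)
  choose g g1 g2 using fun P : {P : FS K | Sup Ξ P} => v4 () P.1 P.2
  have := (sup_cnt v3).to_subtype
  obtain ⟨b, b1, b2⟩ := H.good.smN.cnt H.good.ne _ g g1
  have v5 : v ≤ u0 := v1.le v2.ge
  obtain ⟨w, α, i, w1, w2, w3⟩ := L.exists_val v5 b1
  obtain ⟨p', p'', a', a'', a1, a2, a3, a4, a5, a6, a7, a8, a9, a10⟩ :=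
    g2 ⟨_, sup_filter Ξ w.m.p⟩ (w.m.cons.imp fun x hx => sat_union.2
      ⟨hx.mono (w1.trans v5).1.1, hx.mono (Finset.filter_subset _ _)⟩)
  have c1 := cons_trace w.m.cons a6 a2 a4
  have c2 := cons_trace w.m.cons a7 a3 a5
  have d1 : w.setP _ c1 ≤ w := Cond.setP_le _ Finset.subset_union_left
  have d2 : w.setP _ c2 ≤ w := Cond.setP_le _ Finset.subset_union_left
  refine a1 (L.det (d1.trans (w1.trans v5)) (d2.trans (w1.trans v5))
    (w2.setP c1 Finset.subset_union_left) (w2.setP c2 Finset.subset_union_left)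
    (H.pi_in _ w2.lt) le_rfl (le_of_eq ?_) (b2 _) b1 (w3.mono d1) (w3.mono d2)
    (fun v' h _ => (a9 _ (d1.trans w1) Finset.subset_union_right).mono h)
    fun v' h _ => (a10 _ (d2.trans w1) Finset.subset_union_right).mono h)
  refine Cond.ext (MC.ext ?_ rfl) rfl
  ext a
  simp only [At.pi, MC.mem_res_p, Cond.setP, MC.setP, Finset.mem_union]
  exact and_congr_left fun h => by rw [a8 a h]

end Loc

variable {u1 : Cond K W}

theorem Split.join (hP : PD H Lt t u1) {u : Cond K W} {α : K} {s : Co} (hu : u ≤ u1)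
    (hp : upP δ u.m = upP δ u1.m) (hn : H.Nm u α) (h : Split H Lt t (upP δ u1.m) u s) :
    Split H Lt t (upP δ u1.m) u (s.snoc false) ∨ Split H Lt t (upP δ u1.m) u (s.snoc true) := by
  obtain ⟨v, v', α', β, a, a', a1, a2, a3, a4, a5, a6, a7, a8, a9⟩ := h
  let f : K → Set (MB K W) := fun ξ =>
    {r | if r.2 ≤ s.snoc true then r ∈ lowv code δ v'.m ξ else r ∈ lowv code δ v.m ξ}
  have f1 : ∀ ξ r, (r ∈ f ξ ↔ r ∈ lowv code δ v.m ξ) ∨ (r ∈ f ξ ↔ r ∈ lowv code δ v'.m ξ) := by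
    intro ξ r
    by_cases h : r.2 ≤ s.snoc true <;> simp [f, h]
  obtain ⟨b, b1, b2⟩ := H.vdep v.m
  obtain ⟨c, c1, c2⟩ := H.vdep v'.m
  obtain ⟨d, d1, d2⟩ := H.res_in v.m
  have f2 : ∀ ξ, VDep (max b c) (f ξ) := fun ξ m c' => by
    simp only [f, mem_ofPred_eq]
    split_ifs
    exacts [(c2 ξ).mono (le_max_right _ _) m c', (b2 ξ).mono (le_max_left _ _) m c']
  obtain ⟨w, e1, e2, e3, e4, -, e6, e7⟩ := hn.lift
    (l := ⟨v.m.res δ, Tm.mk' α' f ⟨_, f2⟩⟩) ⟨max (max (max b c) d) α',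
      max_lt (max_lt (max_lt b1 c1) d1) a5.nm.lt, d2.mono (le_max_of_le_left (le_max_right _ _)),
      Tm.bd_mk' (h := ⟨_, f2⟩) (le_max_right _ _) fun ξ =>
        (f2 ξ).mono (le_max_of_le_left (le_max_left _ _))⟩
    (le_trans (b := H.pi v α') ⟨le_rfl, le_rfl, a5.lf.imp fun r _ ξ hξ h => by
      rw [H.pi_val (α := α') _ hξ]
      exact ((h hξ).mix (f1 ξ)).trans (Ag.of_eq _ (Tm.mk'_val (h := ⟨_, f2⟩) hξ).symm)⟩
      (hn.pi_mono a5.nm a1))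
  have e8 : ∀ ξ, ¬ ξ < α → ξ < α' → lowv code δ w.m ξ = f ξ := fun ξ h1 h2 =>
    (e7 ξ (not_lt.1 h1) h2).trans (Tm.mk'_val (h := ⟨_, f2⟩) h2)
  have t1 : Twin H w v α' (s.snoc true) := by
    have key : ∀ ξ < α', ∀ r ≤ ((v.m.res δ, ⊤) : MB K W), Ag r (lowv code δ v.m ξ) (f ξ) →
        Ag r (lowv code δ v.m ξ) (lowv code δ w.m ξ) := by
      intro ξ h1 r hr h2
      by_cases h3 : ξ < α
      · rw [e6 ξ h3]
        exact ((low_agree a1.1 hn.norm h3).ag.mono hr).symm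
      · rwa [e8 ξ h3 h1]
    refine Twin.symm ⟨a5.nm, e1, e4.symm,
      a5.lf.imp fun r hr ξ hξ h => key ξ hξ r hr ((h hξ).mix (f1 ξ)),
      fun ξ hξ c hc => key ξ hξ _ ⟨le_rfl, le_top⟩ (Agree.ag fun r hr => ?_)⟩
    simp [f, hc.not_le hr.2]
  have t2 : Twin H w v' α' (s.snoc false) := by
    have key : ∀ ξ < α', ∀ r ≤ ((v'.m.res δ, ⊤) : MB K W), Ag r (lowv code δ v'.m ξ) (f ξ) →
        Ag r (lowv code δ v'.m ξ) (lowv code δ w.m ξ) := by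
      intro ξ h1 r hr h2
      by_cases h3 : ξ < α
      · rw [e6 ξ h3]
        exact ((low_agree a2.1 hn.norm h3).ag.mono hr).symm
      · rwa [e8 ξ h3 h1]
    refine Twin.symm ⟨a5.nm', e1, a5.res.symm.trans e4.symm,
      a5.symm.lf.imp fun r hr ξ hξ h => key ξ hξ r hr ((h hξ).mix fun r => (f1 ξ r).symm),
      fun ξ hξ c hc => key ξ hξ _ ⟨le_rfl, le_top⟩ (Ag.dense fun r hr => ?_)⟩
    obtain ⟨c', h1, h2 | h2 | h2⟩ := Co.cases r.2 s
    · exact (hc.not_le (h1.trans hr.2) h2).elim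
    · exact ⟨(r.1, c'), ⟨le_rfl, h1⟩, Agree.ag fun r' hr' => by simp [f, hr'.2.trans h2]⟩
    · exact ⟨(r.1, c'), ⟨le_rfl, h1⟩, ((a5.symm.conf ξ hξ c' h2).mono
        (Prod.mk_le_mk.2 ⟨hr.1, le_rfl⟩)).mix fun r => (f1 ξ r).symm⟩
  obtain ⟨w0, α2, i, g1, g2, g3, g4⟩ := hP w (e2.trans hu) (e3.trans hp) β a6
  by_cases h : i = a
  · obtain ⟨w', h1, h2, h3, -⟩ := t2.copy g1 g3
    exact Or.inl ⟨w0, w', α2, β, i, a', g1.trans e2, h1.trans a2, g2, h2.trans a4, h3, a6, g4,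
      a8.mono h1, h ▸ a9⟩
  · obtain ⟨w', h1, h2, h3, -⟩ := t1.copy g1 g3
    exact Or.inr ⟨w0, w', α2, β, i, a, g1.trans e2, h1.trans a1, g2, h2.trans a3, h3, a6, g4,
      a7.mono h1, h⟩

theorem Pos.len (hP : PD H Lt t u1) {u : Cond K W} {s : Co} (hu : u ≤ u1)
    (hp : upP δ u.m = upP δ u1.m) (h : Pos H Lt t (upP δ u1.m) u s) (n : ℕ) :
    ∃ v ≤ u, upP δ v.m = upP δ u1.m ∧ ∃ s' ≤ s, n ≤ s'.l.length ∧ Pos H Lt t (upP δ u1.m) v s' := by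
  induction n with
  | zero => exact ⟨u, le_rfl, hp, s, le_rfl, Nat.zero_le _, h⟩
  | succ n ih =>
    obtain ⟨v, a1, a2, s', a3, a4, a5⟩ := ih
    by_contra hc
    push Not at hc
    have h1 := hc v a1 a2 _ ((s'.snoc_le false).trans a3) (by simpa [Co.snoc] using a4)
    unfold Pos at h1
    push Not at h1
    obtain ⟨v1, b1, b2, _, -, b3⟩ := h1
    have h2 := hc v1 (b1.trans a1) b2 _ ((s'.snoc_le true).trans a3) (by simpa [Co.snoc] using a4)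
    unfold Pos at h2
    push Not at h2
    obtain ⟨v2, c1, c2, α, c3, c4⟩ := h2
    exact (Split.join hP (c1.trans (b1.trans (a1.trans hu))) c2 c3
      (a5 v2 (c1.trans b1) c2 α c3)).elim (fun h => b3 (h.mono c1)) c4

/-- Splitting of two twins. -/
theorem Twin.split (hP : PD H Lt t u1) {v0 v1 : Cond K W} {α : K} {s : Co} (h : Twin H v0 v1 α ⊤)
    (h0 : v0 ≤ u1) (h1 : v1 ≤ u1) (p0 : upP δ v0.m = upP δ u1.m) (p1 : upP δ v1.m = upP δ u1.m)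
    (hs : Pos H Lt t (upP δ u1.m) v0 s) (n : ℕ) :
    ∃ w0 w1 α' s' β a a', w0 ≤ v0 ∧ w1 ≤ v1 ∧ upP δ w0.m = upP δ u1.m ∧ upP δ w1.m = upP δ u1.m ∧
      s' ≤ s ∧ n ≤ s'.l.length ∧ Pos H Lt t (upP δ u1.m) w0 s' ∧ Twin H w1 w0 α' ⊤ ∧
      (∀ ξ, α ≤ ξ → ξ < α' → ∀ c, Inc c s' →
        Ag (w1.m.res δ, c) (lowv code δ w1.m ξ) (lowv code δ w0.m ξ)) ∧
      β < δ ∧ Val Lt t w0 β a ∧ Val Lt t w1 β a' ∧ a ≠ a' := by
  obtain ⟨v, a1, a2, s', a3, a4, a5⟩ := hs.len hP h0 p0 n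
  obtain ⟨u, α1, b1, b2, -, b3⟩ := At.ext (At.le_master h.nm.le a1)
  obtain ⟨v', v'', α2, β, a', a'', c1, c2, c3, c4, c5, c6, c7, c8, c9⟩ :=
    a5 u b2 (by rw [← a2, upP, upP, b3]) α1 b1
  have d0 := b2.trans a1
  obtain ⟨v1', d1, d2, d3, d4⟩ := h.copy (c1.trans d0) c5.nm
  obtain ⟨w1, α3, b, e1, e2, e3, e4⟩ := hP v1' (d1.trans h1) (d2.trans p1) β c6
  obtain ⟨w', f1, f2, f3, f4⟩ := d3.symm.copy e1 e3
  obtain ⟨w'', g1, g2, g3, -⟩ := c5.copy f1 f3.nm'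
  have key : ∀ ξ, α ≤ ξ → ξ < α3 → ∀ c,
      Ag (w1.m.res δ, c) (lowv code δ w1.m ξ) (lowv code δ w'.m ξ) := by
    intro ξ k1 k2 c
    by_cases k3 : ξ < α2
    · have k4 := (low_agree f1.1 c5.nm.norm k3).ag
      rw [← f3.res, ← d4 ξ k1 k3] at k4
      exact ((low_agree e1.1 d3.nm'.norm k3).ag.symm.trans k4).mono ⟨le_rfl, le_top⟩
    · exact Ag.of_eq _ (f4 ξ (not_lt.1 k3) k2).symm
  by_cases k : a' = b
  · exact ⟨w'', w1, α3, s', β, a'', b, g1.trans (c2.trans d0), e1.trans d1, g2.trans c4, e2, a3, a4,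
      a5.mono (g1.trans (c2.trans b2)),
      Twin.top e3 g3.nm' (f3.res.trans g3.res) (f3.lf.trans (f3.res ▸ g3.lf)),
      fun ξ k1 k2 c hc => (key ξ k1 k2 c).trans (f3.res ▸ g3.conf ξ k2 c hc), c6, c8.mono g1, e4,
      k ▸ c9.symm⟩
  · exact ⟨w', w1, α3, s', β, a', b, f1.trans (c1.trans d0), e1.trans d1, f2.trans c3, e2, a3, a4,
      a5.mono (f1.trans (c1.trans b2)), f3, fun ξ k1 k2 c _ => key ξ k1 k2 c, c6, c7.mono f1, e4,
      k⟩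

end Pool.Agent.Lib.MP_6993b6_lc
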