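import Mathlib
import Pool.Agent.Lib.MP_6993b6_lc.Split

/-!
The binary tree of conditions, with the changes confined to shrinking cones, and the branch
below `δ`.
-/

namespace Pool.Agent.Lib.MP_6993b6_lc

open Set Classical

theorem exists_dep {T : Type} (n : ℕ) (Q : (ℕ → Bool) → T → Prop) (h : ∀ z, ∃ w, Q z w)
    (inv : ∀ z z' w, EqN n z z' → Q z w → Q z' w) :
    ∃ f : (ℕ → Bool) → T, (∀ z, Q z (f z)) ∧ ∀ z z', EqN n z z' → f z = f z' := by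
  choose g hg using h
  refine ⟨fun z => g fun k => if k < n then z k else false, fun z =>
    inv _ _ _ (fun k hk => if_pos hk) (hg _), fun z z' h => congrArg g (funext fun k => ?_)⟩
  split_ifs with hk
  exacts [h k hk, rfl]

variable {K W : Type} [LinearOrder K]

theorem MC.lit_le {m m1 m' : MC K W} (h : m1 ≤ m) (h1 : m' ≤ m.lit m1) (h2 : m1.p ⊆ m'.p) :
    m' ≤ m1 := le_trans (b := m.pur m1) ⟨h2, h1.2⟩ (MC.pur_le h)

theorem MC.qext_lit (m m1 : MC K W) : QExt m (m.lit m1) := MC.qext_pur m m1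

theorem exists_ext (r : MB K W) {p : FS K} {x : Pt K} (h : Sat r.1.p x) (h' : Sat p x) :
    ∃ r' ≤ r, r'.2 = r.2 ∧ p ⊆ r'.1.p :=
  ⟨(r.1.setP _ ⟨x, sat_union.2 ⟨h, h'⟩⟩, r.2), ⟨MC.setP_le _ Finset.subset_union_left, le_rfl⟩, rfl,
    Finset.subset_union_right⟩

theorem exists_col (r : MB K W) (γ : K) (n : ℕ) :
    ∃ r' ≤ r, r'.2 = r.2 ∧ ∃ z, ∀ x, Sat r'.1.p x → EqN n (col γ x) z := by
  obtain ⟨x, hx⟩ := r.1.cons
  obtain ⟨r', h1, h2, h3⟩ := exists_ext r hx (sat_colP (γ := γ) (n := n).2 fun _ _ => rfl)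
  exact ⟨r', h1, h2, _, fun y hy => sat_colP.1 (hy.mono h3)⟩

/-- A stage of the construction. -/
structure SS (K W : Type) [LinearOrder K] where
  n : ℕ
  α : K
  m : MC K W
  ρ : Tm K W
  U : (ℕ → Bool) → Cond K W
  C : Pt K → (ℕ → Bool) → Co
  Ξ : Set (K × ℕ)

variable [LinearOrder W] [WellFoundedLT W] {code : K → Tm K W} {δ : K} (H : At code δ)
  (Lt : Cond K W → K × W → K × W → Prop) (t : K × W) (u1 : Cond K W)

structure SInv (s : SS K W) : Prop where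
  nm : ∀ z, H.Nm (s.U z) s.α
  le : ∀ z, s.U z ≤ u1
  p : ∀ z, (s.U z).m.p = u1.m.p
  res : ∀ z, (s.U z).m.res δ = s.m
  len : s.ρ.len = s.α
  bd : ∃ β < δ, s.ρ.Bd β
  lf : ∀ z, LF (s.m, ⊤) s.ρ.val (lowv code δ (s.U z).m) (Iio s.α)
  depU : ∀ z z', EqN s.n z z' → s.U z = s.U z'
  depC : ∀ x z z', EqN s.n z z' → s.C x z = s.C x z'
  loc : ∀ x z, ∃ p : FS K, Sat p x ∧ (∀ a ∈ p, a.1.1 < δ) ∧ (∀ x', Sat p x' → s.C x' z = s.C x z) ∧
    ∀ v ≤ s.U z, p ⊆ v.m.p → Pos H Lt t (upP δ u1.m) v (s.C x z)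
  cnt : s.Ξ.Countable
  low : ∀ a ∈ s.Ξ, a.1 < δ

def toF (l : List Bool) : ℕ → Bool := fun k => l.getD k false

structure SStep (s : SS K W) (τ : FS K × List Bool × List Bool) (s' : SS K W) : Prop where
  n : s'.n = s.n + 1
  sub : s.Ξ ⊆ s'.Ξ
  ext : ∀ z, (s.U z).Ext (s'.U z)
  text : TExt s.ρ s'.ρ
  qext : QExt s.m s'.m
  cle : ∀ x z, s'.C x z ≤ s.C x z
  diff : ∀ z ξ, s.α ≤ ξ → ξ < s'.α → ∀ r ≤ ((s'.m, ⊤) : MB K W),
    (∀ x, Sat r.1.p x → s.n ≤ (s'.C x z).l.length → Inc r.2 (s'.C x z)) →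
      Ag r (s'.ρ.val ξ) (lowv code δ (s'.U z).m ξ)
  task : ∃ β < δ, (∀ a ∈ τ.1, a.1.1 < δ) → (∃ x, Sat (u1.m.p ∪ τ.1) x) →
    ¬ EqN s.n (toF τ.2.1) (toF τ.2.2) → ∃ p' a a', Sup s'.Ξ p' ∧ τ.1 ⊆ p' ∧ (∃ x, Sat p' x) ∧
      a ≠ a' ∧ (∀ v ≤ s'.U (toF τ.2.1), p' ⊆ v.m.p → Val Lt t v β a) ∧
      ∀ v ≤ s'.U (toF τ.2.2), p' ⊆ v.m.p → Val Lt t v β a'

variable {H Lt t u1}

theorem silver_step (hP : PD H Lt t u1) (s : SS K W) (τ : FS K × List Bool × List Bool)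
    (I : SInv H Lt t u1 s) : ∃ s', SInv H Lt t u1 s' ∧ SStep (code := code) (δ := δ) Lt t u1 s τ s' := by
  obtain ⟨P, l0, l1⟩ := τ
  set z0 := toF l0
  set z1 := toF l1
  have hα := (I.nm z0).lt
  by_cases act : (∀ a ∈ P, a.1.1 < δ) ∧ (∃ x, Sat (u1.m.p ∪ P) x) ∧ ¬ EqN s.n z0 z1
  swap
  · exact ⟨{s with n := s.n + 1}, ⟨I.nm, I.le, I.p, I.res, I.len, I.bd, I.lf,
      fun z z' h => I.depU z z' (h.mono (Nat.le_succ _)),
      fun x z z' h => I.depC x z z' (h.mono (Nat.le_succ _)), I.loc, I.cnt, I.low⟩,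
      rfl, subset_rfl, fun _ => Cond.Ext.refl _, TExt.refl _, QExt.refl _, fun _ _ => le_rfl,
      fun _ _ h h' => (not_lt.2 h h').elim, _, hα, fun a b c => (act ⟨a, b, c⟩).elim⟩
  obtain ⟨act1, ⟨x0, hx0⟩, act3⟩ := act
  obtain ⟨p, q1, q2, q3, q4⟩ := I.loc x0 z0
  have hc : ∃ x, Sat ((u1.m.p ∪ P) ∪ p) x := ⟨x0, sat_union.2 ⟨hx0, q1⟩⟩
  let V : (ℕ → Bool) → Cond K W := fun z => (s.U z).setP _ hc
  have hsub : ∀ z, (s.U z).m.p ⊆ (u1.m.p ∪ P) ∪ p := fun z =>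
    I.p z ▸ Finset.subset_union_left.trans Finset.subset_union_left
  have V1 : ∀ z, V z ≤ s.U z := fun z => Cond.setP_le _ (hsub z)
  have V2 : ∀ z, upP δ (V z).m = upP δ u1.m := by
    intro z
    ext a
    simp only [mem_upP, V, Cond.setP, MC.setP, Finset.mem_union]
    exact ⟨fun h => ⟨(h.1.resolve_right fun h' => h.2 (q2 a h')).resolve_right
      fun h' => h.2 (act1 a h'), h.2⟩, fun h => ⟨Or.inl (Or.inl h.1), h.2⟩⟩
  have V3 : ∀ z z', Twin H (V z) (V z') s.α ⊤ := by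
    intro z z'
    refine Twin.top ((I.nm z).setP hc (hsub z)) ((I.nm z').setP hc (hsub z')) (MC.ext rfl ?_) ?_
    · have := congrArg MC.q ((I.res z).trans (I.res z').symm)
      exact this
    · exact ((I.lf z).symm.trans (I.lf z')).mono
        (Prod.mk_le_mk.2 ⟨I.res z ▸ MC.res_mono δ (V1 z).1, le_rfl⟩)
  obtain ⟨w0, w1, α', s', β, a, a', b1, b2, b3, b4, b5, b6, b7, b8, b9, b10, b11, b12, b13⟩ :=
    (V3 z0 z1).split hP ((V1 z0).trans (I.le z0)) ((V1 z1).trans (I.le z1)) (V2 z0) (V2 z1)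
      (q4 _ (V1 z0) Finset.subset_union_right) s.n
  set m1 := w1.m.res δ with hm1
  have c1 : m1 ≤ s.m := I.res z1 ▸ MC.res_mono δ (b2.trans (V1 z1)).1
  have c2 : ∀ b ∈ (u1.m.p ∪ P) ∪ p, b.1.1 < δ → b ∈ m1.p := fun b h h' =>
    MC.mem_res_p.2 ⟨b2.1.1 h, h'⟩
  have c3 : s.α ≤ α' := (I.nm z1).len_le b8.nm (b2.trans (V1 z1))
  let ρ' := s.ρ.cat (H.pi w1 α').e
  have r1 : ρ'.len = α' := Tm.cat_len (I.len.trans_le c3)
  have r2 : ∃ b < δ, ρ'.Bd b := by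
    obtain ⟨b, h1, h2⟩ := I.bd
    obtain ⟨c, h3, h4⟩ := H.pi_in w1 b8.nm.lt
    exact ⟨max b c, max_lt h1 h3, (h2.mono (le_max_left _ _)).cat (h4.2.mono (le_max_right _ _))⟩
  have r3 : ∀ ξ, s.α ≤ ξ → ξ < α' → ρ'.val ξ = lowv code δ w1.m ξ := fun ξ h1 h2 =>
    (Tm.cat_ge (I.len ▸ not_lt.2 h1)).trans (H.pi_val _ h2)
  have hv : ∀ z, ∃ v, v ≤ s.U z ∧ upP δ v.m = upP δ u1.m ∧ Twin H w1 v α' ⊤ ∧
      (∀ ξ, s.α ≤ ξ → ξ < α' → ∀ c, (EqN s.n z z0 → Inc c s') →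
        Ag (m1, c) (lowv code δ w1.m ξ) (lowv code δ v.m ξ)) ∧
      (EqN s.n z z0 → v = w0) ∧ (EqN s.n z z1 → v = w1) := by
    intro z
    by_cases h0 : EqN s.n z z0
    · exact ⟨w0, I.depU _ _ h0 ▸ b1.trans (V1 z0), b3, b8, fun ξ h1 h2 c hc => b9 ξ h1 h2 c (hc h0),
        fun _ => rfl, fun h => (act3 (h0.symm.trans h)).elim⟩
    by_cases h1 : EqN s.n z z1
    · exact ⟨w1, I.depU _ _ h1 ▸ b2.trans (V1 z1), b4,
        Twin.top b8.nm b8.nm rfl (LF.of_eq fun _ _ => rfl), fun _ _ _ _ _ => Ag.refl _ _,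
        fun h => (h0 h).elim, fun _ => rfl⟩
    obtain ⟨v, d1, d2, d3, d4⟩ := (V3 z1 z).copy b2 b8.nm
    exact ⟨v, d1.trans (V1 z), d2.trans (V2 z), d3, fun ξ h2 h3 _ _ => Ag.of_eq _ (d4 ξ h2 h3).symm,
      fun h => (h0 h).elim, fun h => (h1 h).elim⟩
  obtain ⟨U', U1, U2⟩ := exists_dep s.n (fun z w => H.Nm w α' ∧ (s.U z).Ext w ∧ w.m.p = u1.m.p ∧
      w.m.res δ = s.m.lit m1 ∧ LF (s.m.lit m1, ⊤) ρ'.val (lowv code δ w.m) (Iio α') ∧
      (∀ ξ, s.α ≤ ξ → ξ < α' → ∀ r ≤ ((s.m.lit m1, ⊤) : MB K W),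
        (EqN s.n z z0 → ∀ x, Sat r.1.p x → Sat m1.p x → Inc r.2 s') →
          Ag r (ρ'.val ξ) (lowv code δ w.m ξ)) ∧
      (EqN s.n z z0 → ∀ v ≤ w, m1.p ⊆ v.m.p → v ≤ w0) ∧
      (EqN s.n z z1 → ∀ v ≤ w, m1.p ⊆ v.m.p → v ≤ w1)) (by
    intro z
    obtain ⟨v, d1, d2, d3, d4, d5, d6⟩ := hv z
    obtain ⟨b, e1, e2⟩ := r2
    obtain ⟨w, f1, f2, f3, f4, f5, f6, f7⟩ := (I.nm z).graft d3.nm' d1 e1 e2 r1
    rw [← d3.res, ← hm1] at f4 f6 f7
    have g1 : ∀ v' ≤ w, m1.p ⊆ v'.m.p → v' ≤ v := by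
      intro v' h1 h2
      refine f5 v' h1 ?_
      rw [← up_union (δ := δ) v.m, ← d3.res, d2]
      exact Finset.union_subset h2 ((Finset.filter_subset _ _).trans (I.p z ▸ f3 ▸ h1.1.1))
    have g2 : ∀ r ≤ ((s.m.lit m1, ⊤) : MB K W), (∀ ξ, s.α ≤ ξ → ξ < α' →
        Ag r (ρ'.val ξ) (lowv code δ w.m ξ)) ∨ ∃ r' ≤ r, r' ≤ (m1, r.2) ∧ ∀ ξ, s.α ≤ ξ → ξ < α' →
          ∀ r'' ≤ r', Ag r'' (lowv code δ w1.m ξ) (lowv code δ v.m ξ) →
            Ag r'' (ρ'.val ξ) (lowv code δ w.m ξ) := by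
      intro r hr
      by_cases h : ∃ x, Sat r.1.p x ∧ Sat m1.p x
      · obtain ⟨x, h1, h2⟩ := h
        obtain ⟨r', h3, -, h4⟩ := exists_ext r h1 h2
        refine Or.inr ⟨r', h3, ⟨MC.lit_le c1 (h3.trans hr).1 h4, h3.2⟩, fun ξ k1 k2 r'' k3 k4 => ?_⟩
        rw [r3 ξ k1 k2]
        exact k4.trans (Agree.ag fun u hu => (f6 ξ k2 u (h4.trans (hu.trans k3).1.1)).symm)
      · exact Or.inl fun ξ k1 k2 => Agree.ag fun u hu =>
          (f7 ξ k1 k2 u fun x h1 h2 => h ⟨x, h1.mono hu.1.1, h2⟩).symm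
    refine ⟨w, f1, f2, f3.trans (I.p z), I.res z ▸ f4, ?_, fun ξ k1 k2 r hr k3 => ?_,
      fun h => d5 h ▸ g1, fun h => d6 h ▸ g1⟩
    · refine LF.subset (S := Iio s.α ∪ Ico s.α α') (LF.union ?_ (LF.dense fun r hr => ?_))
        fun ξ hξ => (lt_or_ge ξ s.α).imp id fun h => ⟨h, hξ⟩
      · refine ((I.lf z).mono (Prod.mk_le_mk.2
          ⟨(MC.qext_lit _ _).le (Finset.Subset.refl _), le_rfl⟩)).imp fun u _ ξ hξ h => ?_
        rw [low_eq f2.1 (I.nm z).norm hξ, (Tm.text_cat _ _).2 ξ (I.len ▸ hξ)]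
        exact h hξ
      · rcases g2 r hr with h | ⟨r', h1, h2, h3⟩
        · exact ⟨r, le_rfl, LF.of_ag fun ξ hξ => h ξ hξ.1 hξ.2⟩
        · exact ⟨r', h1, (d3.lf.mono (h2.trans ⟨le_rfl, le_top⟩)).imp fun u hu ξ hξ h =>
            h3 ξ hξ.1 hξ.2 u hu (h hξ.2)⟩
    · refine Ag.dense fun u hu => ?_
      rcases g2 u (hu.trans hr) with h | ⟨r', h1, h2, h3⟩
      · exact ⟨u, le_rfl, h ξ k1 k2⟩
      · obtain ⟨x, hx⟩ := r'.1.cons
        exact ⟨r', h1, h3 ξ k1 k2 r' le_rfl ((d4 ξ k1 k2 u.2 fun h => (k3 h x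
          (hx.mono (h1.trans hu).1.1) (hx.mono h2.1.1)).mono hu.2 le_rfl).mono h2)⟩) (by
    rintro z z' w h ⟨d1, d2, d3, d4, d5, d6, d7, d8⟩
    exact ⟨d1, I.depU _ _ h ▸ d2, d3, d4, d5,
      fun ξ k1 k2 r hr k3 => d6 ξ k1 k2 r hr fun k4 => k3 (h.symm.trans k4),
      fun k => d7 (h.trans k), fun k => d8 (h.trans k)⟩)
  have U3 : ∀ z, U' z ≤ s.U z := fun z => (U1 z).2.1.le (by rw [(U1 z).2.2.1, I.p])
  have c4 : ∀ b ∈ m1.p, b.1.1 < δ := fun b hb => (MC.mem_res_p.1 hb).2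
  refine ⟨⟨s.n + 1, α', s.m.lit m1, ρ', U',
    fun x z => if EqN s.n z z0 ∧ Sat m1.p x then s' else s.C x z,
    s.Ξ ∪ Prod.fst '' (m1.p : Set _)⟩,
    ⟨fun z => (U1 z).1, fun z => (U3 z).trans (I.le z), fun z => (U1 z).2.2.1,
      fun z => (U1 z).2.2.2.1, r1, r2, fun z => (U1 z).2.2.2.2.1,
      fun z z' h => U2 z z' (h.mono (Nat.le_succ _)), fun x z z' h => ?_, fun x z => ?_,
      I.cnt.union (m1.p.countable_toSet.image _), ?_⟩,
    rfl, subset_union_left, fun z => (U1 z).2.1, Tm.text_cat _ _, MC.qext_lit _ _, fun x z => ?_,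
    fun z ξ k1 k2 r hr k3 => (U1 z).2.2.2.2.2.1 ξ k1 k2 r hr fun k4 x k5 k6 => ?_,
    β, b10, fun _ _ _ => ⟨m1.p, a, a', fun b hb => Or.inr ⟨b, hb, rfl⟩, fun b hb =>
      c2 b (Finset.mem_union_left _ (Finset.mem_union_right _ hb)) (act1 b hb), m1.cons, b13,
      fun v h h' => b11.mono ((U1 z0).2.2.2.2.2.2.1 (fun _ _ => rfl) v h h'),
      fun v h h' => b12.mono ((U1 z1).2.2.2.2.2.2.2 (fun _ _ => rfl) v h h')⟩⟩
  · have h' := h.mono (Nat.le_succ s.n)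
    have : EqN s.n z z0 ↔ EqN s.n z' z0 := ⟨h'.symm.trans, h'.trans⟩
    simp only [this, I.depC x z z' h']
  · dsimp only
    by_cases h0 : EqN s.n z z0
    · by_cases h1 : Sat m1.p x
      · refine ⟨m1.p, h1, c4, fun x' hx' => by rw [if_pos ⟨h0, hx'⟩, if_pos ⟨h0, h1⟩],
          fun v h h' => ?_⟩
        rw [if_pos ⟨h0, h1⟩]
        exact b7.mono ((U1 z).2.2.2.2.2.2.1 h0 v h h')
      · obtain ⟨p', d1, d2, d3, d4⟩ := I.loc x z
        have h2 := h1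
        unfold Sat at h2
        push Not at h2
        obtain ⟨b, e1, e2⟩ := h2
        refine ⟨p' ∪ {(b.1, x b.1)}, sat_union.2 ⟨d1, by simp [Sat]⟩, fun c hc => ?_,
          fun x' hx' => ?_, fun v h h' => ?_⟩
        · rcases Finset.mem_union.1 hc with h | h
          · exact d2 c h
          · rw [Finset.mem_singleton.1 h]
            exact c4 b e1
        · have h3 : x' b.1 = x b.1 := (sat_union.1 hx').2 _ (Finset.mem_singleton_self _)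
          rw [if_neg fun h => e2 (h3 ▸ h.2 b e1), if_neg fun h => h1 h.2,
            d3 x' (sat_union.1 hx').1]
        · rw [if_neg fun h => h1 h.2]
          exact d4 v (h.trans (U3 z)) (Finset.subset_union_left.trans h')
    · obtain ⟨p', d1, d2, d3, d4⟩ := I.loc x z
      simp only [h0, false_and, if_false]
      exact ⟨p', d1, d2, d3, fun v h => d4 v (h.trans (U3 z))⟩
  · rintro _ (h | ⟨b, hb, rfl⟩)
    exacts [I.low _ h, c4 b hb]
  · dsimp only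
    split_ifs with h
    · rw [I.depC x z z0 h.1, q3 x (h.2.mono fun b hb =>
        c2 b (Finset.mem_union_right _ hb) (q2 b hb))]
      exact b5
    · exact le_rfl
  · have := k3 x k5
    dsimp only at this
    rw [if_pos ⟨k4, k6⟩] at this
    exact this b6

variable {p0 u0 : Cond K W} {α0 : K}

theorem silver [WellFoundedLT K] (L : Loc H Lt p0 t u0 α0) (h0 : u1 ≤ u0) (hP : PD H Lt t u1)
    {α1 : K} (hn : H.Nm u1 α1) : ¬ Pos H Lt t (upP δ u1.m) u1 ⊤ := by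
  intro hpos
  obtain ⟨σ, τ, s0, I, R, gen⟩ := book (SStep (code := code) (δ := δ) Lt t u1)
    (fun s => {P | Sup s.Ξ P} ×ˢ univ) (SInv H Lt t u1)
    ⟨0, α1, u1.m.res δ, (H.pi u1 α1).e, fun _ => u1, fun _ _ => ⊤, ∅⟩
    ⟨fun _ => hn, fun _ => le_rfl, fun _ => rfl, fun _ => rfl, rfl,
      (H.pi_in u1 hn.lt).imp fun _ h => ⟨h.1, h.2.2⟩,
      fun _ => LF.of_eq fun ξ hξ => H.pi_val _ hξ, fun _ _ _ => rfl, fun _ _ _ _ => rfl,
      fun x z => ⟨∅, by simp [Sat], by simp, fun _ _ => rfl, fun v hv _ => hpos.mono hv⟩,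
      countable_empty, by simp⟩
    (fun s hs => (sup_cnt hs.cnt).prod countable_univ) (silver_step hP)
  have hn : ∀ k, (σ k).n = k := by
    intro k
    induction k with
    | zero => rw [s0]
    | succ k ih => rw [(R k).n, ih]
  let z0 : ℕ → Bool := fun _ => false
  have dU : ∀ n z z', EqN n z z' → (σ n).U z = (σ n).U z' :=
    fun n z z' h => (I n).depU z z' (by rwa [hn])
  have dC : ∀ n x z z', EqN n z z' → (σ n).C x z = (σ n).C x z' :=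
    fun n x z z' h => (I n).depC x z z' (by rwa [hn])
  have cle : ∀ n k, n ≤ k → ∀ x z, (σ k).C x z ≤ (σ n).C x z := by
    intro n k h x z
    induction h with
    | refl => exact le_rfl
    | step _ ih => exact ((R _).cle x z).trans ih
  obtain ⟨b, b1, b2⟩ := H.good.smN (fun n => (σ n).α) fun n => ((I n).nm z0).lt
  obtain ⟨α, α1, α2, α3⟩ := exists_lub (fun n => (σ n).α) fun n => (b2 n).le
  have α4 : α < δ := α1.trans_lt b1
  obtain ⟨m, m1, m2, m3⟩ := MC.exists_union (fun n => (σ n).m) fun n => (R n).qext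
  have m4 : m.Bd δ := by
    have h : ∀ n, (σ n).m.Bd δ := fun n => (I n).res z0 ▸ MC.bd_res δ _
    refine ⟨m1 ▸ (h 0).1, fun j hj => ?_⟩
    obtain ⟨φ, hφ⟩ := Option.ne_none_iff_exists'.1 hj
    obtain ⟨n, h1⟩ := m3 j φ hφ
    exact (h n).2 j (by simp [h1])
  have m5 : ∀ n, m ≤ (σ n).m := fun n => (m2 n).le (by
    rw [m1, ← (I n).res z0, ← (I 0).res z0]
    simp only [MC.res, (I n).p, (I 0).p, Finset.Subset.refl])
  choose g g1 g2 using fun n => (I n).bd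
  obtain ⟨c, c1, c2⟩ := H.good.smN g g1
  obtain ⟨ρ, ρ1, ρ2, ρ3⟩ := Tm.exists_union (fun n => (σ n).ρ) (fun i j => by
    rcases le_total i j with h1 | h1
    exacts [Or.inl (text_chain (fun n => (R n).text) h1),
      Or.inr (text_chain (fun n => (R n).text) h1)])
    (fun n => (I n).len.trans_le (α2 n))
    (fun n => (g2 n).mono ((c2 n).le.trans (le_max_left c α))) (le_max_right c α)
  have hΞ : Monotone fun n => (σ n).Ξ := monotone_nat_of_le_succ fun n => (R n).sub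
  obtain ⟨θ, θ1, θ2⟩ := H.good.smN.set H.good.ne
    ((countable_iUnion fun n => (I n).cnt).image Prod.fst) (by
      rintro _ ⟨a, ha, rfl⟩
      obtain ⟨n, h⟩ := mem_iUnion.1 ha
      exact (I n).low a h)
  choose β β1 β2 using fun n => (R n).task
  obtain ⟨B, B1, B2⟩ := H.good.smN β β1
  choose w w1 w2 w3 w4 w5 using fun γ : Iio δ => At.lim (H := H) (fun n => (σ n).U)
    (fun n => (σ n).α) (fun n => (σ n).m) u1.m.p dU (fun n => (R n).ext) (fun n => (I n).p)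
    (fun n => (I n).res) (fun n => (I n).nm) α4 α2 α3 m1 m2 m4 γ.2
  have w6 : ∀ γ, w γ ≤ u1 := fun γ =>
    (w4 γ 0 z0 _ le_rfl fun _ _ _ h => (Nat.not_lt_zero _ h).elim).trans ((I 0).le z0)
  have hle : ∀ γ, (⟨m, ρ⟩ : Cond K W) ≤ H.pi (w γ) α := by
    intro γ
    refine ⟨(w3 γ).ge, ρ1.ge, LF.symm fun r hr => ?_⟩
    have A : ∃ r1 ≤ r, ∃ n, ∀ k ≥ n, ∀ x, Sat r1.1.p x →
        k ≤ ((σ (k + 1)).C x (col γ.1 x)).l.length → Inc r1.2 ((σ (k + 1)).C x (col γ.1 x)) := by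
      by_cases h : ∃ n x, Sat r.1.p x ∧ r.2.l.length < ((σ n).C x (col γ.1 x)).l.length
      · obtain ⟨n, x, h1, h2⟩ := h
        obtain ⟨p, a1, -, a2, -⟩ := (I n).loc x (col γ.1 x)
        obtain ⟨r', a3, -, a4⟩ := exists_ext r h1
          (sat_union.2 ⟨a1, (sat_colP (γ := γ.1) (n := n)).2 fun _ _ => rfl⟩)
        obtain ⟨c', a5, a6⟩ := Co.exists_inc h2
        refine ⟨(r'.1, c'), ⟨a3.1, a5⟩, n, fun k hk x' hx' _ => a6.mono le_rfl ?_⟩
        obtain ⟨a7, a8⟩ := sat_union.1 (hx'.mono a4)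
        rw [← a2 x' a7, ← dC n x' _ _ (sat_colP.1 a8)]
        exact cle n (k + 1) (by omega) _ _
      · push Not at h
        exact ⟨r, le_rfl, r.2.l.length + 1, fun k hk x hx h' => absurd (h (k + 1) x hx) (by omega)⟩
    obtain ⟨r1, a1, n, a2⟩ := A
    obtain ⟨r2, a3, -, z, a4⟩ := exists_col r1 γ n
    have tr : ∀ k z ξ, ξ < (σ k).α → ∀ u : MB K W, (∀ x, Sat u.1.p x → EqN k (col γ.1 x) z) →
        Ag u ((σ k).ρ.val ξ) (lowv code δ ((σ k).U z).m ξ) →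
        Ag u (ρ.val ξ) ((H.pi (w γ) α).e.val ξ) := by
      intro k z ξ h1 u h2 h3
      rw [H.pi_val _ (h1.trans_le (α2 k)), (ρ3 k).2 ξ ((I k).len ▸ h1)]
      exact h3.trans (Agree.ag fun v hv => (w5 γ k z ξ h1 v fun x hx => h2 x (hx.mono hv.1.1)).symm)
    obtain ⟨u, a5, F, a6⟩ := (I n).lf z r2 ((a3.trans (a1.trans hr)).trans ⟨m5 n, le_rfl⟩)
    refine ⟨u, a5.trans (a3.trans a1), F, fun ξ hξ hF => ?_⟩
    by_cases h : ξ < (σ n).α
    · exact tr n z ξ h u (fun x hx => a4 x (hx.mono a5.1.1)) (a6 ξ h hF)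
    · have h1 : ∃ k, n ≤ k ∧ (σ k).α ≤ ξ ∧ ξ < (σ (k + 1)).α := by
        by_contra hc
        push Not at hc
        have h2 : ∀ k, n ≤ k → (σ k).α ≤ ξ := fun k hk =>
          Nat.le_induction (not_lt.1 h) (fun k hk ih => hc k hk ih) k hk
        obtain ⟨k, hk⟩ := α3 ξ hξ
        rcases le_total n k with h3 | h3
        · exact not_lt.2 (h2 k h3) hk
        · exact h (hk.trans_le ((I k).len.symm.trans_le
            ((text_chain (fun n => (R n).text) h3).1.trans_eq (I n).len)))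
      obtain ⟨k, k1, k2, k3⟩ := h1
      refine Ag.dense fun v hv => ?_
      obtain ⟨v', d1, -, z', d2⟩ := exists_col v γ (k + 1)
      have d3 := d1.trans (hv.trans (a5.trans a3))
      refine ⟨v', d1, tr (k + 1) z' ξ k3 v' d2 ((R k).diff z' ξ k2 k3 v'
        ((d3.trans (a1.trans hr)).trans ⟨m5 _, le_rfl⟩) fun x hx h' => ?_)⟩
      rw [← dC _ x _ _ (d2 x hx)] at h' ⊢
      exact (a2 k k1 x (hx.mono d3.1.1) ((hn k).ge.trans h')).mono d3.2 le_rfl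
  obtain ⟨d, d1, d2⟩ := H.res_in m
  rw [m4.res_eq] at d2
  obtain ⟨l, l1, l2, γ0, l3, l4⟩ := bdd_L H.good H.cof H.good.smW
    (fun l a γ => θ ≤ γ ∧ ∃ h : γ < δ, ∃ v α', H.Nm v α' ∧ v ≤ w ⟨γ, h⟩ ∧ l ≤ H.pi v α' ∧
      Val Lt t v B a)
    (fun p q i y ⟨h1, h2, v, α', h3, h4, h5, h6⟩ h => ⟨h1, h2, v, α', h3, h4, h.trans h5, h6⟩) (by
      rintro l hl i γ γ' ⟨e1, e2, v, α', e3, e4, e5, e6⟩ ⟨f1, f2, v', α'', f3, f4, f5, f6⟩
      by_contra hne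
      obtain ⟨x, hx⟩ := l.m.cons
      let N := l.m.p.sup (fun a => a.1.2) + 1
      have hN : ∀ a ∈ l.m.p, a.1.2 < N := fun a ha =>
        Nat.lt_succ_of_le (Finset.le_sup (f := fun a : (K × ℕ) × Bool => a.1.2) ha)
      let F : K → Bool → List Bool := fun γ i =>
        List.ofFn fun k : Fin (N + 1) => if k.1 < N then x (γ, k) else i
      have F1 : ∀ γ i, ∀ k < N, toF (F γ i) k = x (γ, k) := fun γ i k hk => by
        simp [toF, F, hk, hk.le, -List.ofFn_succ]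
      have F2 : ∀ γ i, toF (F γ i) N = i := fun γ i => by simp [toF, F, -List.ofFn_succ]
      set Ξ := ⋃ n, (σ n).Ξ
      obtain ⟨n, h1⟩ := sup_iUnion hΞ (sup_filter Ξ l.m.p)
      obtain ⟨k, k1, k2⟩ := gen n (_, F γ false, F γ' true) ⟨h1, trivial⟩ (N + 1)
      obtain ⟨lb, lb1, lb2⟩ := hl
      obtain ⟨v1, -, i1, -, i2, -⟩ := e3.lift ⟨lb, lb1, lb2⟩ e5
      have h2 := β2 k
      rw [k2, hn] at h2
      obtain ⟨p', a, a', j1, j2, ⟨y, j3⟩, j4, j5, j6⟩ := h2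
        (fun a ha => (lb2.1.1 a (Finset.filter_subset _ _ ha)).trans lb1)
        (v1.m.cons.imp fun y hy => sat_union.2 ⟨hy.mono (i1.trans (e4.trans (w6 _))).1.1,
          hy.mono ((Finset.filter_subset _ _).trans (i2 ▸ Finset.filter_subset _ _))⟩)
        fun h => by simpa [F2] using h N k1
      have j7 : Sup Ξ p' := j1.mono (subset_iUnion (fun n => (σ n).Ξ) (k + 1))
      have j8 : ∀ a ∈ Ξ, a.1 < θ := fun a ha => θ2 _ ⟨a, ha, rfl⟩
      let y' : Pt K := fun a => if a ∈ Ξ then y a else if a.1 = γ then toF (F γ false) a.2 else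
        if a.1 = γ' then toF (F γ' true) a.2 else x a
      have hc : ∃ x, Sat ((l.m.p ∪ p') ∪
          (colP γ (k + 1) (toF (F γ false)) ∪ colP γ' (k + 1) (toF (F γ' true)))) x := by
        refine ⟨y', sat_union.2 ⟨sat_union.2 ⟨fun a ha => ?_, fun a ha => ?_⟩, sat_union.2
          ⟨sat_colP.2 fun j _ => ?_, sat_colP.2 fun j _ => ?_⟩⟩⟩
        · simp only [y']
          split_ifs with h3 h4 h5
          · exact j3 a (j2 (Finset.mem_filter.2 ⟨ha, h3⟩))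
          · rw [F1 _ _ _ (hN a ha), ← h4]
            exact hx a ha
          · rw [F1 _ _ _ (hN a ha), ← h5]
            exact hx a ha
          · exact hx a ha
        · simp only [y', if_pos (j7 a ha)]
          exact j3 a ha
        · simp only [col, y', if_neg fun h => not_lt.2 e1 (j8 (γ, j) h), if_true]
        · simp only [col, y', if_neg fun h => not_lt.2 f1 (j8 (γ', j) h), if_neg (Ne.symm hne),
            if_true]
      have n1 : l.setP _ hc ≤ l :=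
        Cond.setP_le _ (Finset.subset_union_left.trans Finset.subset_union_left)
      obtain ⟨e, n2, n3⟩ := H.good.succ (Good.max (Good.max (Good.max lb1 θ1) e2) f2)
      simp only [max_lt_iff] at n3
      refine j4 (L.det (e4.trans ((w6 _).trans h0)) (f4.trans ((w6 _).trans h0)) e3 f3
        (l := l.setP _ hc) ⟨e, n2, ⟨fun a ha => ?_, (lb2.mono n3.1.1.1.le).1.2⟩,
          (lb2.mono n3.1.1.1.le).2⟩ (n1.trans e5) (n1.trans f5) (B2 k) B1 e6 f6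
        (fun u h h' => j5 u (w4 _ _ _ u (h.trans e4) fun x hx => sat_colP.1 (hx.mono
          (Finset.subset_union_left.trans (Finset.subset_union_right.trans h'))))
          (Finset.subset_union_right.trans (Finset.subset_union_left.trans h')))
        fun u h h' => j6 u (w4 _ _ _ u (h.trans f4) fun x hx => sat_colP.1 (hx.mono
          (Finset.subset_union_right.trans (Finset.subset_union_right.trans h'))))
          (Finset.subset_union_right.trans (Finset.subset_union_left.trans h')))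
      rcases Finset.mem_union.1 ha with h | h <;> rcases Finset.mem_union.1 h with h | h
      · exact (lb2.1.1 a h).trans n3.1.1.1
      · exact (j8 _ (j7 a h)).trans n3.1.1.2
      · exact mem_colP h ▸ n3.1.2
      · exact mem_colP h ▸ n3.2)
    (fun _ _ _ h => h.2.1) ⟨m, ρ⟩ ⟨max d (max c α), max_lt d1 (max_lt c1 α4),
      d2.mono (le_max_left _ _), ρ2.mono (le_max_right _ _)⟩
  have hγ : max γ0 θ < δ := max_lt l3 θ1
  obtain ⟨v, a1, a2, -, -, a3, -⟩ := (w1 ⟨_, hγ⟩).lift l2 (l1.trans (hle _))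
  obtain ⟨v', α', a, a4, a5, a6⟩ := L.exists_val (a2.trans ((w6 _).trans h0)) B1
  exact not_lt.2 (le_max_left γ0 θ) (l4 _ ((a1.pi_mono a5 a4).trans a3) (H.pi_in _ a5.lt) a _
    ⟨le_max_right _ _, hγ, v', α', a5, a4.trans a2, le_rfl, a6⟩)

/-- The branch below `δ` is added by the forcing below `δ`. -/
theorem local_branch [WellFoundedLT K] (L : Loc H Lt p0 t u0 α0) :
    ∃ l1 ≤ p0, l1.In (Iio δ) ∧ ∃ B : Cond K W → K × W → Prop, (∀ p q s, B p s → q ≤ p → B q s) ∧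
      (∀ l ≤ l1, l.In (Iio δ) → ∀ β < δ, ∃ l' ≤ l, l'.In (Iio δ) ∧ ∃ a, B l' (β, a)) ∧
      ∀ l : Cond K W, l.In (Iio δ) → ∀ s s', B l s → B l s' →
        s = s' ∨ ∃ q ≤ l, Lt q s s' ∨ Lt q s' s := by
  obtain ⟨u, a1, a2⟩ := L.exists_pd
  obtain ⟨u1, α1, b1, b2, -, b3⟩ := At.ext (At.le_master L.nm.le a1)
  have b4 : upP δ u1.m = upP δ u.m := by rw [upP, upP, b3]
  have hP : PD H Lt t u1 := fun v hv h => b4 ▸ a2 v (hv.trans b2) (h.trans b4)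
  have h := silver L (b2.trans a1) hP b1
  unfold Pos at h
  push Not at h
  obtain ⟨u2, c1, c2, α2, c3, c4⟩ := h
  have c5 := c1.trans (b2.trans a1)
  let B : Cond K W → K × W → Prop := fun l s => s.1 < δ ∧ ∃ w α, w ≤ u2 ∧ upP δ w.m = upP δ u1.m ∧
    H.Nm w α ∧ l ≤ H.pi w α ∧ Val Lt t w s.1 s.2
  have key : ∀ l : Cond K W, l.In (Iio δ) → ∀ β a a', B l (β, a) → B l (β, a') → a = a' := by
    rintro l hl β a a' ⟨h0, w, α, h1, h2, h3, h4, h5⟩ ⟨-, w', α', h1', h2', h3', h4', h5'⟩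
    by_contra hne
    obtain ⟨v, d1, d2, d3, d4, d5, -⟩ := h3.lift hl h4
    obtain ⟨v', e1, e2, e3, e4, e5, -⟩ := h3'.lift hl h4'
    refine c4 ⟨v, v', _, β, a, a', d2.trans h1, e2.trans h1', d3.trans h2, e3.trans h2',
      Twin.top d1 e1 (d4.trans e4.symm) ?_, h0, h5.mono d2, h5'.mono e2, hne⟩
    refine (d5.2.2.symm.trans (e5.2.2.mono (Prod.mk_le_mk.2 ⟨(d4.trans e4.symm).le, le_rfl⟩))).imp
      fun r _ ξ hξ h => ?_
    rw [← H.pi_val v hξ, ← H.pi_val v' hξ]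
    exact h hξ
  have dec : ∀ l : Cond K W, l.In (Iio δ) → ∀ w α, w ≤ u2 → upP δ w.m = upP δ u1.m → H.Nm w α →
      l ≤ H.pi w α → ∀ β < δ, ∃ v α' a, v ≤ w ∧ H.Nm v α' ∧ H.pi v α' ≤ l ∧ Val Lt t v β a ∧
        B (H.pi v α') (β, a) := by
    intro l hl w α h1 h2 h3 h4 β hβ
    obtain ⟨v, d1, d2, d3, -, d5, -⟩ := h3.lift hl h4
    obtain ⟨v', α', a, e1, e2, e3, e4⟩ := hP v (d2.trans (h1.trans c1)) (d3.trans h2) β hβ
    exact ⟨v', α', a, e1.trans d2, e3, (d1.pi_mono e3 e1).trans d5, e4, hβ, v', α',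
      e1.trans (d2.trans h1), e2, e3, le_rfl, e4⟩
  have mono : ∀ p q s, B p s → q ≤ p → B q s :=
    fun p q s ⟨h0, w, α, h1, h2, h3, h4, h5⟩ h => ⟨h0, w, α, h1, h2, h3, h.trans h4, h5⟩
  have chain : ∀ l : Cond K W, l.In (Iio δ) → ∀ s s', B l s → B l s' → s.1 < s'.1 →
      ∃ q ≤ l, Lt q s s' := by
    rintro l hl ⟨β, a⟩ ⟨β', a'⟩ h1 ⟨h0, w, α, h2, h3, h4, h5, h6⟩ h
    obtain ⟨v, α', i, d1, d2, d3, d4, d5⟩ := dec l hl w α h2 h3 h4 h5 β h1.1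
    obtain rfl := key _ (H.pi_in v d2.lt) β a i (mono _ _ _ h1 d3) d5
    have d6 := d1.trans (h2.trans c5)
    obtain ⟨q, e1, e2, c, e3⟩ := L.below d6 h h0 (h6.mono d1)
    obtain ⟨q', e4, e5⟩ := L.tree.trans q (L.le0 (e1.trans d6)) _ _ _ e3 e2
    obtain rfl := d4 q' (e4.trans e1) c e5
    exact ⟨q, e1.trans (d2.le_pi.trans d3), e3⟩
  refine ⟨H.pi u2 α2, (L.nm.pi_mono c3 c5).trans L.le, H.pi_in _ c3.lt, B, mono,
    fun l h1 h2 β hβ => ?_, fun l hl s s' h h' => ?_⟩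
  · obtain ⟨v, α', a, -, d2, d3, -, d5⟩ := dec l h2 u2 α2 le_rfl c2 c3 h1 β hβ
    exact ⟨_, d3, H.pi_in v d2.lt, a, d5⟩
  · rcases lt_trichotomy s.1 s'.1 with e | e | e
    · exact Or.inr ((chain l hl s s' h h' e).imp fun _ h => ⟨h.1, Or.inl h.2⟩)
    · obtain ⟨β, a⟩ := s
      obtain ⟨β', a'⟩ := s'
      obtain rfl : β = β' := e
      exact Or.inl (by rw [key l hl β a a' h h'])
    · exact Or.inr ((chain l hl s' s h' h e).imp fun _ h => ⟨h.1, Or.inr h.2⟩)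

end Pool.Agent.Lib.MP_6993b6_lc
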