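import Mathlib
import Pool.Agent.Lib.MP_6993b6_lc.Silver
import Pool.Agent.Lib.MP_6993b6_lc.Aron

/-!
Normal measures, sizes, and the tree property for names.
-/

namespace Pool.Agent.Lib.MP_6993b6_lc

open Set Classical Cardinal Filter

section measure

variable {K : Type} [LinearOrder K]

/-- A `#K`-complete ultrafilter that contains all tails. -/
structure Meas (D : Ultrafilter K) : Prop where
  unc : ℵ₀ < #K
  iio : ∀ a : K, #(Iio a) < #K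
  all : ∀ {ι : Type} {p : K → ι → Prop}, #ι < #K → (∀ i, ∀ᶠ δ in D, p δ i) → ∀ᶠ δ in D, ∀ i, p δ i
  tail : ∀ a : K, ∀ᶠ δ in D, a < δ

theorem Meas.const {D : Ultrafilter K} (M : Meas D) {ι : Type} (hι : #ι < #K) (f : K → ι) :
    ∃ c, ∀ᶠ δ in D, f δ = c := by
  by_contra hc
  push Not at hc
  obtain ⟨δ, h⟩ := (M.all (p := fun δ c => f δ ≠ c) hι hc).exists
  exact h _ rfl

theorem Meas.sm {D : Ultrafilter K} (M : Meas D) {ι : Type} (hι : #ι < #K) :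
    Sm (univ : Set K) ι := fun f _ =>
  let ⟨b, hb⟩ := (M.all hι fun i => M.tail (f i)).exists
  ⟨b, trivial, hb⟩

theorem Meas.set {D : Ultrafilter K} (M : Meas D) {ι : Type} (hι : #ι < #K) : #(Set ι) < #K := by
  by_contra hc
  obtain ⟨f⟩ := (Cardinal.le_def _ _).1 (not_lt.1 hc)
  choose g hg using fun i : ι => M.const (ι := Prop) (lt_trans (by simp) M.unc) fun δ => i ∈ f δ
  have h := M.all hι hg
  obtain ⟨a, ha⟩ := h.exists
  obtain ⟨b, hb, hab⟩ := (h.and (M.tail a)).exists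
  exact hab.ne (f.injective (Set.ext fun i => by rw [ha i, hb i]))

theorem Meas.prod {D : Ultrafilter K} (M : Meas D) {ι ι' : Type} (h : #ι < #K) (h' : #ι' < #K) :
    #(ι × ι') < #K := by
  simpa using mul_lt_of_lt M.unc.le h h'

theorem Meas.cnt {D : Ultrafilter K} (M : Meas D) (ι : Type) [Countable ι] : #ι < #K :=
  mk_le_aleph0.trans_lt M.unc

theorem Meas.iic {D : Ultrafilter K} (M : Meas D) (a : K) : #(Iic a) < #K :=
  let ⟨b, hb⟩ := (M.tail a).exists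
  (mk_le_mk_of_subset (Iic_subset_Iio.2 hb)).trans_lt (M.iio b)

def Normal (D : Ultrafilter K) : Prop :=
  ∀ f : K → K, (∀ᶠ δ in D, f δ < δ) → ∃ c, ∀ᶠ δ in D, f δ = c

theorem Meas.exists_normal [WellFoundedLT K] {U : Ultrafilter K} (M : Meas U) :
    ∃ D : Ultrafilter K, Meas D ∧ Normal D := by
  have wf : WellFounded fun f g : K → K => ∀ᶠ x in U, f x < g x := by
    rw [wellFounded_iff_isEmpty_descending_chain]
    refine ⟨fun ⟨f, hf⟩ => ?_⟩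
    obtain ⟨x, hx⟩ := (M.all (M.cnt ℕ) hf).exists
    exact (wellFounded_iff_isEmpty_descending_chain.1 (wellFounded_lt (α := K))).1
      ⟨fun n => f n x, hx⟩
  obtain ⟨f, h1, h2⟩ := wf.has_min {f | ∀ a, ∀ᶠ x in U, a < f x} ⟨id, M.tail⟩
  refine ⟨U.map f, ⟨M.unc, M.iio, fun hι h => M.all (p := fun x i => _) hι h, h1⟩, fun g hg => ?_⟩
  have h3 : ¬ ∀ a, ∀ᶠ x in U, a < g (f x) := fun h => h2 (g ∘ f) h hg
  push Not at h3
  obtain ⟨a, ha⟩ := h3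
  obtain ⟨c, hc⟩ := M.const (M.iic a) fun x => ⟨min (g (f x)) a, min_le_right _ _⟩
  refine ⟨c, ?_⟩
  show ∀ᶠ x in U, g (f x) = c
  filter_upwards [hc, ha] with x h h'
  rw [← h]
  exact (min_eq_left h').symm

variable {D : Ultrafilter K} (M : Meas D) (hD : Normal D)
include M hD

omit M in
theorem Normal.diag {p : K → K → Prop} (h : ∀ β, ∀ᶠ δ in D, p β δ) : ∀ᶠ δ in D, ∀ β < δ, p β δ := by
  by_contra hc
  have h1 : ∀ δ, ∃ β, (¬ ∀ β < δ, p β δ) → β < δ ∧ ¬ p β δ := by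
    intro δ
    by_cases h : ∀ β < δ, p β δ
    · exact ⟨δ, fun h' => (h' h).elim⟩
    · push Not at h
      exact h.imp fun _ h _ => h
  choose g hg using h1
  have h2 := (Ultrafilter.eventually_not.2 hc).mono hg
  obtain ⟨c, h3⟩ := hD g (h2.mono fun _ h => h.1)
  obtain ⟨δ, ⟨a1, a2⟩, a3⟩ := ((h2.and h3).and (h c)).exists
  exact a1.2 (a2 ▸ a3)

theorem Meas.sm_iio {ι : Type} (hι : #ι < #K) : ∀ᶠ δ : K in D, Sm (Iio δ) ι := by
  by_contra hc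
  have h1 : ∀ δ : K, ∃ f : ι → K, ¬ Sm (Iio δ) ι → (∀ i, f i < δ) ∧ ∀ b < δ, ∃ i, b ≤ f i := by
    intro δ
    by_cases h : Sm (Iio δ) ι
    · exact ⟨fun _ => δ, fun h' => (h' h).elim⟩
    · unfold Sm at h
      push Not at h
      exact h.imp fun _ h _ => h
  choose g hg using h1
  have h2 := (Ultrafilter.eventually_not.2 hc).mono hg
  choose c hc using fun i => hD (fun δ => g δ i) (h2.mono fun _ h => h.1 i)
  obtain ⟨b, -, hb⟩ := M.sm hι c fun _ => trivial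
  obtain ⟨δ, ⟨a1, a2⟩, a3⟩ := ((h2.and (M.all hι hc)).and (M.tail b)).exists
  obtain ⟨i, hi⟩ := a1.2 b a3
  exact not_lt.2 hi (a2 i ▸ hb i)

end measure

variable {K W : Type} [LinearOrder K] {D : Ultrafilter K} (M : Meas D) (hW : #W < #K)
include M hW

theorem Meas.mc (β : K) : #{m : MC K W // m.Bd β} < #K := by
  have h1 : #(Iio β × ℕ) < #K := M.prod (M.iio β) (M.cnt ℕ)
  let ex : Set (Iio β × ℕ) → Pt K := fun y a => decide (∃ h : a.1 < β, (⟨a.1, h⟩, a.2) ∈ y)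
  let F : {m : MC K W // m.Bd β} →
      Set ((Iio β × ℕ) × Bool) × Set ((Iio β × W) × Set (Iio β × ℕ) × Iio β) := fun m =>
    ({a | ((a.1.1.1, a.1.2), a.2) ∈ m.1.p},
      {a | ∃ φ, m.1.q (a.1.1.1, a.1.2) = some φ ∧ φ (ex a.2.1) = a.2.2.1})
  refine (mk_le_of_injective (f := F) ?_).trans_lt (M.prod (M.set (M.prod h1 (M.cnt Bool)))
    (M.set (M.prod (M.prod (M.iio β) hW) (M.prod (M.set h1) (M.iio β)))))
  have key : ∀ m m', F m = F m' → m.1.p ⊆ m'.1.p ∧ QExt m.1 m'.1 := by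
    intro m m' h
    obtain ⟨h1, h2⟩ := Prod.ext_iff.1 h
    refine ⟨fun a ha => (Set.ext_iff.1 h1 ((⟨a.1.1, m.2.1 a ha⟩, a.1.2), a.2)).1 ha,
      fun j φ hj => ?_⟩
    have h3 : j.1 < β := m.2.2 j (by simp [hj])
    have h4 : ∀ x, ∃ φ', m'.1.q j = some φ' ∧ φ' x = φ x := by
      intro x
      have e : ∀ a : K × ℕ, a.1 < j.1 → ex {a | x (a.1.1, a.2)} a = x a := fun a ha => by
        simp [ex, ha.trans h3]
      obtain ⟨φ', h5, h6⟩ := (Set.ext_iff.1 h2 ((⟨j.1, h3⟩, j.2), {a | x (a.1.1, a.2)},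
        ⟨φ x, ((m.1.ok j φ hj).lt x).trans h3⟩)).1 ⟨φ, hj, (m.1.ok j φ hj).eq e⟩
      exact ⟨φ', h5, ((m'.1.ok j φ' h5).eq e).symm.trans h6⟩
    obtain ⟨φ', h5, -⟩ := h4 fun _ => false
    rw [h5]
    congr 1
    funext x
    obtain ⟨φ'', h6, h7⟩ := h4 x
    rw [h5] at h6
    cases h6
    exact h7
  intro m m' h
  obtain ⟨a1, a2⟩ := key m m' h
  obtain ⟨b1, b2⟩ := key m' m h.symm
  exact Subtype.ext (MC.ext (Finset.Subset.antisymm a1 b1)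
    (funext fun j => Option.ext fun φ => ⟨a2 j φ, b2 j φ⟩))

theorem Meas.cond (β : K) : #{w : Cond K W // w.Bd β} < #K := by
  let F : {w : Cond K W // w.Bd β} → {m : MC K W // m.Bd β} × Iic β ×
      Set (Iio β × {m : MC K W // m.Bd β} × Co) := fun w =>
    (⟨w.1.m, w.2.1⟩, ⟨w.1.e.len, w.2.2.1⟩, {a | (a.2.1.1, a.2.2) ∈ w.1.e.val a.1.1})
  refine (mk_le_of_injective (f := F) fun w w' h => ?_).trans_lt (M.prod (M.mc hW β)
    (M.prod (M.iic β) (M.set (M.prod (M.iio β) (M.prod (M.mc hW β) (M.cnt Co))))))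
  obtain ⟨h1, h2⟩ := Prod.ext_iff.1 h
  obtain ⟨h2, h3⟩ := Prod.ext_iff.1 h2
  refine Subtype.ext (Cond.ext (congrArg Subtype.val h1) (Tm.ext (congrArg Subtype.val h2)
    (funext fun ξ => ?_)))
  by_cases hξ : ξ < β
  · ext ⟨m, c⟩
    rw [w.2.2.2 ξ m c, w'.2.2.2 ξ m c]
    exact Set.ext_iff.1 h3 (⟨ξ, hξ⟩, ⟨_, MC.bd_res β m⟩, c)
  · rw [Tm.junk _ ξ (w.2.2.1.trans (not_lt.1 hξ)), Tm.junk _ ξ (w'.2.2.1.trans (not_lt.1 hξ))]

theorem Meas.exists_idx : ∃ idx : Cond K W → K, Function.Injective idx := by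
  have h : #(Cond K W) ≤ #K := by
    refine (mk_le_of_surjective (f := fun x : Σ β : K, {w : Cond K W // w.Bd β} => x.2.1)
      fun w => ?_).trans ?_
    · obtain ⟨β, -, h⟩ := w.in_univ (M.sm (M.cnt ℕ))
      exact ⟨⟨β, w, h⟩, rfl⟩
    · rw [mk_sigma]
      refine (sum_le_sum _ (fun _ => #K) fun β => (M.cond hW β).le).trans ?_
      simp [mul_eq_self M.unc.le]
  obtain ⟨f⟩ := (Cardinal.le_def _ _).1 h
  exact ⟨f, f.injective⟩

theorem Meas.good : Good W (univ : Set K) :=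
  ⟨fun _ _ _ _ => trivial, let ⟨a, _⟩ := (eventually_true (D : Filter K)).exists; ⟨a, trivial⟩,
    M.sm (M.cnt ℕ), M.sm hW, fun β _ => M.sm (M.mc hW β)⟩

variable [WellFoundedLT K] [OrderBot K] [LinearOrder W] [WellFoundedLT W]

theorem Meas.core (hD : Normal D) (cof : Cof W) (cnt : ∀ ζ : W, (Iic ζ).Countable)
    (Lt : Cond K W → K × W → K × W → Prop) (p0 : Cond K W) (T : TreeSys Prod.fst Lt p0) :
    ∃ p1 ≤ p0, HasBr Prod.fst Lt p1 := by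
  obtain ⟨idx, hidx⟩ := M.exists_idx hW
  let en : K → Cond K W := Function.invFun idx
  have hen : ∀ w, en (idx w) = w := Function.leftInverse_invFun hidx
  have hN := M.sm (M.cnt ℕ)
  have in1 : ∀ w : Cond K W, ∀ᶠ δ in D, w.In (Iio δ) := fun w =>
    let ⟨β, _, h⟩ := w.in_univ hN
    (M.tail β).mono fun δ hδ => ⟨β, hδ, h⟩
  have in2 : ∀ᶠ δ in D, ∀ w : Cond K W, w.In (Iio δ) → idx w < δ :=
    (hD.diag fun β => M.all (p := fun δ (w : {w : Cond K W // w.Bd β}) => idx w.1 < δ)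
      (M.cond hW β) fun w => M.tail _).mono fun δ h w ⟨β, h1, h2⟩ => h β h1 ⟨w, h2⟩
  have cst : ∀ f : K → Cond K W, (∀ᶠ δ in D, (f δ).In (Iio δ)) → ∃ w, ∀ᶠ δ in D, f δ = w := by
    intro f hf
    obtain ⟨c, hc⟩ := hD (fun δ => idx (f δ)) ((hf.and in2).mono fun δ h => h.2 _ h.1)
    exact ⟨en c, hc.mono fun δ h => by rw [← h, hen]⟩
  have hat : ∀ᶠ δ in D, At (fun d => (en d).e) δ := by
    filter_upwards [M.tail ⊥, M.sm_iio hD (M.cnt ℕ), M.sm_iio hD hW,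
      hD.diag fun β => M.sm_iio hD (M.mc hW β), hD.diag fun d => in1 (en d), in2]
      with δ h1 h2 h3 h4 h5 h6
    refine ⟨⟨fun a b hb h => lt_of_le_of_lt h hb, ⟨⊥, h1⟩, h2, h3, h4⟩, hN, cof, cnt,
      fun d hd => (h5 d hd).imp fun _ h => ⟨h.1, h.2.2⟩, fun e β hβ he =>
        ⟨idx ⟨⊤, e⟩, h6 _ ⟨β, hβ, ⟨fun a ha => absurd ha (Finset.notMem_empty a),
          fun j hj => (hj rfl).elim⟩, he⟩, by rw [hen]⟩⟩
  have hdec : ∀ᶠ δ in D, ∀ l : Cond K W, l.In (Iio δ) → ∀ (s : K × W) β, s.1 < δ →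
      (∃ q ≤ l, ∃ a, Lt q (β, a) s) → ∃ q ≤ l, q.In (Iio δ) ∧ ∃ a, Lt q (β, a) s := by
    have h : ∀ (l : Cond K W) (s : K × W) β, ∀ᶠ δ in D,
        (∃ q ≤ l, ∃ a, Lt q (β, a) s) → ∃ q ≤ l, q.In (Iio δ) ∧ ∃ a, Lt q (β, a) s := by
      intro l s β
      by_cases h : ∃ q ≤ l, ∃ a, Lt q (β, a) s
      · obtain ⟨q, h1, h2⟩ := h
        exact (in1 q).mono fun δ h _ => ⟨q, h1, h, h2⟩
      · exact Eventually.of_forall fun _ h' => (h h').elim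
    refine (hD.diag fun b => M.all (ι := {w : Cond K W // w.Bd b} × (Iic b × W) × Iic b)
      (M.prod (M.cond hW b) (M.prod (M.prod (M.iic b) hW) (M.iic b)))
      fun x => h x.1.1 (x.2.1.1.1, x.2.1.2) x.2.2.1).mono ?_
    rintro δ h l ⟨b, b1, b2⟩ s β hs ⟨q, q1, a, q2⟩
    exact h (max b s.1) (max_lt b1 hs) (⟨l, b2.mono (le_max_left _ _)⟩,
      (⟨s.1, le_max_right _ _⟩, s.2), ⟨β, le_max_of_le_right (T.lt _ _ _ q2).le⟩) ⟨q, q1, a, q2⟩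
  have loc : ∀ᶠ δ in D, ∃ (l1 : Cond K W) (B : Cond K W → K × W → Prop), l1 ≤ p0 ∧ l1.In (Iio δ) ∧
      (∀ p q s, B p s → q ≤ p → B q s) ∧
      (∀ l ≤ l1, l.In (Iio δ) → ∀ β < δ, ∃ l' ≤ l, l'.In (Iio δ) ∧ ∃ a, B l' (β, a)) ∧
      ∀ l : Cond K W, l.In (Iio δ) → ∀ s s', B l s → B l s' →
        s = s' ∨ ∃ q ≤ l, Lt q s s' ∨ Lt q s' s := by
    filter_upwards [hat, hdec, in1 p0, M.tail ⊥] with δ H h1 h2 h3
    have a1 : H.Nm ⟨⊤, H.E⟩ ⊥ := ⟨h3, fun x => ⟨fun _ _ _ h => (h rfl).elim,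
      fun _ _ h => (by cases h), fun _ h => (not_lt_bot h).elim⟩, le_rfl⟩
    obtain ⟨v, b1, -, -, -, b2, -⟩ := a1.lift h2
      ⟨le_top.trans (MC.le_res _ _), bot_le, LF.of_eq fun _ h => (not_lt_bot h).elim⟩
    obtain ⟨q, c1, t, c2, c3⟩ := T.lev v (b1.le_pi.trans b2) δ
    obtain ⟨u0, α0, d1, d2, -⟩ := At.ext (At.le_master b1.le c1)
    obtain ⟨l1, e1, e2, B, e3⟩ := local_branch (H := H) ⟨T, c2, d1,
      (b1.pi_mono d1 (d2.trans c1)).trans b2, fun q hq => c3 q (hq.trans d2), h1⟩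
    exact ⟨l1, B, e1, e2, e3⟩
  obtain ⟨l1, loc⟩ := loc.choice
  obtain ⟨B, loc⟩ := loc.choice
  obtain ⟨p1, h1⟩ := cst l1 (loc.mono fun _ h => h.2.1)
  obtain ⟨δ0, h2, h3⟩ := (loc.and h1).exists
  refine ⟨p1, h3 ▸ h2.1, fun w s => ∀ᶠ δ in D, B δ w s, fun p q s h hq =>
    (h.and loc).mono fun δ h => h.2.2.2.1 _ _ _ h.1 hq, fun p hp β => ?_, fun p _ s s' h h' => ?_⟩
  · have : ∀ᶠ δ in D, ∃ (l' : Cond K W) (a : W), l' ≤ p ∧ l'.In (Iio δ) ∧ B δ l' (β, a) := by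
      filter_upwards [loc, h1, in1 p, M.tail β] with δ a1 a2 a3 a4
      obtain ⟨l', b1, b2, a, b3⟩ := a1.2.2.2.1 p (a2 ▸ hp) a3 β a4
      exact ⟨l', a, b1, b2, b3⟩
    obtain ⟨l', this⟩ := this.choice
    obtain ⟨a, this⟩ := this.choice
    obtain ⟨q, hq⟩ := cst l' (this.mono fun _ h => h.2.1)
    obtain ⟨c, hc⟩ := M.const hW a
    obtain ⟨δ, a1, a2⟩ := (this.and hq).exists
    refine ⟨q, a2 ▸ a1.1, (β, c), rfl, ?_⟩
    filter_upwards [this, hq, hc] with δ b1 b2 b3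
    exact b2 ▸ b3 ▸ b1.2.2
  · obtain ⟨δ, ⟨a1, a2⟩, a3, a4⟩ := ((h.and h').and (loc.and (in1 p))).exists
    exact a3.2.2.2.2 p a4 s s' a1 a2

end Pool.Agent.Lib.MP_6993b6_lc
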