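import Mathlib
import Pool.Agent.Lib.MP_6993b6_lc.Measure

/-!
From a measurable cardinal to a forcing notion with the properties listed in `Sys`.
-/

namespace Pool.Agent.Lib.MP_6993b6_lc

open Set Classical Cardinal Filter

theorem exists_sys (K0 : Type) (U : Ultrafilter K0) (hK : ℵ₀ < #K0)
    [CardinalInterFilter (U : Filter K0) #K0] (hU : ∀ x, {x} ∉ U) :
    ∃ (P K W : Type) (_ : Preorder P) (_ : OrderTop P) (_ : LinearOrder K) (_ : WellFoundedLT K)
      (_ : LinearOrder W) (_ : WellFoundedLT W), Sys P K W := by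
  let K := (#K0).ord.ToType
  let W := (ℵ₁ : Cardinal.{0}).ord.ToType
  have eK : #K = #K0 := mk_ord_toType _
  have eW : #W = ℵ₁ := mk_ord_toType _
  obtain ⟨e⟩ := Cardinal.eq.1 eK.symm
  have all : ∀ {ι : Type} {p : K → ι → Prop}, #ι < #K → (∀ i, ∀ᶠ δ in U.map e, p δ i) →
      ∀ᶠ δ in U.map e, ∀ i, p δ i := fun hι h =>
    (eventually_cardinal_forall (l := (U : Filter K0)) (p := fun x i => _) (eK ▸ hι)).2 h
  have iio : ∀ a : K, #(Iio a) < #K := fun a => (mk_Iio_toType_ord_lt a).trans_eq eK.symm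
  have ne : ∀ a : K, ∀ᶠ δ in U.map e, δ ≠ a := fun a => by
    show ∀ᶠ x in U, e x ≠ a
    refine mem_of_superset (Ultrafilter.compl_mem_iff_notMem.2 (hU (e.symm a))) fun x hx h => hx ?_
    rw [mem_singleton_iff, ← h, e.symm_apply_apply]
  have M0 : Meas (U.map e) := ⟨eK ▸ hK, iio, all, fun a => by
    filter_upwards [all (iio a) fun i : Iio a => ne i.1, ne a] with δ h1 h2
    rcases lt_trichotomy a δ with h | h | h
    exacts [h, (h2 h.symm).elim, (h1 ⟨δ, h⟩ rfl).elim]⟩
  obtain ⟨D, M, hD⟩ := M0.exists_normal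
  have hW : #W < #K := by
    refine lt_of_le_of_lt ?_ (M.set (M.cnt ℕ))
    rw [eW, mk_set, mk_nat, two_power_aleph0]
    exact aleph_one_le_continuum
  have cnt : ∀ ζ : W, (Iio ζ).Countable := fun ζ =>
    le_aleph0_iff_set_countable.1 (Order.le_of_lt_succ ((mk_Iio_toType_ord_lt ζ).trans_eq succ_aleph0.symm))
  have cnt' : ∀ ζ : W, (Iic ζ).Countable := fun ζ => by
    rw [← Iio_insert]
    exact (cnt ζ).insert ζ
  have unc : ¬ (univ : Set W).Countable := by
    rw [← le_aleph0_iff_set_countable, mk_univ, eW]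
    exact not_le.2 aleph0_lt_aleph_one
  have cof : Cof W := by
    intro s hs
    by_contra hc
    push Not at hc
    exact unc ((hs.biUnion fun a _ => cnt' a).mono fun b _ =>
      let ⟨a, h1, h2⟩ := hc b
      mem_biUnion h1 h2)
  have : Infinite W := by
    rw [infinite_iff, eW]
    exact aleph0_le_aleph 1
  obtain ⟨dec⟩ := Cardinal.eq.1 (mk_list_eq_mk W).symm
  have hG := M.good hW
  have : Nonempty K := hG.ne.to_type
  let _ : OrderBot K := WellFoundedLT.toOrderBot K
  exact ⟨Cond K W, K, W, inferInstance, inferInstance, inferInstance, inferInstance, inferInstance,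
    inferInstance, cnt, fun α => (M.tail α).exists, bdd_omega hG.smN cof, bdd_kappa hG cof,
    cov_col cof, M.core hW hD cof cnt', exists_aron hG.smN cof dec dec.surjective⟩

end Pool.Agent.Lib.MP_6993b6_lc
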