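import Pool.Agent.Shared.Forcing
import Pool.Agent.Lib.MP_6993b6_lc.Defs
import Pool.Agent.Lib.MP_6993b6_lc.Gen

/-!
Uniform definability, fresh contexts, semantic forcing and the maximum principle.
-/

namespace Pool.Agent.Lib.MP_6993b6_lc

open ZFSet Classical Pool.Agent.Lib.MP_053343_lc Pool.Agent.Lib.MP_053343_lc.Name
open Pool.Agent.Shared.Forcing

section definable

def env (l : List ZFSet.{0}) (i : ℕ) : ZFSet.{0} := l.getD i ∅

theorem env_mem {M : ZFSet.{0}} (hM : ModelZF M) {l : List ZFSet} (h : ∀ x ∈ l, x ∈ M) (i : ℕ) :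
    env l i ∈ M := by
  induction l generalizing i with
  | nil => exact hM.trans _ hM.inf omega_zero
  | cons a l ih =>
    cases i with
    | zero => exact h a (List.mem_cons_self ..)
    | succ i => exact ih (fun x hx => h x (List.mem_cons_of_mem _ hx)) i

/-- Predicates defined by one formula in all models. -/
class UD (Q : ZFSet.{0} → (ℕ → ZFSet.{0}) → Prop) : Prop where
  out : ∃ φ, ∀ M, ModelZF M → ∀ l, (∀ x ∈ l, x ∈ M) → (Sat M φ l ↔ Q M (env l))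

namespace UD

variable {Q Q' : ZFSet.{0} → (ℕ → ZFSet.{0}) → Prop}

theorem congr (h : UD Q) (e : ∀ M, ModelZF M → ∀ v, (∀ i, v i ∈ M) → (Q M v ↔ Q' M v)) : UD Q' :=
  ⟨h.out.imp fun _ h M hM l hl => (h M hM l hl).trans (e M hM _ (env_mem hM hl))⟩

instance mem (i j : ℕ) : UD fun _ v => v i ∈ v j := ⟨.mem i j, fun _ _ _ _ => Iff.rfl⟩

instance eq (i j : ℕ) : UD fun _ v => v i = v j := ⟨.eq i j, fun _ _ _ _ => Iff.rfl⟩

instance not [h : UD Q] : UD fun M v => ¬ Q M v :=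
  ⟨h.out.elim fun φ h => ⟨.neg φ, fun M hM l hl => not_congr (h M hM l hl)⟩⟩

instance and [h : UD Q] [h' : UD Q'] : UD fun M v => Q M v ∧ Q' M v :=
  ⟨h.out.elim fun φ h => h'.out.elim fun ψ h' =>
    ⟨.and φ ψ, fun M hM l hl => and_congr (h M hM l hl) (h' M hM l hl)⟩⟩

instance or [UD Q] [UD Q'] : UD fun M v => Q M v ∨ Q' M v :=
  congr (Q := fun M v => ¬ (¬ Q M v ∧ ¬ Q' M v)) inferInstance fun _ _ _ _ => by tauto

instance imp [UD Q] [UD Q'] : UD fun M v => Q M v → Q' M v :=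
  congr (Q := fun M v => ¬ (Q M v ∧ ¬ Q' M v)) inferInstance fun _ _ _ _ => by tauto

variable {Φ : ZFSet.{0} → (ℕ → ZFSet.{0}) → ZFSet.{0} → Prop}

instance ex [h : UD fun M v => Φ M (fun n => v (n + 1)) (v 0)] :
    UD fun M v => ∃ x ∈ M, Φ M v x := by
  obtain ⟨φ, h⟩ := h.out
  refine ⟨.ex φ, fun M hM l hl => exists_congr fun x => and_congr_right fun hx => ?_⟩
  refine h M hM (x :: l) fun y hy => ?_
  rcases List.mem_cons.1 hy with rfl | hy
  exacts [hx, hl y hy]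

instance bex (i : ℕ) [UD fun M v => Φ M (fun n => v (n + 1)) (v 0)] :
    UD fun M v => ∃ x ∈ v i, Φ M v x :=
  congr (Q := fun M v => ∃ x ∈ M, x ∈ v i ∧ Φ M v x) inferInstance fun _ hM _ hv =>
    ⟨fun ⟨x, _, h⟩ => ⟨x, h⟩, fun ⟨x, h⟩ => ⟨x, hM.trans _ (hv i) h.1, h⟩⟩

instance ball (i : ℕ) [UD fun M v => Φ M (fun n => v (n + 1)) (v 0)] :
    UD fun M v => ∀ x ∈ v i, Φ M v x :=
  congr (Q := fun M v => ¬ ∃ x ∈ v i, ¬ Φ M v x) inferInstance fun _ _ _ _ => by simp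

instance sub (i j : ℕ) : UD fun _ v => v i ⊆ v j :=
  congr (Q := fun _ v => ∀ x ∈ v i, x ∈ v j) inferInstance fun _ _ _ _ => Iff.rfl

instance upair (i j k : ℕ) : UD fun _ v => v i = {v j, v k} :=
  congr (Q := fun _ v => (∀ x ∈ v i, x = v j ∨ x = v k) ∧ v j ∈ v i ∧ v k ∈ v i) inferInstance
    fun _ _ v _ => by
      constructor
      · rintro ⟨h1, h2, h3⟩
        ext x
        rw [mem_pair]
        exact ⟨h1 x, by rintro (rfl | rfl) <;> assumption⟩
      · intro h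
        simp [h]

instance opair (i j k : ℕ) : UD fun _ v => v i = pair (v j) (v k) :=
  congr (Q := fun _ v => ∃ a ∈ v i, ∃ b ∈ v i, a = {v j, v j} ∧ b = {v j, v k} ∧ v i = {a, b})
    inferInstance fun _ _ v _ => by
      constructor
      · rintro ⟨a, -, b, -, rfl, rfl, h3⟩
        rw [h3, pair_eq_singleton]
        rfl
      · intro h
        refine ⟨{v j}, by simp [h, pair], {v j, v k}, by simp [h, pair], by simp, rfl, h⟩

instance pmem (i j k : ℕ) : UD fun _ v => pair (v i) (v j) ∈ v k :=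
  congr (Q := fun _ v => ∃ x ∈ v k, x = pair (v i) (v j)) inferInstance fun _ _ _ _ => by simp

instance onto (i j : ℕ) : UD fun M v => Onto M (v i) (v j) := by
  unfold Onto
  infer_instance

instance ontoLev (i j k m : ℕ) :
    UD fun M v => Onto M (v i) ((v j).sep fun t => pair t (v k) ∈ v m) :=
  congr (Q := fun M v => ∃ f ∈ M, (∀ x ∈ v i, ∀ y ∈ v j, pair y (v k) ∈ v m → ∀ y' ∈ v j,
      pair y' (v k) ∈ v m → pair x y ∈ f → pair x y' ∈ f → y = y') ∧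
      ∀ y ∈ v j, pair y (v k) ∈ v m → ∃ x ∈ v i, pair x y ∈ f) inferInstance
    fun _ _ _ _ => by simp only [Onto, mem_sep, and_imp]

instance branch (i j k m : ℕ) : UD fun M v => Branch M (v i) (v j) (v k) (v m) := by
  unfold Branch
  infer_instance

instance isTree (a b T r h : ℕ) : UD fun M v => IsTree M (v a) (v b) (v T) (v r) (v h) :=
  congr (Q := fun M v =>
    (∀ t ∈ v T, ∃ a ∈ v b, pair t a ∈ v h ∧ ∀ c ∈ v b, pair t c ∈ v h → c = a) ∧
    (∀ s ∈ v T, ∀ t ∈ v T, ∀ u ∈ v T, pair s t ∈ v r → pair t u ∈ v r → pair s u ∈ v r) ∧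
    (∀ s ∈ v T, ∀ t ∈ v T, ∀ u ∈ v T, pair s u ∈ v r → pair t u ∈ v r →
      s = t ∨ pair s t ∈ v r ∨ pair t s ∈ v r) ∧
    (∀ s ∈ v T, ∀ t ∈ v T, pair s t ∈ v r → ∀ a ∈ v b, ∀ c ∈ v b, pair s a ∈ v h →
      pair t c ∈ v h → a ∈ c) ∧
    (∀ t ∈ v T, ∀ c ∈ v b, pair t c ∈ v h → ∀ a ∈ c, ∃ s ∈ v T, pair s t ∈ v r ∧ pair s a ∈ v h) ∧
    (∀ a ∈ v b, ∃ t ∈ v T, pair t a ∈ v h) ∧
    ∀ c ∈ v b, Onto M (v a) ((v T).sep fun t => pair t c ∈ v h)) inferInstance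
    fun _ _ _ _ => ⟨fun ⟨h1, h2, h3, h4, h5, h6, h7⟩ => ⟨h1, h2, h3, h4, h5, h6, h7⟩,
      fun ⟨h1, h2, h3, h4, h5, h6, h7⟩ => ⟨h1, h2, h3, h4, h5, h6, h7⟩⟩

end UD

end definable

variable {P : Type} [Preorder P] [OrderTop P]

theorem exists_raw' {ι κ : Type} [Countable ι] [Countable κ]
    (R : ι → List (Name P) → Name P → Prop) (D : κ → List (Name P) → Set P) (p0 : P) :
    ∃ C : Raw R D, p0 ∈ C.G := by
  have hd : ∀ (S : Set P) (p : P), ∃ r ≤ p, r ∈ S ∨ ∀ q ≤ r, q ∉ S := by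
    intro S p
    by_cases hp : ∃ q ≤ p, q ∈ S
    · obtain ⟨q, h1, h2⟩ := hp
      exact ⟨q, h1, Or.inl h2⟩
    · push Not at hp
      exact ⟨p, le_rfl, Or.inr hp⟩
  choose nx h1 h2 using hd
  let op : ι ⊕ Option κ → List (Name P) → Name P := fun o l =>
    match o with
    | .inl i => if h : ∃ x, R i l x then h.choose else empty
    | .inr none => cN p0
    | .inr (some k) => cN (nx (D k l.tail) (dC (l.getD 0 empty)))
  obtain ⟨N, hc, -, hcl⟩ := exists_closure op (fun _ => True) fun _ _ _ => trivial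
  have : Countable N := hc
  obtain ⟨e, he⟩ := exists_surjective_nat (Option (κ × List N))
  let s : ℕ → P := fun n => Nat.rec p0 (fun k p => match e k with
    | none => p
    | some a => nx (D a.1 (a.2.map Subtype.val)) p) n
  have hs1 : ∀ k, s (k + 1) = match e k with
    | none => s k
    | some a => nx (D a.1 (a.2.map Subtype.val)) (s k) := fun _ => rfl
  have hs : Antitone s := by
    refine antitone_nat_of_succ_le fun k => ?_
    rw [hs1]
    cases e k with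
    | none => exact le_rfl
    | some a => exact h1 _ _
  have hN : ∀ k, cN (s k) ∈ N := by
    intro k
    induction k with
    | zero => exact hcl (.inr none) [] (by simp)
    | succ k ih =>
      rw [hs1]
      cases e k with
      | none => exact ih
      | some a =>
        have := hcl (.inr (some a.1)) (cN (s k) :: a.2.map Subtype.val) (by
          intro x hx
          rcases List.mem_cons.1 hx with rfl | hx
          · exact ih
          · obtain ⟨y, _, rfl⟩ := List.mem_map.1 hx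
            exact y.2)
        simpa [op] using this
  refine ⟨{ N := N, G := {p | ∃ n, s n ≤ p}, cnt := hc, wit := ?_, dec := ?_,
            top := ⟨0, le_top⟩, up := ?_, dir := ?_, cof := ?_ }, 0, le_rfl⟩
  · intro i l hl h
    refine ⟨_, hcl (.inl i) l hl, ?_⟩
    simp only [op, dif_pos h]
    exact h.choose_spec
  · intro k l hl
    obtain ⟨l', rfl⟩ : ∃ l' : List N, l'.map Subtype.val = l :=
      ⟨l.attach.map fun x => (⟨x.1, hl x.1 x.2⟩ : N), by simp [List.map_map, Function.comp_def]⟩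
    obtain ⟨n, hn⟩ := he (some (k, l'))
    refine ⟨s (n + 1), ⟨n + 1, le_rfl⟩, ?_⟩
    rw [hs1, hn]
    exact h2 _ _
  · rintro p ⟨n, hn⟩ q hq
    exact ⟨n, hn.trans hq⟩
  · rintro p ⟨n, hn⟩ q ⟨m, hm⟩
    exact ⟨s (max n m), ⟨_, le_rfl⟩, (hs (le_max_left n m)).trans hn,
      (hs (le_max_right n m)).trans hm⟩
  · rintro p ⟨n, hn⟩
    exact ⟨s n, ⟨n, le_rfl⟩, hn, hN n⟩

/-- Contexts without families of the user. -/
abbrev Cx (P : Type) [Preorder P] [OrderTop P] : Type 1 :=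
  Ctx (P := P) (fun (_ : Empty) _ _ => False) fun (_ : Empty) _ => ∅

/-- Forgetting the families of the user. -/
def forget {ι κ : Type} {R : ι → List (Name P) → Name P → Prop} {D : κ → List (Name P) → Set P}
    (C : Ctx R D) : Cx P where
  N := C.N
  G := C.G
  cnt := C.cnt
  wit := fun i => match i with
    | .inl b => C.wit (.inl b)
    | .inr e => e.elim
  dec := fun i => match i with
    | .inl b => C.dec (.inl b)
    | .inr e => e.elim
  top := C.top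
  up := C.up
  dir := C.dir
  cof := C.cof

/-- All names of the list belong to the context. -/
def Has (C : Cx P) : List (Name P) → Prop
  | [] => True
  | x :: l => x ∈ C.N ∧ Has C l

theorem has_iff {C : Cx P} {l : List (Name P)} : Has C l ↔ ∀ x ∈ l, x ∈ C.N := by
  induction l with
  | nil => simp [Has]
  | cons a l ih => simp [Has, ih]

theorem fresh (p : P) (l : List (Name P)) : ∃ C : Cx P, p ∈ C.G ∧ Has C l := by
  obtain ⟨C, hC⟩ := exists_raw' (Sum.elim BR.ev fun (i : Fin l.length) _ x => x = l.get i)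
    (Sum.elim BD.ev fun (_ : Empty) _ => ∅) p
  refine ⟨forget C, hC, has_iff.2 fun x hx => ?_⟩
  obtain ⟨i, rfl⟩ := List.mem_iff_get.1 hx
  obtain ⟨x, h1, rfl⟩ := C.wit (.inr i) [] (by simp) ⟨_, rfl⟩
  exact h1

/-- Semantic forcing. -/
def Fc (l : List (Name P)) (Φ : Cx P → Prop) (p : P) : Prop :=
  ∀ C : Cx P, p ∈ C.G → Has C l → Φ C

theorem Fc.mono {l : List (Name P)} {Φ : Cx P → Prop} {p q : P} (h : Fc l Φ p) (hq : q ≤ p) :
    Fc l Φ q := fun C hC hl => h C (C.up q hC p hq) hl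

/-- Definable properties of contexts. -/
def Dfn (l : List (Name P)) (Φ : Cx P → Prop) : Prop :=
  ∃ φ, ∀ C : Cx P, Has C l → (Sat C.M φ (l.map C.val) ↔ Φ C)

theorem dfn (Q : ZFSet.{0} → (ℕ → ZFSet.{0}) → Prop) [h : UD Q] (l : List (Name P)) :
    Dfn l fun C => Q C.M (env (l.map C.val)) := by
  obtain ⟨φ, h⟩ := h.out
  refine ⟨φ, fun C hl => h _ C.modelZF _ fun x hx => ?_⟩
  obtain ⟨σ, hσ, rfl⟩ := List.mem_map.1 hx
  exact C.val_mem_M (has_iff.1 hl σ hσ)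

theorem Dfn.truth {l : List (Name P)} {Φ : Cx P → Prop} (h : Dfn l Φ) (C : Cx P) (hl : Has C l)
    (hC : Φ C) {p : P} (hp : p ∈ C.G) : ∃ q ∈ C.G, q ≤ p ∧ Fc l Φ q := by
  obtain ⟨φ, h⟩ := h
  obtain ⟨r, hr, h1⟩ := (C.truth φ (has_iff.1 hl)).1 ((h C hl).2 hC)
  obtain ⟨q, hq, q1, q2⟩ := C.dir p hp r hr
  exact ⟨q, hq, q1, fun C' h2 h3 => (h C' h3).1 ((C'.truth φ (has_iff.1 h3)).2
    ⟨q, h2, h1.mono q2⟩)⟩

theorem Dfn.dense {l : List (Name P)} {Φ : Cx P → Prop} (h : Dfn l Φ) {p : P}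
    (hd : ∀ q ≤ p, ∃ C : Cx P, q ∈ C.G ∧ Has C l ∧ Φ C) : Fc l Φ p := by
  intro C hp hl
  by_contra hc
  have h' : Dfn l fun C => ¬ Φ C :=
    h.elim fun φ h => ⟨.neg φ, fun C hl => not_congr (h C hl)⟩
  obtain ⟨q, -, q1, q2⟩ := h'.truth C hl hc hp
  obtain ⟨C', h1, h2, h3⟩ := hd q q1
  exact q2 C' h1 h2 h3

/-- The maximum principle. -/
theorem max_principle {l : List (Name P)} {Φ : Cx P → ZFSet.{0} → Prop}
    (h : ∀ σ, Dfn (σ :: l) fun C => Φ C (C.val σ)) {p : P}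
    (hp : Fc l (fun C => ∃ x ∈ C.M, Φ C x) p) : ∃ σ, Fc (σ :: l) (fun C => Φ C (C.val σ)) p := by
  obtain ⟨A, a1, a2, a3⟩ := exists_antichain
    {q | ∃ σ, Fc (σ :: l) (fun C => Φ C (C.val σ)) q}
  choose ψ hψ using a1
  let σ : Name P := ⟨Σ a : A, {x : (ψ a.2).Ty × P // x.2 ≤ a.1 ∧ x.2 ≤ (ψ a.2).cd x.1},
    fun x => (ψ x.1.2).ch x.2.1.1, fun x => x.2.1.2⟩
  have he : ∀ a : A, FEq σ (ψ a.2) a.1 := by
    intro a
    rw [feq_iff]
    constructor
    · rintro ⟨b, ⟨i, r⟩, b1, b2⟩ q q1 q2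
      obtain rfl : b = a := Subtype.ext (a2 _ b.2 _ a.2 q (q2.trans b1) q1)
      exact ⟨q, le_rfl, i, q2.trans b2, FEq.refl _ _⟩
    · exact fun j q q1 q2 => ⟨q, le_rfl, ⟨a, (j, q), q1, q2⟩, le_rfl, FEq.refl _ _⟩
  refine ⟨σ, (h σ).dense fun q hq => ?_⟩
  obtain ⟨C, c1, c2⟩ := fresh q l
  obtain ⟨x, hx, c3⟩ := hp C (C.up q c1 p hq) c2
  obtain ⟨τ, hτ, rfl⟩ := C.mem_M.1 hx
  obtain ⟨r, -, r1, r2⟩ := (h τ).truth C ⟨hτ, c2⟩ c3 c1
  obtain ⟨a, ha, s, s1, s2⟩ := a3 r ⟨τ, r2⟩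
  obtain ⟨C', d1, d2, d3, d4⟩ := fresh s (σ :: ψ ha :: l)
  have d5 := C'.up s d1 a s1
  refine ⟨C', C'.up s d1 q (s2.trans r1), ⟨d2, d4⟩, ?_⟩
  rw [(C'.val_eq_iff d2 d3).2 ⟨a, d5, he ⟨a, ha⟩⟩]
  exact hψ ha C' d5 ⟨d3, d4⟩

end Pool.Agent.Lib.MP_6993b6_lc
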