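import Pool.Agent.Lib.MP_6993b6_lc.Models1
import Pool.Agent.Lib.MP_6993b6_lc.Sys

/-!
Names for ordinals and relations, successor cardinals and the Aronszajn tree.
-/

namespace Pool.Agent.Lib.MP_6993b6_lc

open ZFSet Classical Set Pool.Agent.Lib.MP_053343_lc Pool.Agent.Lib.MP_053343_lc.Name
open Pool.Agent.Shared.Forcing

variable {P : Type} [Preorder P] [OrderTop P]

theorem mem_setN (C : Cx P) {I : Type} {A : I → Name P} {x : ZFSet} :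
    x ∈ C.val (setN A) ↔ ∃ i, A i ∈ C.N ∧ x = C.val (A i) := by
  rw [C.mem_val]
  exact ⟨fun ⟨i, h, _, e⟩ => ⟨i, h, e⟩, fun ⟨i, h, e⟩ => ⟨i, h, C.top, e⟩⟩

/-- Families of names with distinct values. -/
def Inj {I : Type} (A : I → Name P) : Prop :=
  ∀ (C : Cx P) i j, A i ∈ C.N → A j ∈ C.N → C.val (A i) = C.val (A j) → i = j

theorem inj_natN : Inj (natN : ℕ → Name P) := fun C i j _ _ h => by
  rw [C.val_natN, C.val_natN] at h
  exact nat_inj h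

section ord

variable {A : Type} [LinearOrder A] [WellFoundedLT A]

/-- The name of an ordinal. -/
noncomputable def ordN : A → Name P :=
  (wellFounded_lt (α := A)).fix fun a f => setN fun b : Iio a => f b.1 b.2

theorem ordN_eq (a : A) : (ordN a : Name P) = setN fun b : Iio a => ordN b.1 :=
  WellFounded.fix_eq _ _ _

variable (C : Cx P)

theorem mem_ordN {a : A} {x : ZFSet} :
    x ∈ C.val (ordN a) ↔ ∃ b < a, ordN b ∈ C.N ∧ x = C.val (ordN b) := by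
  rw [ordN_eq, mem_setN]
  exact ⟨fun ⟨b, h⟩ => ⟨b.1, b.2, h⟩, fun ⟨b, h, h'⟩ => ⟨⟨b, h⟩, h'⟩⟩

theorem inj_ordN : Inj (ordN : A → Name P) := by
  intro C a b ha hb h
  rcases lt_trichotomy a b with h1 | h1 | h1
  · exact (mem_irrefl _ ((mem_ordN C).2 ⟨a, h1, ha, h.symm⟩)).elim
  · exact h1
  · exact (mem_irrefl _ ((mem_ordN C).2 ⟨b, h1, hb, h⟩)).elim

theorem ord_mem_ord {a b : A} (hb : ordN b ∈ C.N) : C.val (ordN b) ∈ C.val (ordN a) ↔ b < a := by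
  rw [mem_ordN]
  exact ⟨fun ⟨c, h1, h2, h3⟩ => inj_ordN C b c hb h2 h3 ▸ h1, fun h => ⟨b, h, hb, rfl⟩⟩

theorem ord_mem_top {a : A} (ha : ordN a ∈ C.N) : C.val (ordN a) ∈ C.val (setN (ordN : A → _)) :=
  (mem_setN C).2 ⟨a, ha, rfl⟩

theorem top_ord : (C.val (setN (ordN : A → Name P))).IsOrdinal := by
  refine ⟨fun w hw y hy => ?_, fun {y z w} h1 h2 h3 => ?_⟩
  · obtain ⟨a, -, rfl⟩ := (mem_setN C).1 hw
    obtain ⟨b, -, hb, rfl⟩ := (mem_ordN C).1 hy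
    exact ord_mem_top C hb
  · obtain ⟨a, -, rfl⟩ := (mem_setN C).1 h3
    obtain ⟨b, h4, -, rfl⟩ := (mem_ordN C).1 h2
    obtain ⟨c, h5, hc, rfl⟩ := (mem_ordN C).1 h1
    exact (ord_mem_ord C hc).2 (h5.trans h4)

end ord

section graph

variable {I Y : Type} {A : I → Name P} {B : Y → Name P} {V : P → I → Y → Prop}

/-- The name of a relation. -/
def grN (A : I → Name P) (B : Y → Name P) (V : P → I → Y → Prop) : Name P :=
  ⟨{x : P × I × Y // V x.1 x.2.1 x.2.2}, fun x => pairN (A x.1.2.1) (B x.1.2.2), fun x => x.1.1⟩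

theorem mem_grN (C : Cx P) {z : ZFSet} : z ∈ C.val (grN A B V) ↔
    ∃ p ∈ C.G, ∃ i y, V p i y ∧ A i ∈ C.N ∧ B y ∈ C.N ∧ z = pair (C.val (A i)) (C.val (B y)) := by
  rw [C.mem_val]
  constructor
  · rintro ⟨⟨⟨p, i, y⟩, h⟩, h1, h2, h3⟩
    exact ⟨p, h2, i, y, h, C.pairN_left h1, C.pairN_right h1, h3.trans (C.val_pairN h1)⟩
  · rintro ⟨p, h2, i, y, h, a, b, rfl⟩
    exact ⟨⟨⟨p, i, y⟩, h⟩, C.pair_memN a b, h2, (C.val_pairN (C.pair_memN a b)).symm⟩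

theorem pair_grN (C : Cx P) (hA : Inj A) (hB : Inj B) {i : I} {y : Y} (hi : A i ∈ C.N)
    (hy : B y ∈ C.N) : pair (C.val (A i)) (C.val (B y)) ∈ C.val (grN A B V) ↔ ∃ p ∈ C.G, V p i y := by
  rw [mem_grN]
  constructor
  · rintro ⟨p, hp, i', y', h, a, b, e⟩
    rw [pair_inj] at e
    rw [hA C _ _ hi a e.1, hB C _ _ hy b e.2]
    exact ⟨p, hp, h⟩
  · exact fun ⟨p, hp, h⟩ => ⟨p, hp, i, y, h, hi, hy, rfl⟩

theorem dense_grN (C : Cx P) {i : I} {y : Y} (hi : A i ∈ C.N) (hy : B y ∈ C.N)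
    (hV : grN A B V ∈ C.N) {p : P} (hp : p ∈ C.G) (hd : ∀ q ≤ p, ∃ r ≤ q, V r i y) :
    pair (C.val (A i)) (C.val (B y)) ∈ C.val (grN A B V) := by
  refine (dfn (fun _ v => pair (v 0) (v 1) ∈ v 2) [A i, B y, grN A B V]).dense (fun q hq => ?_)
    C hp ⟨hi, hy, hV, trivial⟩
  obtain ⟨r, r1, r2⟩ := hd q hq
  obtain ⟨C', c1, c2⟩ := fresh r [A i, B y, grN A B V]
  exact ⟨C', C'.up r c1 q r1, c2, (mem_grN C').2 ⟨r, c1, i, y, r2, c2.1, c2.2.1, rfl⟩⟩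

/-- A covering name gives a surjection in every context that contains it. -/
theorem onto_of_cov (hA : Inj A) {S : Set Y} (h : Cov P I S) : ∃ f : Name P, ∀ C : Cx P,
    Has C [f, setN A] → ∀ b : ZFSet, (∀ z ∈ b, ∃ y ∈ S, B y ∈ C.N ∧ z = C.val (B y)) →
      Onto C.M (C.val (setN A)) b := by
  obtain ⟨V, hV, hc⟩ := h
  refine ⟨grN A B V, fun C ⟨c1, c2, _⟩ b hb => ⟨_, C.val_mem_M c1, ?_, fun z hz => ?_⟩⟩
  · intro x _ z _ z' _ h1 h2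
    obtain ⟨p, hp, i, y, a1, a2, -, a3⟩ := (mem_grN C).1 h1
    obtain ⟨p', hp', i', y', b1, b2, -, b3⟩ := (mem_grN C).1 h2
    rw [pair_inj] at a3 b3
    obtain rfl := hA C _ _ a2 b2 (a3.1.symm.trans b3.1)
    obtain ⟨r, -, r1, r2⟩ := C.dir p hp p' hp'
    rw [a3.2, b3.2, hV.uniq r i y y' (hV.mono _ _ _ _ a1 r1) (hV.mono _ _ _ _ b1 r2)]
  · obtain ⟨y, y1, y2, rfl⟩ := hb z hz
    refine (dfn (fun _ v => ∃ x ∈ v 0, pair x (v 1) ∈ v 2) [setN A, B y, grN A B V]).dense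
      (fun q _ => ?_) C C.top ⟨c2, y2, c1, trivial⟩
    obtain ⟨r, r1, i, r2⟩ := hc q y y1
    obtain ⟨C', d1, d2, d3⟩ := fresh r [A i, setN A, B y, grN A B V]
    exact ⟨C', C'.up r d1 q r1, d3, _, (mem_setN C').2 ⟨i, d2, rfl⟩,
      (mem_grN C').2 ⟨r, d1, i, y, r2, d2, d3.2.1, rfl⟩⟩

theorem succ_top [LinearOrder Y] [WellFoundedLT Y] (hA : Inj A) (hb : Bdd P I Y)
    (hc : ∀ y : Y, Cov P I (Iio y)) (C : Cx P) (h1 : setN A ∈ C.N)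
    (h2 : setN (ordN : Y → _) ∈ C.N) :
    Succ C.M (C.val (setN A)) (C.val (setN (ordN : Y → _))) := by
  refine ⟨C.val_mem_M h2, top_ord C, ?_, fun c hc' => ?_⟩
  · rintro ⟨f, hf, h3⟩
    obtain ⟨f, hf', rfl⟩ := C.mem_M.1 hf
    obtain ⟨p, -, -, h4⟩ := (dfn (fun _ v => (∀ x ∈ v 0, ∀ y ∈ v 1, ∀ y' ∈ v 1, pair x y ∈ v 2 →
      pair x y' ∈ v 2 → y = y') ∧ ∀ y ∈ v 1, ∃ x ∈ v 0, pair x y ∈ v 2)
      [setN A, setN (ordN : Y → _), f]).truth C ⟨h1, h2, hf', trivial⟩ h3 C.top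
    obtain ⟨q, q1, b, q2⟩ := hb (fun r i y => r ≤ p ∧
      Fc [A i, ordN y, f] (fun C => pair (C.val (A i)) (C.val (ordN y)) ∈ C.val f) r)
      ⟨fun r r' i y h hr => ⟨hr.trans h.1, h.2.mono hr⟩, fun r i y y' h h' => by
        obtain ⟨C', c1, c2, c3, c4, c5⟩ :=
          fresh r [A i, ordN y, ordN y', setN A, setN (ordN : Y → _), f]
        exact inj_ordN C' _ _ c3 c4 ((h4 C' (C'.up r c1 p h.1) c5).1 _
          ((mem_setN C').2 ⟨i, c2, rfl⟩) _ (ord_mem_top C' c3) _ (ord_mem_top C' c4)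
          (h.2 C' c1 ⟨c2, c3, c5.2.2⟩) (h'.2 C' c1 ⟨c2, c4, c5.2.2⟩))⟩ p
    obtain ⟨C', c1, c2, c3⟩ := fresh q [ordN b, setN A, setN (ordN : Y → _), f]
    obtain ⟨x, x1, x2⟩ := (h4 C' (C'.up q c1 p q1) c3).2 _ (ord_mem_top C' c2)
    obtain ⟨i, i1, rfl⟩ := (mem_setN C').1 x1
    obtain ⟨r, -, r1, r2⟩ := (dfn (fun _ v => pair (v 0) (v 1) ∈ v 2) [A i, ordN b, f]).truth C'
      ⟨i1, c2, c3.2.2⟩ x2 c1
    exact lt_irrefl _ (q2 r r1 i b ⟨r1.trans q1, r2⟩)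
  · obtain ⟨y, hy, rfl⟩ := (mem_setN C).1 hc'
    obtain ⟨f, hf⟩ := onto_of_cov (B := (ordN : Y → _)) hA (hc y)
    refine (dfn (fun M v => Onto M (v 0) (v 1)) [setN A, ordN y]).dense (fun q _ => ?_) C C.top
      ⟨h1, hy, trivial⟩
    obtain ⟨C', c1, c2, c3⟩ := fresh q [f, setN A, ordN y]
    exact ⟨C', c1, c3, hf C' ⟨c2, c3.1, trivial⟩ _ fun z hz => (mem_ordN C').1 hz⟩

end graph

omit [OrderTop P] in
theorem cov_of_countable {Y : Type} {S : Set Y} (h : S.Countable) : Cov P ℕ S := by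
  obtain ⟨f, hf⟩ := countable_iff_exists_injOn.1 h
  exact ⟨fun _ i y => y ∈ S ∧ f y = i, ⟨fun _ _ _ _ h _ => h,
    fun _ _ _ _ h h' => hf h.1 h'.1 (h.2.trans h'.2.symm)⟩, fun p y hy => ⟨p, le_rfl, _, hy, rfl⟩⟩

variable {K W : Type} [LinearOrder K] [WellFoundedLT K] [LinearOrder W] [WellFoundedLT W]

theorem aron_tree {Nd : Type} [LinearOrder Nd] [WellFoundedLT Nd] {ht : Nd → K}
    {Lt : P → Nd → Nd → Prop} (hT : TreeSys ht Lt ⊤) (hN : ∀ t, Node ht Lt ⊤ t)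
    (hc : ∀ α, Cov P W {t | ht t = α}) (C : Cx P)
    (hl : Has C [setN (ordN : W → _), setN (ordN : K → _), setN (ordN : Nd → _),
      grN ordN ordN Lt, grN ordN ordN fun _ t a => ht t = a]) :
    IsTree C.M (C.val (setN (ordN : W → _))) (C.val (setN (ordN : K → _)))
      (C.val (setN (ordN : Nd → _))) (C.val (grN ordN ordN Lt))
      (C.val (grN ordN ordN fun _ t a => ht t = a)) := by
  obtain ⟨l1, l2, l3, l4, l5, -⟩ := hl
  have hh : ∀ (C : Cx P) {t a}, ordN t ∈ C.N → ordN a ∈ C.N → (pair (C.val (ordN t)) (C.val (ordN a))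
      ∈ C.val (grN ordN ordN fun _ t a => ht t = a) ↔ ht t = a) := fun C t a h1 h2 =>
    (pair_grN C inj_ordN inj_ordN h1 h2).trans ⟨fun ⟨_, _, h⟩ => h, fun h => ⟨⊤, C.top, h⟩⟩
  have hr : ∀ {s t}, ordN s ∈ C.N → ordN t ∈ C.N → (pair (C.val (ordN s)) (C.val (ordN t))
      ∈ C.val (grN ordN ordN Lt) ↔ ∃ p ∈ C.G, Lt p s t) := fun h1 h2 =>
    pair_grN C inj_ordN inj_ordN h1 h2
  have hlin : ∀ {s t u p}, ordN s ∈ C.N → ordN t ∈ C.N → p ∈ C.G → Lt p s u → Lt p t u →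
      ht s < ht t → pair (C.val (ordN s)) (C.val (ordN t)) ∈ C.val (grN ordN ordN Lt) := by
    intro s t u p h1 h2 h3 h4 h5 h6
    refine dense_grN C h1 h2 l4 h3 fun q hq => ?_
    obtain ⟨r, r1, s', e, r2⟩ := hN t q le_top _ h6
    obtain ⟨r', r3, r4⟩ := hT.trans r le_top _ _ _ r2 (hT.mono _ _ _ _ h5 (r1.trans hq))
    obtain rfl := hT.uniq r' le_top _ _ _ r4 (hT.mono _ _ _ _ h4 (r3.trans (r1.trans hq))) e
    exact ⟨r, r1, r2⟩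
  constructor
  · intro t ht'
    obtain ⟨t, t1, rfl⟩ := (mem_setN C).1 ht'
    obtain ⟨a, a1, a2⟩ := (dfn (fun _ v => ∃ a ∈ v 1, pair (v 0) a ∈ v 2)
      [ordN t, setN (ordN : K → _), grN ordN ordN fun _ t a => ht t = a]).dense (fun q _ => by
        obtain ⟨C', c1, c2, c3⟩ := fresh q [ordN (ht t), ordN t, setN (ordN : K → _),
          grN ordN ordN fun _ t a => ht t = a]
        exact ⟨C', c1, c3, _, ord_mem_top C' c2, (hh C' c3.1 c2).2 rfl⟩) C C.top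
        ⟨t1, l2, l5, trivial⟩
    refine ⟨a, a1, a2, fun b b1 b2 => ?_⟩
    obtain ⟨a, a3, rfl⟩ := (mem_setN C).1 a1
    obtain ⟨b, b3, rfl⟩ := (mem_setN C).1 b1
    rw [← (hh C t1 a3).1 a2, (hh C t1 b3).1 b2]
  · intro s hs t ht' u hu h1 h2
    obtain ⟨s, s1, rfl⟩ := (mem_setN C).1 hs
    obtain ⟨t, t1, rfl⟩ := (mem_setN C).1 ht'
    obtain ⟨u, u1, rfl⟩ := (mem_setN C).1 hu
    obtain ⟨p, p1, p2⟩ := (hr s1 t1).1 h1
    obtain ⟨q, q1, q2⟩ := (hr t1 u1).1 h2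
    obtain ⟨r, r1, r2, r3⟩ := C.dir p p1 q q1
    exact dense_grN C s1 u1 l4 r1 fun r' h => hT.trans r' le_top _ _ _
      (hT.mono _ _ _ _ p2 (h.trans r2)) (hT.mono _ _ _ _ q2 (h.trans r3))
  · intro s hs t ht' u hu h1 h2
    obtain ⟨s, s1, rfl⟩ := (mem_setN C).1 hs
    obtain ⟨t, t1, rfl⟩ := (mem_setN C).1 ht'
    obtain ⟨u, u1, rfl⟩ := (mem_setN C).1 hu
    obtain ⟨p, p1, p2⟩ := (hr s1 u1).1 h1
    obtain ⟨q, q1, q2⟩ := (hr t1 u1).1 h2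
    obtain ⟨r, r1, r2, r3⟩ := C.dir p p1 q q1
    have p3 := hT.mono _ _ _ _ p2 r2
    have q3 := hT.mono _ _ _ _ q2 r3
    rcases lt_trichotomy (ht s) (ht t) with h | h | h
    · exact .inr (.inl (hlin s1 t1 r1 p3 q3 h))
    · exact .inl (by rw [hT.uniq r le_top _ _ _ p3 q3 h])
    · exact .inr (.inr (hlin t1 s1 r1 q3 p3 h))
  · intro s hs t ht' h1 a ha b hb h2 h3
    obtain ⟨s, s1, rfl⟩ := (mem_setN C).1 hs
    obtain ⟨t, t1, rfl⟩ := (mem_setN C).1 ht'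
    obtain ⟨a, a1, rfl⟩ := (mem_setN C).1 ha
    obtain ⟨b, b1, rfl⟩ := (mem_setN C).1 hb
    obtain ⟨p, -, p2⟩ := (hr s1 t1).1 h1
    rw [ord_mem_ord C a1, ← (hh C s1 a1).1 h2, ← (hh C t1 b1).1 h3]
    exact hT.lt _ _ _ p2
  · intro t ht' b hb h1 a ha
    obtain ⟨t, t1, rfl⟩ := (mem_setN C).1 ht'
    obtain ⟨b, b1, rfl⟩ := (mem_setN C).1 hb
    obtain ⟨a, a1, a2, rfl⟩ := (mem_ordN C).1 ha
    rw [← (hh C t1 b1).1 h1] at a1
    refine (dfn (fun _ v => ∃ s ∈ v 2, pair s (v 0) ∈ v 3 ∧ pair s (v 1) ∈ v 4)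
      [ordN t, ordN a, setN (ordN : Nd → _), grN ordN ordN Lt,
        grN ordN ordN fun _ t a => ht t = a]).dense (fun q _ => ?_) C C.top
      ⟨t1, a2, l3, l4, l5, trivial⟩
    obtain ⟨r, r1, s, e, r2⟩ := hN t q le_top _ a1
    obtain ⟨C', c1, c2, c3⟩ := fresh r [ordN s, ordN t, ordN a, setN (ordN : Nd → _),
      grN ordN ordN Lt, grN ordN ordN fun _ t a => ht t = a]
    exact ⟨C', C'.up r c1 q r1, c3, _, ord_mem_top C' c2,
      (pair_grN C' inj_ordN inj_ordN c2 c3.1).2 ⟨r, c1, r2⟩, (hh C' c2 c3.2.1).2 e⟩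
  · intro a ha
    obtain ⟨a, a1, rfl⟩ := (mem_setN C).1 ha
    obtain ⟨-, -, t, e, -⟩ := hT.lev ⊤ le_rfl a
    refine (dfn (fun _ v => ∃ s ∈ v 1, pair s (v 0) ∈ v 2) [ordN a, setN (ordN : Nd → _),
      grN ordN ordN fun _ t a => ht t = a]).dense (fun q _ => ?_) C C.top ⟨a1, l3, l5, trivial⟩
    obtain ⟨C', c1, c2, c3⟩ := fresh q [ordN t, ordN a, setN (ordN : Nd → _),
      grN ordN ordN fun _ t a => ht t = a]
    exact ⟨C', c1, c3, _, ord_mem_top C' c2, (hh C' c2 c3.1).2 e⟩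
  · intro a ha
    obtain ⟨a, a1, rfl⟩ := (mem_setN C).1 ha
    obtain ⟨f, hf⟩ := onto_of_cov (A := (ordN : W → Name P)) (B := (ordN : Nd → _)) inj_ordN (hc a)
    refine (dfn (fun M v => Onto M (v 0) ((v 1).sep fun t => pair t (v 2) ∈ v 3))
      [setN (ordN : W → _), setN (ordN : Nd → _), ordN a,
        grN ordN ordN fun _ t a => ht t = a]).dense (fun q _ => ?_) C C.top
      ⟨l1, l3, a1, l5, trivial⟩
    obtain ⟨C', c1, c2, c3⟩ := fresh q [f, setN (ordN : W → _), setN (ordN : Nd → _), ordN a,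
      grN ordN ordN fun _ t a => ht t = a]
    refine ⟨C', c1, c3, hf C' ⟨c2, c3.1, trivial⟩ _ fun z hz => ?_⟩
    obtain ⟨z1, z2⟩ := mem_sep.1 hz
    obtain ⟨t, t1, rfl⟩ := (mem_setN C').1 z1
    exact ⟨t, (hh C' t1 c3.2.2.1).1 z2, t1, rfl⟩

theorem aron_nobranch {Nd : Type} [LinearOrder Nd] [WellFoundedLT Nd] {ht : Nd → K}
    {Lt : P → Nd → Nd → Prop} (hT : TreeSys ht Lt ⊤) (hb : ∀ r, ¬ HasBr ht Lt r) (C : Cx P)
    (hl : Has C [setN (ordN : K → _), setN (ordN : Nd → _),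
      grN ordN ordN Lt, grN ordN ordN fun _ t a => ht t = a]) :
    ¬ Branch C.M (C.val (setN (ordN : K → _))) (C.val (setN (ordN : Nd → _)))
      (C.val (grN ordN ordN Lt)) (C.val (grN ordN ordN fun _ t a => ht t = a)) := by
  rintro ⟨b, b1, b2⟩
  obtain ⟨β, b3, rfl⟩ := C.mem_M.1 b1
  obtain ⟨p, -, -, hp⟩ := (dfn (fun _ v => v 0 ⊆ v 2 ∧
    (∀ s ∈ v 0, ∀ t ∈ v 0, s = t ∨ pair s t ∈ v 3 ∨ pair t s ∈ v 3) ∧
      ∀ a ∈ v 1, ∃ t ∈ v 0, pair t a ∈ v 4) [β, setN (ordN : K → _), setN (ordN : Nd → _),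
      grN ordN ordN Lt, grN ordN ordN fun _ t a => ht t = a]).truth C ⟨b3, hl⟩ b2 C.top
  refine hb p ⟨fun q s => Fc [ordN s, β] (fun C => C.val (ordN s) ∈ C.val β) q,
    fun _ _ _ h => h.mono, fun q hq a => ?_, fun q hq s t h1 h2 => ?_⟩
  · obtain ⟨C', c1, c2, c3⟩ := fresh q [ordN a, β, setN (ordN : K → _), setN (ordN : Nd → _),
      grN ordN ordN Lt, grN ordN ordN fun _ t a => ht t = a]
    obtain ⟨d1, -, d2⟩ := hp C' (C'.up q c1 p hq) c3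
    obtain ⟨t, t1, t2⟩ := d2 _ (ord_mem_top C' c2)
    obtain ⟨t, t3, rfl⟩ := (mem_setN C').1 (d1 t1)
    obtain ⟨r, -, r1, r2⟩ := (dfn (fun _ v => v 0 ∈ v 1) [ordN t, β]).truth C'
      ⟨t3, c3.1, trivial⟩ t1 c1
    obtain ⟨-, -, e⟩ := (pair_grN C' inj_ordN inj_ordN t3 c2).1 t2
    exact ⟨r, r1, t, e, r2⟩
  · obtain ⟨C', c1, c2, c3, c4⟩ := fresh q [ordN s, ordN t, β, setN (ordN : K → _),
      setN (ordN : Nd → _), grN ordN ordN Lt, grN ordN ordN fun _ t a => ht t = a]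
    rcases (hp C' (C'.up q c1 p hq) c4).2.1 _ (h1 C' c1 ⟨c2, c4.1, trivial⟩) _
      (h2 C' c1 ⟨c3, c4.1, trivial⟩) with h | h | h
    · exact .inl (inj_ordN C' _ _ c2 c3 h)
    · obtain ⟨r, r1, r2⟩ := (pair_grN C' inj_ordN inj_ordN c2 c3).1 h
      obtain ⟨u, -, u1, u2⟩ := C'.dir q c1 r r1
      exact .inr ⟨u, u1, .inl (hT.mono _ _ _ _ r2 u2)⟩
    · obtain ⟨r, r1, r2⟩ := (pair_grN C' inj_ordN inj_ordN c3 c2).1 h
      obtain ⟨u, -, u1, u2⟩ := C'.dir q c1 r r1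
      exact .inr ⟨u, u1, .inr (hT.mono _ _ _ _ r2 u2)⟩

end Pool.Agent.Lib.MP_6993b6_lc
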