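import Pool.Agent.Lib.MP_6993b6_lc.Models2

/-!
The tree property in the model.
-/

namespace Pool.Agent.Lib.MP_6993b6_lc

open ZFSet Classical Set Pool.Agent.Lib.MP_053343_lc Pool.Agent.Lib.MP_053343_lc.Name
open Pool.Agent.Shared.Forcing

/-- `j` is the least index of the node `t` of level `a`. -/
def Code (T h f a j t : ZFSet.{0}) : Prop :=
  t ∈ T ∧ pair t a ∈ h ∧ pair j t ∈ f ∧ ∀ i ∈ j, pair i t ∉ f

instance UD.code (T h f a j t : ℕ) :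
    UD fun _ v => Code (v T) (v h) (v f) (v a) (v j) (v t) := by
  unfold Code
  infer_instance

/-- `f` codes the nodes of level `a` by members of `w`. -/
def Codes (w T h a f : ZFSet.{0}) : Prop :=
  (∀ j ∈ w, ∀ t ∈ T, ∀ t' ∈ T, Code T h f a j t → Code T h f a j t' → t = t') ∧
    ∀ t ∈ T, pair t a ∈ h → ∃ j ∈ w, Code T h f a j t

instance UD.codes (w T h a f : ℕ) : UD fun _ v => Codes (v w) (v T) (v h) (v a) (v f) := by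
  unfold Codes
  infer_instance

theorem codes_of_onto {M w T h a : ZFSet.{0}} (hw : w.IsTransitive)
    (ho : Onto M w (T.sep fun t => pair t a ∈ h)) : ∃ f ∈ M, Codes w T h a f := by
  obtain ⟨f, f1, f2, f3⟩ := ho
  refine ⟨f, f1, fun j hj t _ t' _ h1 h2 => f2 j hj t (mem_sep.2 ⟨h1.1, h1.2.1⟩) t'
    (mem_sep.2 ⟨h2.1, h2.2.1⟩) h1.2.2.1 h2.2.2.1, fun t ht h1 => ?_⟩
  obtain ⟨j, ⟨j1, j2⟩, j3⟩ := mem_wf.has_min {j | j ∈ w ∧ pair j t ∈ f}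
    (f3 t (mem_sep.2 ⟨ht, h1⟩))
  exact ⟨j, j1, ht, h1, j2, fun i hi h2 => j3 i ⟨hw _ j1 hi, h2⟩ hi⟩

variable {P K W : Type} [Preorder P] [OrderTop P]
  [LinearOrder K] [WellFoundedLT K] [LinearOrder W] [WellFoundedLT W]

theorem tp_core (nomax : ∀ α : K, ∃ β, α < β)
    (core : ∀ (Lt : P → K × W → K × W → Prop) (p0 : P), TreeSys Prod.fst Lt p0 →
      ∃ p1 ≤ p0, HasBr Prod.fst Lt p1) (T r h : Name P) (p0 : P)
    (h0 : Fc [setN (ordN : W → _), setN (ordN : K → _), T, r, h] (fun C => IsTree C.M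
      (C.val (setN (ordN : W → _))) (C.val (setN (ordN : K → _))) (C.val T) (C.val r) (C.val h)) p0) :
    ∃ C : Cx P, p0 ∈ C.G ∧ Has C [setN (ordN : W → _), setN (ordN : K → _), T, r, h] ∧
      Branch C.M (C.val (setN (ordN : K → _))) (C.val T) (C.val r) (C.val h) := by
  set l0 := [setN (ordN : W → _), setN (ordN : K → _), T, r, h] with hl0
  have hψ : ∀ a : K, ∃ ψ, Fc (ψ :: ordN a :: l0) (fun C => Codes (C.val (setN (ordN : W → _)))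
      (C.val T) (C.val h) (C.val (ordN a)) (C.val ψ)) p0 := fun a =>
    max_principle (Φ := fun C x => Codes (C.val (setN (ordN : W → _)))
      (C.val T) (C.val h) (C.val (ordN a)) x)
      (fun σ => dfn (fun _ v => Codes (v 2) (v 4) (v 6) (v 1) (v 0)) (σ :: ordN a :: l0))
      fun C c1 c2 => codes_of_onto (top_ord C).isTransitive
        ((h0 C c1 c2.2).small _ (ord_mem_top C c2.1))
  choose ψ hψ using hψ
  let Cd : P → K × W → Name P → Prop := fun p s σ =>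
    Fc (σ :: ordN s.2 :: ψ s.1 :: ordN s.1 :: l0) (fun C => Code (C.val T) (C.val h)
      (C.val (ψ s.1)) (C.val (ordN s.1)) (C.val (ordN s.2)) (C.val σ)) p
  let Rl : P → Name P → Name P → Prop := fun p σ τ =>
    Fc [σ, τ, r] (fun C => pair (C.val σ) (C.val τ) ∈ C.val r) p
  let Lt : P → K × W → K × W → Prop := fun p s t =>
    s.1 < t.1 ∧ ∃ σ τ, Cd p s σ ∧ Cd p t τ ∧ Rl p σ τ
  have cdT : ∀ (C : Cx P) {s : K × W} {σ p}, p ∈ C.G →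
      Has C (σ :: ordN s.2 :: ψ s.1 :: ordN s.1 :: l0) → Code (C.val T) (C.val h)
      (C.val (ψ s.1)) (C.val (ordN s.1)) (C.val (ordN s.2)) (C.val σ) →
      ∃ q ∈ C.G, q ≤ p ∧ Cd q s σ := fun C s σ p hp hl hc =>
    (dfn (fun _ v => Code (v 6) (v 8) (v 2) (v 3) (v 1) (v 0)) _).truth C hl hc hp
  have rlT : ∀ (C : Cx P) {σ τ p}, p ∈ C.G → σ ∈ C.N → τ ∈ C.N → Has C l0 →
      pair (C.val σ) (C.val τ) ∈ C.val r → ∃ q ∈ C.G, q ≤ p ∧ Rl q σ τ :=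
    fun C σ τ p hp h1 h2 hl hc => (dfn (fun _ v => pair (v 0) (v 1) ∈ v 2) [σ, τ, r]).truth C
      ⟨h1, h2, hl.2.2.2.1, trivial⟩ hc hp
  have cdU : ∀ (C : Cx P) {s : K × W} {σ τ p}, p ∈ C.G → p ≤ p0 → τ ∈ C.N →
      Has C (σ :: ordN s.2 :: ψ s.1 :: ordN s.1 :: l0) → Cd p s σ → Cd p s τ →
      C.val σ = C.val τ := fun C s σ τ p hp h1 h2 hl c1 c2 =>
    (hψ s.1 C (C.up p hp _ h1) hl.2.2).1 _ (ord_mem_top C hl.2.1) _ (c1 C hp hl).1 _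
      (c2 C hp ⟨h2, hl.2⟩).1 (c1 C hp hl) (c2 C hp ⟨h2, hl.2⟩)
  have cdE : ∀ (C : Cx P) {a t p}, p ∈ C.G → p ≤ p0 → Has C (ψ a :: ordN a :: l0) →
      t ∈ C.val T → pair t (C.val (ordN a)) ∈ C.val h →
      ∃ σ ∈ C.N, C.val σ = t ∧ ∃ j, ∃ q ∈ C.G, q ≤ p ∧ Cd q (a, j) σ := by
    intro C a t p hp h1 hl t1 t2
    obtain ⟨σ, s1, rfl⟩ := C.mem_M.1 (C.trans _ (C.val_mem_M hl.2.2.2.2.1) t1)
    obtain ⟨j, j1, j2⟩ := (hψ a C (C.up p hp _ h1) hl).2 _ t1 t2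
    obtain ⟨j, j3, rfl⟩ := (mem_setN C).1 j1
    exact ⟨σ, s1, rfl, j, cdT C (s := (a, j)) hp ⟨s1, j3, hl⟩ j2⟩
  have cdN : ∀ {p s σ}, p ≤ p0 → Cd p s σ → Node Prod.fst Lt p s := by
    intro p s σ hp hc q hq β hβ
    obtain ⟨C, c1, c2, c3, c4⟩ :=
      fresh q (ψ β :: ordN β :: σ :: ordN s.2 :: ψ s.1 :: ordN s.1 :: l0)
    have c5 := c4.2.2.2.2
    have d1 := hc C (C.up q c1 p hq) c4
    obtain ⟨t, t1, t2, t3⟩ := (h0 C (C.up q c1 _ (hq.trans hp)) c5).onto _ d1.1 _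
      (ord_mem_top C c4.2.2.2.1) d1.2.1 _ ((ord_mem_ord C c3).2 hβ)
    obtain ⟨τ, d2, rfl, j, q1, d3, d4, d5⟩ := cdE C c1 (hq.trans hp) ⟨c2, c3, c5⟩ t1 t3
    obtain ⟨q2, -, d6, d7⟩ := rlT C d3 d2 c4.1 c5 t2
    exact ⟨q2, d6.trans d4, (β, j), rfl, hβ, τ, σ, d5.mono d6,
      hc.mono ((d6.trans d4).trans hq), d7⟩
  have hT : TreeSys Prod.fst Lt p0 := by
    constructor
    · rintro p q s t ⟨h1, σ, τ, h2, h3, h4⟩ hq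
      exact ⟨h1, σ, τ, h2.mono hq, h3.mono hq, h4.mono hq⟩
    · exact fun _ _ _ h => h.1
    · rintro p hp ⟨a, j⟩ ⟨a', j'⟩ t ⟨-, σ, τ, h1, h2, h3⟩ ⟨-, σ', τ', h4, h5, h6⟩ (rfl : a = a')
      obtain ⟨C, c1, c2, c3, c4, c5, c6, c7, c8, c9⟩ := fresh p (σ :: σ' :: ordN j :: ordN j' ::
        ψ a :: ordN a :: τ' :: τ :: ordN t.2 :: ψ t.1 :: ordN t.1 :: l0)
      have c0 := c9.2.2.2.2
      have d0 := h0 C (C.up p c1 _ hp) c0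
      have d1 := h1 C c1 ⟨c2, c4, c6, c7, c0⟩
      have d2 := h4 C c1 ⟨c3, c5, c6, c7, c0⟩
      have d3 := h3 C c1 ⟨c2, c9.1, c0.2.2.2.1, trivial⟩
      have d4 := h6 C c1 ⟨c3, c8, c0.2.2.2.1, trivial⟩
      have d5 := ord_mem_top C c7
      simp only [← cdU C c1 hp c8 c9 h2 h5] at d4
      have e : C.val σ = C.val σ' := by
        rcases d0.lin _ d1.1 _ d2.1 _ (h2 C c1 c9).1 d3 d4 with e | e | e
        · exact e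
        · exact (mem_irrefl _ (d0.mono _ d1.1 _ d2.1 e _ d5 _ d5 d1.2.1 d2.2.1)).elim
        · exact (mem_irrefl _ (d0.mono _ d2.1 _ d1.1 e _ d5 _ d5 d2.2.1 d1.2.1)).elim
      simp only [← e] at d2
      rcases lt_trichotomy j j' with e' | e' | e'
      · exact (d2.2.2.2 _ ((ord_mem_ord C c4).2 e') d1.2.2.1).elim
      · rw [e']
      · exact (d1.2.2.2 _ ((ord_mem_ord C c5).2 e') d2.2.2.1).elim
    · rintro p hp s t u ⟨h1, σ, τ, h2, h3, h4⟩ ⟨h5, τ', υ, h6, h7, h8⟩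
      obtain ⟨C, c1, c2, c3, c4, c5, c6, c7, c8, c9, c10, c11⟩ := fresh p (σ :: ordN s.2 :: ψ s.1 ::
        ordN s.1 :: υ :: ordN u.2 :: ψ u.1 :: ordN u.1 :: τ' :: τ :: ordN t.2 :: ψ t.1 ::
        ordN t.1 :: l0)
      have c0 := c11.2.2.2.2
      have d4 := h8 C c1 ⟨c10, c6, c0.2.2.2.1, trivial⟩
      simp only [← cdU C c1 hp c10 c11 h3 h6] at d4
      obtain ⟨q, -, q1, q2⟩ := rlT C c1 c2 c6 c0 ((h0 C (C.up p c1 _ hp) c0).trans _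
        (h2 C c1 ⟨c2, c3, c4, c5, c0⟩).1 _ (h3 C c1 c11).1 _ (h7 C c1 ⟨c6, c7, c8, c9, c0⟩).1
        (h4 C c1 ⟨c2, c11.1, c0.2.2.2.1, trivial⟩) d4)
      exact ⟨q, q1, h1.trans h5, σ, υ, h2.mono q1, h7.mono q1, q2⟩
    · rintro p hp s t ⟨-, σ, -, h1, -⟩
      exact cdN hp h1
    · intro p hp a
      obtain ⟨C, c1, c2⟩ := fresh p (ψ a :: ordN a :: l0)
      obtain ⟨t, t1, t2⟩ := (h0 C (C.up p c1 _ hp) c2.2.2).lev _ (ord_mem_top C c2.2.1)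
      obtain ⟨σ, -, -, j, q, -, d1, d2⟩ := cdE C c1 hp c2 t1 t2
      exact ⟨q, d1, (a, j), rfl, cdN (d1.trans hp) d2⟩
  obtain ⟨p1, hp1, B, b1, b2, b3⟩ := core Lt p0 hT
  let β : Name P := niceN T {x | x.2 ≤ p1 ∧ x.2 ≤ T.cd x.1 ∧ ∃ s, B x.2 s ∧ Cd x.2 s (T.ch x.1)}
  have hβ : ∀ (C : Cx P) {z}, z ∈ C.val β ↔ ∃ i, ∃ p ∈ C.G, T.ch i ∈ C.N ∧ z = C.val (T.ch i) ∧
      p ≤ p1 ∧ p ≤ T.cd i ∧ ∃ s, B p s ∧ Cd p s (T.ch i) := fun C z => C.mem_val.trans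
    ⟨fun ⟨⟨⟨i, p⟩, h1⟩, h2, h3, h4⟩ => ⟨i, p, h3, h2, h4, h1⟩,
      fun ⟨i, p, h3, h2, h4, h1⟩ => ⟨⟨⟨i, p⟩, h1⟩, h2, h3, h4⟩⟩
  obtain ⟨C, c1, c2, c3⟩ := fresh p1 (β :: l0)
  refine ⟨C, C.up p1 c1 _ hp1, c3, _, C.val_mem_M c2, fun z hz => ?_, fun z hz z' hz' => ?_,
    fun a ha => ?_⟩
  · obtain ⟨i, p, d1, d2, rfl, -, d3, -⟩ := (hβ C).1 hz
    exact C.mem_val.2 ⟨i, d2, C.up p d1 _ d3, rfl⟩
  · obtain ⟨i, p, d1, d2, rfl, d3, -, s, d4, d5⟩ := (hβ C).1 hz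
    obtain ⟨i', p', e1, e2, rfl, -, -, t, e4, e5⟩ := (hβ C).1 hz'
    obtain ⟨q, q1, q2, q3⟩ := C.dir p d1 p' e1
    refine (dfn (fun _ v => v 0 = v 1 ∨ pair (v 0) (v 1) ∈ v 2 ∨ pair (v 1) (v 0) ∈ v 2)
      [T.ch i, T.ch i', r]).dense (fun u hu => ?_) C q1 ⟨d2, e2, c3.2.2.2.1, trivial⟩
    have key : ∀ {s t σ τ}, Cd u s σ → Cd u t τ → ∀ u' ≤ u, Lt u' s t →
        ∃ C : Cx P, u ∈ C.G ∧ σ ∈ C.N ∧ τ ∈ C.N ∧ r ∈ C.N ∧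
          pair (C.val σ) (C.val τ) ∈ C.val r := by
      rintro s t σ τ h1 h2 u' h3 ⟨-, σ', τ', h4, h5, h6⟩
      obtain ⟨C, c1, c2, c3, c4, c5, c6, c7, c8⟩ := fresh u' (σ' :: σ :: ordN s.2 :: ψ s.1 ::
        ordN s.1 :: τ' :: τ :: ordN t.2 :: ψ t.1 :: ordN t.1 :: l0)
      have c0 := c8.2.2.2.2
      have c9 := ((h3.trans hu).trans q2).trans (d3.trans hp1)
      refine ⟨C, C.up u' c1 u h3, c3, c8.1, c0.2.2.2.1, ?_⟩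
      rw [cdU C c1 c9 c2 ⟨c3, c4, c5, c6, c0⟩ (h1.mono h3) h4, cdU C c1 c9 c7 c8 (h2.mono h3) h5]
      exact h6 C c1 ⟨c2, c7, c0.2.2.2.1, trivial⟩
    have f1 := d5.mono (hu.trans q2)
    have f2 := e5.mono (hu.trans q3)
    rcases b3 u ((hu.trans q2).trans d3) s t (b1 _ _ _ d4 (hu.trans q2))
      (b1 _ _ _ e4 (hu.trans q3)) with rfl | ⟨u', f3, f4 | f4⟩
    · obtain ⟨C, c1, c2, c3⟩ := fresh u (T.ch i' :: T.ch i :: ordN s.2 :: ψ s.1 :: ordN s.1 :: l0)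
      exact ⟨C, c1, ⟨c3.1, c2, c3.2.2.2.2.2.2.2.1, trivial⟩,
        .inl (cdU C c1 (((hu.trans q2).trans d3).trans hp1) c2 c3 f1 f2)⟩
    · obtain ⟨C, g1, g2, g3, g4, g5⟩ := key f1 f2 u' f3 f4
      exact ⟨C, g1, ⟨g2, g3, g4, trivial⟩, .inr (.inl g5)⟩
    · obtain ⟨C, g1, g2, g3, g4, g5⟩ := key f2 f1 u' f3 f4
      exact ⟨C, g1, ⟨g3, g2, g4, trivial⟩, .inr (.inr g5)⟩
  · obtain ⟨a, a1, rfl⟩ := (mem_setN C).1 ha
    refine (dfn (fun _ v => ∃ t ∈ v 0, pair t (v 1) ∈ v 2) [β, ordN a, h]).dense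
      (fun q hq => ?_) C c1 ⟨c2, a1, c3.2.2.2.2.1, trivial⟩
    obtain ⟨q1, d1, s, rfl, d2⟩ := b2 q hq a
    obtain ⟨a', d3⟩ := nomax s.1
    obtain ⟨q2, d4, t, rfl, d5⟩ := b2 q1 (d1.trans hq) a'
    obtain rfl | ⟨q3, d6, ⟨-, σ, -, d7, -⟩ | d7⟩ :=
      b3 q2 (d4.trans (d1.trans hq)) s t (b1 _ _ _ d2 d4) d5
    · exact (lt_irrefl _ d3).elim
    · obtain ⟨C, c1, c2, c3⟩ := fresh q3 (β :: σ :: ordN s.2 :: ψ s.1 :: ordN s.1 :: l0)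
      have e1 := d7 C c1 c3
      obtain ⟨i, e2, e3, e4⟩ := C.mem_val.1 e1.1
      simp only [e4] at e1
      obtain ⟨q4, e5, e6, e7⟩ := C.dir q3 c1 _ e3
      obtain ⟨q5, e8, e9, e10⟩ := cdT C e5 ⟨e2, c3.2⟩ e1
      have e11 := (e9.trans e6).trans (d6.trans d4)
      exact ⟨C, C.up q3 c1 q ((d6.trans d4).trans d1),
        ⟨c2, c3.2.2.2.1, c3.2.2.2.2.2.2.2.2.1, trivial⟩, _, (hβ C).2 ⟨i, q5, e8, e2, rfl,
          e11.trans (d1.trans hq), e9.trans e7, s, b1 _ _ _ d2 e11, e10⟩, e1.2.1⟩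
    · exact (lt_asymm d3 d7.1).elim

theorem tp_branch (nomax : ∀ α : K, ∃ β, α < β)
    (core : ∀ (Lt : P → K × W → K × W → Prop) (p0 : P), TreeSys Prod.fst Lt p0 →
      ∃ p1 ≤ p0, HasBr Prod.fst Lt p1) (C : Cx P) (h1 : setN (ordN : W → _) ∈ C.N)
    (h2 : setN (ordN : K → _) ∈ C.N) : ∀ T ∈ C.M, ∀ r ∈ C.M, ∀ h ∈ C.M,
      IsTree C.M (C.val (setN (ordN : W → _))) (C.val (setN (ordN : K → _))) T r h →
        Branch C.M (C.val (setN (ordN : K → _))) T r h := by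
  intro T hT r hr h hh ht
  obtain ⟨T, a1, rfl⟩ := C.mem_M.1 hT
  obtain ⟨r, a2, rfl⟩ := C.mem_M.1 hr
  obtain ⟨h, a3, rfl⟩ := C.mem_M.1 hh
  have hl : Has C [setN (ordN : W → _), setN (ordN : K → _), T, r, h] :=
    ⟨h1, h2, a1, a2, a3, trivial⟩
  obtain ⟨p, p1, -, p2⟩ := (dfn (fun M v => IsTree M (v 0) (v 1) (v 2) (v 3) (v 4)) _).truth C hl
    ht C.top
  exact (dfn (fun M v => Branch M (v 1) (v 2) (v 3) (v 4)) _).dense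
    (fun q hq => tp_core nomax core T r h q (p2.mono hq)) C p1 hl

end Pool.Agent.Lib.MP_6993b6_lc
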