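import Pool.Agent.Lib.MP_6993b6_lc.Models3

/-!
The Cohen extension of the model as a context for the product.
-/

namespace Pool.Agent.Lib.MP_6993b6_lc

open ZFSet Classical Set Pool.Agent.Lib.MP_053343_lc Pool.Agent.Lib.MP_053343_lc.Name
open Pool.Agent.Shared.Forcing

theorem mem_sc {l : List Bool} {z : ZFSet} :
    z ∈ sc l ↔ ∃ i : Fin l.length, z = pair (nat i) (nat (l.get i).toNat) := by
  rw [sc, ZFSet.mem_range]
  exact exists_congr fun _ => eq_comm

theorem sc_inj {l l' : List Bool} (h : sc l = sc l') : l = l' := by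
  have key : ∀ {l l' : List Bool}, sc l = sc l' → ∀ i (hi : i < l.length),
      ∃ hi' : i < l'.length, l[i] = l'[i] := by
    intro l l' h i hi
    obtain ⟨j, hj⟩ := mem_sc.1 (h ▸ mem_sc.2 ⟨⟨i, hi⟩, rfl⟩ : _ ∈ sc l')
    rw [pair_inj] at hj
    obtain rfl : i = j := nat_inj hj.1
    have h2 : l[j.1].toNat = l'[j.1].toNat := nat_inj hj.2
    refine ⟨j.2, ?_⟩
    revert h2
    cases l[j.1] <;> cases l'[j.1] <;> simp
  have h1 : ∀ {l l' : List Bool}, sc l = sc l' → l.length ≤ l'.length := fun h => by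
    by_contra hc
    obtain ⟨h1, -⟩ := key h _ (not_le.1 hc)
    exact lt_irrefl _ h1
  exact List.ext_getElem (le_antisymm (h1 h) (h1 h.symm)) fun i a _ => (key h i a).2

theorem seg_eq (x : ℕ → Bool) (n : ℕ) : seg x n = (List.range n).map x := by
  refine List.ext_getElem (by simp [seg]) fun i _ _ => by simp [seg]

theorem seg_mono (x : ℕ → Bool) {n m : ℕ} (h : n ≤ m) : seg x n <+: seg x m := by
  rw [seg_eq, seg_eq]
  obtain ⟨k, rfl⟩ := Nat.exists_eq_add_of_le h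
  rw [List.range_add]
  exact (List.prefix_append _ _).map x

theorem seg_of_le {x : ℕ → Bool} {l : List Bool} {n : ℕ} (h : l <+: seg x n) :
    l = seg x l.length := by
  have h1 : l.length ≤ n := by simpa [seg] using h.length_le
  exact (List.prefix_of_prefix_length_le h (seg_mono x h1) (by simp [seg])).eq_of_length
    (by simp [seg])

theorem exists_cohen {M : ZFSet.{0}} (h : M.toSet.Countable) : ∃ x, Cohen M x := by
  obtain ⟨G, -, -, g3, g4⟩ := exists_generic (P := Co)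
    ((fun D => {c | sc c.l ∈ D}) '' M.toSet ∪ range fun n => {c | n < c.l.length})
    ((h.image _).union (countable_range _))
  have h1 : ∀ n, ∃ c ∈ G, n < c.l.length := fun n => by
    obtain ⟨c, c1, c2 | c2⟩ := g4 _ (.inr ⟨n, rfl⟩)
    · exact ⟨c, c1, c2⟩
    · exact (c2 ⟨c.l ++ List.replicate (n + 1) true⟩ (List.prefix_append _ _)
        (by simp; omega)).elim
  choose c c1 c2 using h1
  refine ⟨fun n => (c n).l[n]'(c2 n), fun D hD hd => ?_⟩
  obtain ⟨p, p1, p2 | p2⟩ := g4 _ (.inl ⟨D, hD, rfl⟩)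
  · refine ⟨p.l.length, ?_⟩
    rwa [show seg (fun n => (c n).l[n]'(c2 n)) p.l.length = p.l from ?_]
    refine List.ext_getElem (by simp [seg]) fun i _ hi => ?_
    obtain ⟨r, -, r1, r2⟩ := g3 p p1 _ (c1 i)
    simp only [seg, List.getElem_ofFn]
    exact (List.IsPrefix.getElem r2 _).trans (List.IsPrefix.getElem r1 hi).symm
  · obtain ⟨l, hl⟩ := hd p.l
    exact (p2 ⟨p.l ++ l⟩ (List.prefix_append _ _) hl).elim

theorem rank_lt_of_pair {σ c τ : ZFSet.{0}} (h : pair σ c ∈ τ) : σ.rank < τ.rank :=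
  ((rank_lt_of_mem (mem_singleton.2 rfl)).trans
    (rank_lt_of_mem (show {σ} ∈ pair σ c by simp [pair]))).trans (rank_lt_of_mem h)

theorem exists_eval (x : ℕ → Bool) : ∃ v : ZFSet.{0} → ZFSet.{0},
    ∀ τ z, z ∈ v τ ↔ ∃ σ n, pair σ (sc (seg x n)) ∈ τ ∧ z = v σ := by
  have hs : ∀ τ : ZFSet.{0}, Small.{0} {σ // ∃ n, pair σ (sc (seg x n)) ∈ τ} := fun τ =>
    small_of_injective (β := (ZFSet.sUnion (ZFSet.sUnion τ) : ZFSet.{0}))
      (f := fun σ => ⟨σ.1, σ.2.elim fun n hn => ZFSet.mem_sUnion.2 ⟨{σ.1}, ZFSet.mem_sUnion.2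
        ⟨_, hn, by simp [pair]⟩, mem_singleton.2 rfl⟩⟩)
      fun _ _ h => Subtype.ext (Subtype.mk.inj h)
  let v : ZFSet.{0} → ZFSet.{0} := (InvImage.wf ZFSet.rank wellFounded_lt).fix fun τ f =>
    ZFSet.range fun σ : {σ // ∃ n, pair σ (sc (seg x n)) ∈ τ} =>
      f σ.1 (σ.2.elim fun _ => rank_lt_of_pair)
  refine ⟨v, fun τ z => ?_⟩
  rw [show v τ = ZFSet.range fun σ : {σ // ∃ n, pair σ (sc (seg x n)) ∈ τ} => v σ.1 from
    WellFounded.fix_eq _ _ _, ZFSet.mem_range]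
  exact ⟨fun ⟨σ, h⟩ => σ.2.elim fun n hn => ⟨σ.1, n, hn, h.symm⟩,
    fun ⟨σ, n, hn, h⟩ => ⟨⟨σ, n, hn⟩, h.symm⟩⟩

variable {P : Type} [Preorder P] [OrderTop P]

/-- The name of a Cohen condition. -/
def scN (c : Co) : Name P :=
  setN fun i : Fin c.l.length => pairN (natN i) (natN (c.l.get i).toNat)

theorem val_scN (C : Cx P) (c : Co) : C.val (scN c) = sc c.l := by
  ext z
  rw [scN, mem_setN, mem_sc]
  refine exists_congr fun i => ?_
  have := C.pair_memN (C.natN_mem i) (C.natN_mem (c.l.get i).toNat)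
  rw [and_iff_right this, C.val_pairN this, C.val_natN, C.val_natN]

theorem scN_inj {c c' : Co} (h : (scN c : Name P) = scN c') : c = c' := by
  obtain ⟨C, -⟩ := fresh (⊤ : P) []
  exact Co.ext (sc_inj (by rw [← val_scN C, h, val_scN]))

theorem pairN_inj {σ τ σ' τ' : Name P} (h : pairN σ τ = pairN σ' τ') : σ = σ' ∧ τ = τ' := by
  have key : ∀ {σ τ σ' τ' : Name P}, upairN σ τ = upairN σ' τ' → σ = σ' ∧ τ = τ' := fun h => by
    unfold upairN setN at h
    injection h with _ h _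
    exact ⟨congrFun h true, congrFun h false⟩
  exact key (key h).2

/-- A name for the product as a name for a Cohen name. -/
def down : Name (P × Co) → Name P
  | ⟨α, A, B⟩ => ⟨α, fun i => pairN (down (A i)) (scN (B i).2), fun i => (B i).1⟩

theorem down_inj : Function.Injective (down : Name (P × Co) → Name P) := by
  intro ν
  induction ν with
  | mk α A B ih =>
    rintro ⟨α', A', B'⟩ h
    unfold down at h
    injection h with h1 h2 h3
    subst h1
    have h4 := fun i => pairN_inj (congrFun (eq_of_heq h2) i)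
    congr 1
    · exact funext fun i => ih i (h4 i).1
    · exact funext fun i => Prod.ext (congrFun (eq_of_heq h3) i) (scN_inj (h4 i).2)

/-- A name for a Cohen name as a name for the product, with the values at two generations. -/
def up3 : (σ : Name P) → Name (P × Co) × (σ.Ty → Name (P × Co)) ×
    ((i : σ.Ty) → (σ.ch i).Ty → Name (P × Co))
  | ⟨α, A, B⟩ => (⟨{x : (Σ i : α, Σ j : (A i).Ty, ((A i).ch j).Ty) × P × Co //
      FMem (pairN (((A x.1.1).ch x.1.2.1).ch x.1.2.2) (scN x.2.2)) ⟨α, A, B⟩ x.2.1},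
      fun x => (up3 (A x.1.1.1)).2.2 x.1.1.2.1 x.1.1.2.2, fun x => x.1.2⟩,
    fun i => (up3 (A i)).1, fun i j => (up3 (A i)).2.1 j)

def up (σ : Name P) : Name (P × Co) := (up3 σ).1

theorem up3_two (σ : Name P) (i : σ.Ty) (j : (σ.ch i).Ty) :
    (up3 σ).2.2 i j = up ((σ.ch i).ch j) := by
  have key : ∀ (τ : Name P) j, (up3 τ).2.1 j = up (τ.ch j) := fun τ => by
    cases τ
    exact fun _ => rfl
  cases σ with
  | mk α A B => exact key (A i) j

theorem mem_up (C : Cx (P × Co)) (σ : Name P) {z : ZFSet} : z ∈ C.val (up σ) ↔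
    ∃ i j k p c, FMem (pairN (((σ.ch i).ch j).ch k) (scN c)) σ p ∧
      up (((σ.ch i).ch j).ch k) ∈ C.N ∧ (p, c) ∈ C.G ∧ z = C.val (up (((σ.ch i).ch j).ch k)) := by
  cases σ with
  | mk α A B =>
    refine C.mem_val.trans ⟨?_, ?_⟩
    · rintro ⟨⟨⟨⟨i, j, k⟩, p, c⟩, h⟩, h1, h2, h3⟩
      exact ⟨i, j, k, p, c, h, up3_two (A i) j k ▸ h1, h2, up3_two (A i) j k ▸ h3⟩
    · rintro ⟨i, j, k, p, c, h, h1, h2, h3⟩
      rw [← up3_two] at h1 h3
      exact ⟨⟨⟨⟨i, j, k⟩, p, c⟩, h⟩, h1, h2, h3⟩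

/-- `x` decides `S`. -/
def Dcd (S : Set (P × Co)) (x : P × Co) : Prop := x ∈ S ∨ ∀ q ≤ x, q ∉ S

/-- The name of the set of Cohen conditions that decide `S`. -/
def decN (S : Set (P × Co)) : Name P := ⟨{x // Dcd S x}, fun x => scN x.1.2, fun x => x.1.1⟩

/-- Relations under which the ground context is closed. -/
def R2 (s : List (Name P)) : BR ⊕ BD ⊕ Co ⊕ Co ⊕ Co ⊕ Option (Fin s.length) →
    List (Name P) → Name P → Prop
  | .inl b, l, y => ∃ l' x, l = l'.map down ∧ b.ev l' x ∧ y = down x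
  | .inr (.inl k), l, y => ∃ l', l = l'.map down ∧ y = decN (k.ev l')
  | .inr (.inr (.inl c)), l, y => y = down (cN (dC (l.getD 0 empty), c))
  | .inr (.inr (.inr (.inl c))), l, y => down (up y) = l.getD 1 empty ∧
      FMem (pairN y (scN c)) (l.getD 2 empty) (dC (l.getD 0 empty))
  | .inr (.inr (.inr (.inr (.inl c)))), _, y => y = scN c
  | .inr (.inr (.inr (.inr (.inr none)))), l, y => y = down (up (l.getD 0 empty))
  | .inr (.inr (.inr (.inr (.inr (some i))))), _, y => y = s.get i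

/-- Sets met by the ground filter. -/
def D2 (k : BD × Co) (l : List (Name P)) : Set P :=
  {p | ∃ l', l = l'.map down ∧ ∃ c ≤ k.2, Dcd (k.1.ev l') (p, c)}

section two

variable {s : List (Name P)} (C : Ctx (R2 s) D2)

theorem scN_mem (c : Co) : scN c ∈ C.N := by
  obtain ⟨_, h, rfl⟩ := C.uwit (.inr (.inr (.inr (.inr (.inl c))))) C.nil ⟨_, rfl⟩
  exact h

theorem down_list {l : List (Name (P × Co))} (hl : ∀ x ∈ l, down x ∈ C.N) :
    ∀ x ∈ l.map down, x ∈ C.N := by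
  simpa using hl

/-- The context for the product. -/
def prodCx {x : ℕ → Bool} (hx : Cohen (forget C).M x) : Cx (P × Co) where
  N := {ν | down ν ∈ C.N}
  G := {q | q.1 ∈ C.G ∧ ∃ n, q.2.l = seg x n}
  cnt := C.cnt.preimage_of_injOn down_inj.injOn
  wit := by
    rintro (b | e) l hl ⟨y, hy⟩
    · obtain ⟨_, h, l', y, e, h1, rfl⟩ := C.uwit (.inl b) (down_list C hl) ⟨_, l, y, rfl, hy, rfl⟩
      obtain rfl := List.map_injective_iff.2 down_inj e
      exact ⟨y, h, h1⟩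
    · exact e.elim
  dec := by
    rintro (k | e) l hl
    · obtain ⟨_, h, l', e, rfl⟩ := C.uwit (.inr (.inl k)) (down_list C hl) ⟨_, l, rfl, rfl⟩
      obtain rfl := List.map_injective_iff.2 down_inj e
      obtain ⟨n, hn⟩ := hx _ ((forget C).val_mem_M h) fun a => by
        obtain ⟨p, p1, l', e, c, c1, c2⟩ := C.udense (k, ⟨a⟩) (down_list C hl) C.top fun q _ => by
          by_cases h : ∃ y ≤ (q, (⟨a⟩ : Co)), y ∈ k.ev l
          · obtain ⟨y, y1, y2⟩ := h
            exact ⟨y.1, y1.1, l, rfl, y.2, y1.2, .inl y2⟩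
          · exact ⟨q, le_rfl, l, rfl, _, le_rfl, .inr fun y y1 y2 => h ⟨y, y1, y2⟩⟩
        obtain rfl := List.map_injective_iff.2 down_inj e
        obtain ⟨b, hb⟩ := c1
        refine ⟨b, (forget C).mem_val.2 ⟨⟨(p, c), c2⟩, scN_mem C c, p1, ?_⟩⟩
        exact hb.symm ▸ (val_scN (forget C) c).symm
      obtain ⟨⟨y, y1⟩, -, y2, y3⟩ := (forget C).mem_val.1 hn
      exact ⟨y, ⟨y2, n, (sc_inj (y3.trans (val_scN (forget C) y.2))).symm⟩, y1⟩
    · exact e.elim
  top := ⟨C.top, 0, rfl⟩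
  up := by
    rintro p ⟨h1, n, h2⟩ q h
    exact ⟨C.up _ h1 _ h.1, _, seg_of_le (h2 ▸ Co.le_def.1 h.2)⟩
  dir := by
    rintro p ⟨h1, n, h2⟩ q ⟨h3, m, h4⟩
    obtain ⟨r, r1, r2, r3⟩ := C.dir _ h1 _ h3
    exact ⟨(r, ⟨seg x (max n m)⟩), ⟨r1, _, rfl⟩,
      ⟨r2, Co.le_def.2 (h2 ▸ seg_mono x (le_max_left n m))⟩,
      r3, Co.le_def.2 (h4 ▸ seg_mono x (le_max_right n m))⟩
  cof := by
    rintro p ⟨h1, h2⟩
    obtain ⟨q, q1, q2, q3⟩ := C.cof _ h1
    obtain ⟨_, h, rfl⟩ := C.uwit (.inr (.inr (.inl p.2))) (C.one q3) ⟨_, rfl⟩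
    simp only [List.getD_cons_zero, dC_cN] at h
    exact ⟨(q, p.2), ⟨q1, h2⟩, ⟨q2, le_rfl⟩, h⟩

theorem up_mem {σ : Name P} (h : σ ∈ C.N) : down (up σ) ∈ C.N := by
  obtain ⟨_, h, rfl⟩ := C.uwit (.inr (.inr (.inr (.inr (.inr none))))) (C.one h) ⟨_, rfl⟩
  exact h

theorem isExt {x : ℕ → Bool} (hx : Cohen (forget C).M x) :
    IsExt (forget C).M x (prodCx C hx).M := by
  obtain ⟨v, hv⟩ := exists_eval x
  have h1 : ∀ ν, (prodCx C hx).val ν = v ((forget C).val (down ν)) := by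
    intro ν
    induction ν with
    | mk α A B ih =>
      ext z
      rw [hv, (prodCx C hx).mem_val]
      constructor
      · rintro ⟨i, a1, ⟨a2, n, a3⟩, rfl⟩
        have a4 := (forget C).pair_memN a1 (scN_mem C (B i).2)
        refine ⟨_, n, (forget C).mem_val.2 ⟨i, a4, a2, ?_⟩, ih i⟩
        exact a3 ▸ val_scN (forget C) (B i).2 ▸ ((forget C).val_pairN a4).symm
      · rintro ⟨σ, n, a1, rfl⟩
        obtain ⟨i, a2, a3, a4⟩ := (forget C).mem_val.1 a1
        have a5 := pair_inj.1 (a4.trans ((forget C).val_pairN a2))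
        rw [val_scN] at a5
        exact ⟨i, (forget C).pairN_left a2, ⟨a3, n, (sc_inj a5.2).symm⟩,
          a5.1 ▸ (ih i).symm⟩
  have h2 : ∀ y : ZFSet.{0}, ∀ σ ∈ C.N, (forget C).val σ = y →
      (prodCx C hx).val (up σ) = v y := by
    intro y
    induction y using (InvImage.wf ZFSet.rank wellFounded_lt).induction with
    | h y ih =>
      rintro σ hσ rfl
      have key : ∀ {g c}, g ∈ C.N → (pair ((forget C).val g) (sc c.l) ∈ (forget C).val σ ↔
          ∃ p ∈ C.G, FMem (pairN g (scN c)) σ p) := fun {g c} hg => by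
        have := (forget C).pair_memN hg (scN_mem C c)
        rw [← val_scN (forget C), ← (forget C).val_pairN this]
        exact (forget C).val_mem_iff this hσ
      ext z
      rw [hv, mem_up]
      constructor
      · rintro ⟨i, j, k, p, c, a1, a2, ⟨a3, n, a4⟩, rfl⟩
        obtain ⟨q, q1, q2, q3⟩ := C.cof _ a3
        obtain ⟨g, g1, g2, g3⟩ := C.uwit (.inr (.inr (.inr (.inl c)))) (C.three q3 a2 hσ)
          ⟨_, rfl, by
            simp only [List.getD_cons_zero, dC_cN]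
            exact a1.mono q2⟩
        simp only [List.getD_cons_zero, dC_cN] at g3
        have g4 := (key g1).2 ⟨q, q1, g3⟩
        exact ⟨_, n, a4 ▸ g4, by rw [← down_inj g2, ih _ (rank_lt_of_pair g4) g g1 rfl]⟩
      · rintro ⟨y, n, a1, rfl⟩
        obtain ⟨i, -, -, a2⟩ := (forget C).mem_val.1 a1
        obtain ⟨j, -, -, a3⟩ := (forget C).mem_val.1
          (a2 ▸ (show {y} ∈ pair y (sc (seg x n)) by simp [pair]))
        obtain ⟨k, a4, -, rfl⟩ := (forget C).mem_val.1 (a3 ▸ mem_singleton.2 rfl)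
        obtain ⟨p, p1, p2⟩ := (key (c := ⟨seg x n⟩) a4).1 a1
        exact ⟨i, j, k, p, _, p2, up_mem C a4, ⟨p1, n, rfl⟩,
          (ih _ (rank_lt_of_pair a1) _ a4 rfl).symm⟩
  refine ⟨v, hv, fun z => (prodCx C hx).mem_M.trans ⟨?_, ?_⟩⟩
  · rintro ⟨ν, a1, rfl⟩
    exact ⟨_, (forget C).val_mem_M a1, h1 ν⟩
  · rintro ⟨τ, a1, rfl⟩
    obtain ⟨σ, a2, rfl⟩ := (forget C).mem_M.1 a1
    exact ⟨up σ, up_mem C a2, h2 _ σ a2 rfl⟩

end two

theorem two_step (l : List (Name P)) (l' : List (Name (P × Co))) : ∃ C : Cx P, Has C l ∧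
    ∀ x, Cohen C.M x → ∃ C' : Cx (P × Co), Has C' l' ∧ IsExt C.M x C'.M := by
  obtain ⟨C⟩ := exists_ctx (R2 (l ++ l'.map down)) D2
  have h : ∀ y ∈ l ++ l'.map down, y ∈ C.N := fun y hy => by
    obtain ⟨i, rfl⟩ := List.mem_iff_get.1 hy
    obtain ⟨_, h, rfl⟩ := C.uwit (.inr (.inr (.inr (.inr (.inr (some i)))))) C.nil ⟨_, rfl⟩
    exact h
  exact ⟨forget C, has_iff.2 fun y hy => h y (List.mem_append_left _ hy), fun x hx =>
    ⟨prodCx C hx, has_iff.2 fun y hy => h _ (List.mem_append_right _ (List.mem_map_of_mem hy)),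
      isExt C hx⟩⟩

omit [OrderTop P] in
theorem Bdd.fst {I Y : Type} [LT Y] (h : Bdd (P × Co) I Y) : Bdd P I Y := fun V hV p => by
  obtain ⟨q, q1, b, q2⟩ := h (fun x => V x.1)
    ⟨fun _ _ _ _ h h' => hV.mono _ _ _ _ h h'.1, fun _ => hV.uniq _⟩ (p, ⊤)
  exact ⟨q.1, q1.1, b, fun r hr => q2 (r, q.2) ⟨hr, le_rfl⟩⟩

omit [OrderTop P] in
theorem Cov.prod {I Y : Type} {S : Set Y} (h : Cov P I S) : Cov (P × Co) I S := by
  obtain ⟨V, hV, h⟩ := h
  refine ⟨fun x => V x.1, ⟨fun _ _ _ _ h h' => hV.mono _ _ _ _ h h'.1, fun _ => hV.uniq _⟩,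
    fun p y hy => ?_⟩
  obtain ⟨q, q1, q2⟩ := h p.1 y hy
  exact ⟨(q, p.2), ⟨q1, le_rfl⟩, q2⟩

theorem layerB {P K W : Type} [Preorder P] [OrderTop P] [LinearOrder K] [WellFoundedLT K]
    [LinearOrder W] [WellFoundedLT W] (S : Sys P K W) :
    ∃ M : ZFSet.{0}, ModelZF M ∧ Pool.Agent.Shared.Forcing.Choice M ∧ M.toSet.Countable ∧ TP M ∧
      (∃ x, Cohen M x) ∧ ∀ x, Cohen M x → ∃ N, IsExt M x N ∧ ModelZF N ∧
        Pool.Agent.Shared.Forcing.Choice N ∧ HasAron N := by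
  obtain ⟨Nd, ht, Lt, a1, a2, a3, a4⟩ := S.aron
  obtain ⟨_, _⟩ := exists_wellFoundedLT Nd
  obtain ⟨C, ⟨c1, c2, -⟩, hC⟩ := two_step [(setN (ordN : W → _) : Name P), setN (ordN : K → _)]
    [setN (ordN : W → _), setN (ordN : K → _), setN (ordN : Nd → _),
      grN ordN ordN Lt, grN ordN ordN fun _ t a => ht t = a]
  have hc : C.M.toSet.Countable := (C.cnt.image C.val).mono fun _ h => C.mem_M.1 h
  refine ⟨C.M, C.modelZF, C.choice, hc, ⟨_, _, C.val_omegaN ▸ succ_top inj_natN S.h1.fst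
    (fun y => cov_of_countable (S.cnt y)) C C.omega_mem c1,
    succ_top inj_ordN S.h2.fst S.col C c1 c2, tp_branch S.nomax S.core C c1 c2⟩,
    exists_cohen hc, fun x hx => ?_⟩
  obtain ⟨C', hl, h⟩ := hC x hx
  exact ⟨_, h, C'.modelZF, C'.choice, _, _, C'.val_omegaN ▸ succ_top inj_natN S.h1
    (fun y => cov_of_countable (S.cnt y)) C' C'.omega_mem hl.1,
    succ_top inj_ordN S.h2 (fun y => (S.col y).prod) C' hl.1 hl.2.1,
    _, C'.val_mem_M hl.2.2.1, _, C'.val_mem_M hl.2.2.2.1, _, C'.val_mem_M hl.2.2.2.2.1,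
    aron_tree a1 a2 a3 C' hl, aron_nobranch a1 a4 C' hl.2⟩

end Pool.Agent.Lib.MP_6993b6_lc
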